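import Pool.Agent.X256.HC.Frame

/-!
# Classification of the irreducible characters with nonzero Harish-Chandra restriction
-/

open scoped BigOperators Classical
open Representation Pool.Agent.Helper884.IC Pool.Agent.X256.CT

noncomputable section

namespace Pool.Agent.X256.CT

variable {G : Type} [Group G] [Fintype G]

/-- the norm of a class function with natural multiplicities -/
lemma norm_expand {I : G → ℂ} (hI : IsClass I) {a : (G → ℂ) → ℕ}
    (ha : ∀ chi ∈ Irr G, B I chi = a chi) : B I I = ((∑ chi ∈ Irr G, a chi ^ 2 : ℕ) : ℂ) := by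
  rw [B_expand I I hI]
  push_cast
  refine Finset.sum_congr rfl fun chi hchi => ?_
  rw [B_comm chi I, ha chi hchi]
  ring

lemma sum_sq_one {α : Type} {s : Finset α} {a : α → ℕ} (h : ∑ x ∈ s, a x ^ 2 = 1) {x : α}
    (hx : x ∈ s) (hax : a x ≠ 0) : a x = 1 ∧ ∀ y ∈ s, y ≠ x → a y = 0 := by
  have h1 := Finset.add_sum_erase s (fun x => a x ^ 2) hx
  rw [h] at h1
  have h2 : 1 ≤ a x ^ 2 := Nat.one_le_pow _ _ (Nat.pos_of_ne_zero hax)
  have h3 : a x ^ 2 = 1 := by omega
  have h4 : ∑ y ∈ s.erase x, a y ^ 2 = 0 := by omega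
  constructor
  · rcases Nat.pow_eq_one.mp h3 with h5 | h5
    · exact h5
    · omega
  · intro y hy hne
    have h5 := (Finset.sum_eq_zero_iff.mp h4) y (Finset.mem_erase.mpr ⟨hne, hy⟩)
    exact pow_eq_zero_iff (two_ne_zero) |>.mp h5

lemma sum_sq_two {α : Type} {s : Finset α} {a : α → ℕ} (h : ∑ x ∈ s, a x ^ 2 = 2) {x : α}
    (hx : x ∈ s) (hax : a x ≠ 0) :
    a x = 1 ∧ ∃ y ∈ s, y ≠ x ∧ a y = 1 ∧ ∀ z ∈ s, z ≠ x → z ≠ y → a z = 0 := by
  have h1 := Finset.add_sum_erase s (fun x => a x ^ 2) hx
  rw [h] at h1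
  have h2 : a x < 2 := by
    by_contra hn
    push Not at hn
    have : 2 ^ 2 ≤ a x ^ 2 := Nat.pow_le_pow_left hn 2
    omega
  have h3 : a x = 1 := by omega
  refine ⟨h3, ?_⟩
  rw [h3] at h1
  have h4 : ∑ y ∈ s.erase x, a y ^ 2 = 1 := by omega
  have h5 : ∃ y ∈ s.erase x, a y ≠ 0 := by
    by_contra hn
    push Not at hn
    rw [Finset.sum_eq_zero (fun y hy => by rw [hn y hy]; rfl)] at h4
    omega
  obtain ⟨y, hy, hay⟩ := h5
  obtain ⟨h6, h7⟩ := sum_sq_one h4 hy hay
  refine ⟨y, Finset.mem_of_mem_erase hy, Finset.ne_of_mem_erase hy, h6, ?_⟩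
  intro z hz hzx hzy
  exact h7 z (Finset.mem_erase.mpr ⟨hzx, hz⟩) hzy

/-- a class function with natural multiplicities and norm one is irreducible -/
lemma eq_of_norm_one {I : G → ℂ} (hI : IsClass I) {a : (G → ℂ) → ℕ}
    (ha : ∀ chi ∈ Irr G, B I chi = a chi) (hn : B I I = 1) {chi : G → ℂ} (hchi : IsIrrChar chi)
    (hne : a chi ≠ 0) : I = chi := by
  have h1 : ∑ psi ∈ Irr G, a psi ^ 2 = 1 := by
    have := norm_expand hI ha
    rw [hn] at this
    exact_mod_cast this.symm
  obtain ⟨h2, h3⟩ := sum_sq_one h1 (mem_Irr.mpr hchi) hne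
  rw [expand I hI, Finset.sum_eq_single chi]
  · rw [ha chi (mem_Irr.mpr hchi), h2, Nat.cast_one, one_smul]
  · intro psi hpsi hne'
    rw [ha psi hpsi, h3 psi hpsi hne', Nat.cast_zero, zero_smul]
  · intro h
    exact absurd (mem_Irr.mpr hchi) h

lemma exists_of_norm_one {I : G → ℂ} (hI : IsClass I) {a : (G → ℂ) → ℕ}
    (ha : ∀ chi ∈ Irr G, B I chi = a chi) (hn : B I I = 1) : IsIrrChar I := by
  have h1 : ∑ psi ∈ Irr G, a psi ^ 2 = 1 := by
    have := norm_expand hI ha
    rw [hn] at this
    exact_mod_cast this.symm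
  have h2 : ∃ chi ∈ Irr G, a chi ≠ 0 := by
    by_contra hno
    push Not at hno
    rw [Finset.sum_eq_zero (fun y hy => by rw [hno y hy]; rfl)] at h1
    omega
  obtain ⟨chi, hchi, hne⟩ := h2
  rw [eq_of_norm_one hI ha hn (mem_Irr.mp hchi) hne]
  exact mem_Irr.mp hchi

lemma IsChar.irr_of_norm {theta : G → ℂ} (h : IsChar theta) (hn : B theta theta = 1) :
    IsIrrChar theta := by
  obtain ⟨n, h1, _⟩ := h.expand_nat
  exact exists_of_norm_one h.isClass h1 hn

/-- composition of irreducible characters with automorphisms -/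
lemma irr_comp_equiv {H : Type} [Group H] [Fintype H] (e : G ≃* H) {chi : H → ℂ}
    (h : IsIrrChar chi) : IsIrrChar (fun x : G => chi (e x)) := by
  apply IsChar.irr_of_norm
  · exact (IsChar.of_irr h).comp e.toMonoidHom
  · have h1 := B_irr h h
    rw [if_pos rfl] at h1
    rw [← h1]
    unfold B
    rw [Nat.card_congr e.toEquiv]
    congr 1
    refine Fintype.sum_equiv e.toEquiv _ _ fun x => ?_
    have : e x⁻¹ = (e x)⁻¹ := map_inv e x
    change chi (e x) * chi (e x⁻¹) = chi (e x) * chi (e x)⁻¹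
    rw [this]

end Pool.Agent.X256.CT

namespace Pool.Agent.X256.HC.BN

variable {F X : Type} [Field F] [Fintype F] [Group X] [Fintype X] (A : BN F X)

/-- `c ↦ w c w` as an automorphism of `C` -/
def wAut : A.C ≃* A.C where
  toFun c := ⟨A.w * c * A.w, A.w_conj c c.2⟩
  invFun c := ⟨A.w * c * A.w, A.w_conj c c.2⟩
  left_inv c := by
    apply Subtype.ext
    change A.w * (A.w * c * A.w) * A.w = c
    calc A.w * (A.w * (c : X) * A.w) * A.w = (A.w * A.w) * c * (A.w * A.w) := by group
      _ = c := by rw [A.w_sq]; group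
  right_inv c := by
    apply Subtype.ext
    change A.w * (A.w * c * A.w) * A.w = c
    calc A.w * (A.w * (c : X) * A.w) * A.w = (A.w * A.w) * c * (A.w * A.w) := by group
      _ = c := by rw [A.w_sq]; group
  map_mul' c d := by
    apply Subtype.ext
    change A.w * (c * d) * A.w = (A.w * c * A.w) * (A.w * d * A.w)
    calc A.w * ((c : X) * d) * A.w = A.w * c * (1 : X) * d * A.w := by group
      _ = A.w * c * (A.w * A.w) * d * A.w := by rw [A.w_sq]
      _ = _ := by group

lemma tw_irr {mu : A.C → ℂ} (h : IsIrrChar mu) : IsIrrChar (A.tw mu) :=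
  irr_comp_equiv A.wAut h

lemma tw_one (mu : A.C → ℂ) : A.tw mu 1 = mu 1 := by
  unfold tw
  congr 1
  apply Subtype.ext
  change A.w * (1 : X) * A.w = 1
  rw [mul_one, A.w_sq]

/-- multiplicities of irreducible characters in an induced function -/
lemma ind_nat {mu : A.C → ℂ} (hmu : IsIrrChar mu) :
    ∃ a : (X → ℂ) → ℕ, ∀ chi ∈ Irr X, B (A.ind mu) chi = a chi ∧ B (A.res chi) mu = a chi := by
  choose! a ha using fun chi (hchi : chi ∈ Irr X) =>
    A.res_nat (IsChar.of_irr (mem_Irr.mp hchi)) (IsChar.of_irr hmu)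
  refine ⟨a, fun chi hchi => ⟨?_, ha chi hchi⟩⟩
  rw [A.frob mu chi (mem_Irr.mp hchi).isClass, B_comm, ha chi hchi]

lemma ind_norm {mu : A.C → ℂ} (hmu : IsIrrChar mu) :
    B (A.ind mu) (A.ind mu) = 1 + if mu = A.tw mu then 1 else 0 := by
  rw [A.frob mu _ (A.ind_class mu)]
  have h1 : A.res (A.ind mu) = mu + A.tw mu := by
    funext c
    exact A.mackey mu hmu.isClass c
  rw [h1, B_comm, B_add_left, B_irr hmu hmu, if_pos rfl, B_irr (A.tw_irr hmu) hmu]
  congr 1
  by_cases h : mu = A.tw mu
  · rw [if_pos h.symm, if_pos h]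
  · rw [if_neg (fun h' => h h'.symm), if_neg h]

/-- values on the unipotent elements -/
lemma unip {chi : X → ℂ} (hchi : IsClass chi) {b : F} (hb : b ≠ 0) :
    chi (A.u b) = chi (A.u 1) := by
  obtain ⟨c, hc⟩ := A.trans b hb
  rw [← hc, ← A.al_spec, hchi]

lemma sum_unip {chi : X → ℂ} (hchi : IsClass chi) :
    ∑ b : F, chi (A.u b) = chi 1 + ((Fintype.card F : ℂ) - 1) * chi (A.u 1) := by
  rw [← Finset.add_sum_erase Finset.univ _ (Finset.mem_univ (0 : F)), A.u_zero]
  congr 1
  rw [Finset.sum_congr rfl (g := fun _ => chi (A.u 1))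
    (fun b hb => A.unip hchi (Finset.ne_of_mem_erase hb)), Finset.sum_const,
    Finset.card_erase_of_mem (Finset.mem_univ _), Finset.card_univ, nsmul_eq_mul,
    Nat.cast_sub Fintype.card_pos]
  simp

/-- the multiplicity of a nontrivial character of `U` -/
lemma exists_m {chi : X → ℂ} (hchi : IsChar chi) :
    ∃ m : ℕ, chi 1 - chi (A.u 1) = (Fintype.card F : ℂ) * m := by
  let uh : Multiplicative F →* X := MonoidHom.mk' (fun b => A.u (Multiplicative.toAdd b)) (by
    intro a b
    rw [← A.u_add]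
    rfl)
  obtain ⟨θ, hθ⟩ := AddChar.exists_apply_ne_zero.mpr (one_ne_zero (α := F))
  let lam : Multiplicative F →* ℂˣ := toHom (fun b => θ (Multiplicative.toAdd b))
    (by exact AddChar.map_zero_eq_one θ) (fun x y => AddChar.map_add_eq_mul θ _ _)
  obtain ⟨m, hm⟩ := IsChar.B_nat (hchi.comp uh) (IsChar.of_irr (isIrrChar_hom lam))
  refine ⟨m, ?_⟩
  rw [← hm]
  unfold B
  have h1 : ∑ g : Multiplicative F, chi (uh g) * ((lam g⁻¹ : ℂˣ) : ℂ) =
      ∑ b : F, chi (A.u b) * θ (-b) :=
    Fintype.sum_equiv Multiplicative.toAdd _ _ fun g => rfl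
  rw [h1]
  have h2 : ∑ b : F, chi (A.u b) * θ (-b) = chi 1 - chi (A.u 1) := by
    have h3 : ∑ b : F, θ (-b) = 0 := by
      have h4 : ∑ b : F, θ (-b) = ∑ b : F, θ b := Fintype.sum_equiv (Equiv.neg F) _ _ fun b => rfl
      rw [h4, AddChar.sum_eq_ite, if_neg]
      intro h
      rw [h] at hθ
      exact hθ rfl
    rw [← Finset.add_sum_erase Finset.univ _ (Finset.mem_univ (0 : F))] at h3 ⊢
    rw [Finset.sum_congr rfl (g := fun b => chi (A.u 1) * θ (-b))
      (fun b hb => by rw [A.unip hchi.isClass (Finset.ne_of_mem_erase hb)]), ← Finset.mul_sum]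
    have h5 : ∑ b ∈ Finset.univ.erase (0 : F), θ (-b) = -1 := by
      rw [neg_zero, AddChar.map_zero_eq_one] at h3
      linear_combination h3
    rw [h5, neg_zero, AddChar.map_zero_eq_one, A.u_zero]
    ring
  rw [h2, Nat.card_eq_fintype_card]
  have h6 : Fintype.card (Multiplicative F) = Fintype.card F := Fintype.card_congr Multiplicative.toAdd
  rw [h6]
  have := cF (F := F)
  field_simp

lemma res_one {chi : X → ℂ} (hchi : IsClass chi) :
    (Fintype.card F : ℂ) * A.res chi 1 = chi 1 + ((Fintype.card F : ℂ) - 1) * chi (A.u 1) := by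
  rw [← A.sum_unip hchi]
  unfold res
  rw [← mul_assoc, mul_inv_cancel₀ cF, one_mul]
  refine Finset.sum_congr rfl fun b _ => ?_
  rw [Subgroup.coe_one, mul_one]

/-- the two relations between the degree, the unipotent value, `j` and `m` -/
lemma jm {chi : X → ℂ} (hchi : IsChar chi) : ∃ m : ℕ,
    chi 1 = A.res chi 1 + ((Fintype.card F : ℂ) - 1) * m ∧ chi (A.u 1) = A.res chi 1 - m := by
  obtain ⟨m, hm⟩ := A.exists_m hchi
  have h1 := A.res_one hchi.isClass
  have h0 := cF (F := F)
  refine ⟨m, ?_, ?_⟩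
  · apply mul_left_cancel₀ h0
    linear_combination (-1 : ℂ) * h1 + ((Fintype.card F : ℂ) - 1) * hm
  · apply mul_left_cancel₀ h0
    linear_combination (-1 : ℂ) * h1 - hm

/-- the hypothesis that the quotient by the normal closure of `U` is commutative -/
def Ab : Prop := ∀ K : Subgroup X, K.Normal → (∀ b, A.u b ∈ K) →
  A.w ∈ K ∧ ∀ c ∈ A.C, ∀ c' ∈ A.C, c * c' * c⁻¹ * c'⁻¹ ∈ K

/-- if `U` is in the kernel, the character is linear -/
lemma lin_of_m (hAb : A.Ab) {chi : X → ℂ} (hirr : IsIrrChar chi) (hm : chi 1 = chi (A.u 1)) :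
    chi 1 = 1 := by
  have hcl := hirr.isClass
  obtain ⟨V, _, _, _, rho, hr, rfl⟩ := hirr
  -- `U` acts trivially
  let uh : Multiplicative F →* X := MonoidHom.mk' (fun b => A.u (Multiplicative.toAdd b)) (by
    intro a b
    rw [← A.u_add]
    rfl)
  let sig : Representation ℂ (Multiplicative F) V := rho.comp uh
  have : Invertible (Nat.card (Multiplicative F) : ℂ) := invertibleOfNonzero cardG_ne
  have h1 := Representation.card_inv_mul_sum_char_eq_finrank (G := Multiplicative F) sig
  have h2 : ∑ g : Multiplicative F, sig.character g =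
      (Nat.card (Multiplicative F) : ℂ) * (Module.finrank ℂ V : ℂ) := by
    have h3 : ∀ g : Multiplicative F, sig.character g = (Module.finrank ℂ V : ℂ) := by
      intro g
      change rho.character (A.u (Multiplicative.toAdd g)) = _
      rw [← rho.char_one, hm]
      by_cases hg : Multiplicative.toAdd g = 0
      · rw [hg, A.u_zero, ← hm]
      · exact A.unip hcl hg
    rw [Finset.sum_congr rfl fun g _ => h3 g, Finset.sum_const, Finset.card_univ, nsmul_eq_mul,
      Nat.card_eq_fintype_card]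
  rw [h2, ← mul_assoc, inv_mul_cancel₀ cardG_ne, one_mul] at h1
  have h4 : Module.finrank ℂ (Representation.invariants sig) = Module.finrank ℂ V := by
    exact_mod_cast h1.symm
  have h5 : Representation.invariants sig = ⊤ := Submodule.eq_top_of_finrank_eq h4
  have hU : ∀ b, rho (A.u b) = 1 := by
    intro b
    ext v
    have h6 : v ∈ Representation.invariants sig := by rw [h5]; trivial
    exact h6 (Multiplicative.ofAdd b)
  -- kernel
  let K : Subgroup X := {
    carrier := {x | rho x = 1}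
    mul_mem' := by
      intro a b ha hb
      simp only [Set.mem_setOf_eq] at ha hb ⊢
      rw [map_mul, ha, hb, mul_one]
    one_mem' := map_one rho
    inv_mem' := by
      intro a ha
      simp only [Set.mem_setOf_eq] at ha ⊢
      have h7 : rho a⁻¹ * rho a = 1 := by rw [← map_mul, inv_mul_cancel, map_one]
      rwa [ha, mul_one] at h7 }
  have hK : K.Normal := by
    constructor
    intro a ha g
    change rho (g * a * g⁻¹) = 1
    have ha' : rho a = 1 := ha
    rw [map_mul, map_mul, ha', mul_one, ← map_mul, mul_inv_cancel, map_one]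
  obtain ⟨hw, hcc⟩ := hAb K hK hU
  have hw' : rho A.w = 1 := hw
  have hval : ∀ x, ∃ c ∈ A.C, rho x = rho c := by
    intro x
    rcases A.cover x with ⟨b, c, hc, rfl⟩ | ⟨a, b, c, hc, rfl⟩
    · exact ⟨c, hc, by rw [map_mul, hU, one_mul]⟩
    · exact ⟨c, hc, by rw [map_mul, map_mul, map_mul, hU, hU, hw', one_mul, one_mul, one_mul]⟩
  have hcomm : ∀ x y : X, rho x * rho y = rho y * rho x := by
    intro x y
    obtain ⟨c, hc, e1⟩ := hval x
    obtain ⟨c', hc', e2⟩ := hval y
    have h8 : rho (c * c' * c⁻¹ * c'⁻¹) = 1 := hcc c hc c' hc'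
    rw [e1, e2, ← map_mul, ← map_mul]
    have h9 : c * c' = (c * c' * c⁻¹ * c'⁻¹) * (c' * c) := by group
    rw [h9, map_mul, h8, one_mul]
  exact (comm_irr rho hr hcomm).1

/-- **Classification.** The possible degrees and unipotent values of the irreducible characters
with nonzero Harish-Chandra restriction. -/
theorem noncusp (hAb : A.Ab) (hq : 1 < Fintype.card F)
    (hdeg : ∀ mu : A.C → ℂ, IsIrrChar mu → mu 1 = 1 ∨ mu 1 = 2)
    {chi : X → ℂ} (hchi : IsIrrChar chi) (hres : ∃ c, A.res chi c ≠ 0) :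
    (chi 1 = 1 ∧ chi (A.u 1) = 1) ∨ (chi 1 = Fintype.card F ∧ chi (A.u 1) = 0) ∨
    (chi 1 = (Fintype.card F : ℂ) + 1 ∧ chi (A.u 1) = 1) ∨
    (chi 1 = 2 * ((Fintype.card F : ℂ) + 1) ∧ chi (A.u 1) = 2 ∧
      ∃ mu : A.C → ℂ, IsIrrChar mu ∧ mu 1 = 2) := by
  have hq1 : ((Fintype.card F : ℂ) - 1) ≠ 0 := by
    intro h
    have h1 : (Fintype.card F : ℂ) = 1 := sub_eq_zero.mp h
    have h2 : Fintype.card F = 1 := by exact_mod_cast h1
    omega
  -- a constituent of the restriction
  obtain ⟨n, hn, hn2⟩ := A.res_expand (IsChar.of_irr hchi)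
  have h1 : ∃ mu ∈ Irr A.C, n mu ≠ 0 := by
    by_contra hno
    push Not at hno
    obtain ⟨c, hc⟩ := hres
    apply hc
    rw [hn2 c]
    exact Finset.sum_eq_zero fun mu hmu => by rw [hno mu hmu]; simp
  obtain ⟨mu, hmu, hne⟩ := h1
  have hmuI := mem_Irr.mp hmu
  obtain ⟨a, ha⟩ := A.ind_nat hmuI
  have hchi' := mem_Irr.mpr hchi
  have hachi : a chi ≠ 0 := by
    have e1 := (ha chi hchi').2
    rw [hn mu hmu] at e1
    have e2 : n mu = a chi := by exact_mod_cast e1
    rw [← e2]
    exact hne
  have hnorm := A.ind_norm hmuI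
  have hsum := norm_expand (A.ind_class mu) (fun chi hchi => (ha chi hchi).1)
  obtain ⟨m, hm1, hm2⟩ := A.jm (IsChar.of_irr hchi)
  by_cases htw : mu = A.tw mu
  · -- two constituents
    rw [if_pos htw] at hnorm
    have hs2 : ∑ chi ∈ Irr X, a chi ^ 2 = 2 := by
      rw [hnorm] at hsum
      have e1 : ((∑ chi ∈ Irr X, a chi ^ 2 : ℕ) : ℂ) = ((2 : ℕ) : ℂ) := by
        rw [← hsum]
        norm_num
      exact_mod_cast e1
    obtain ⟨ha1, chi', hchi'', hne', ha', hz⟩ := sum_sq_two hs2 hchi' hachi
    have hirr' := mem_Irr.mp hchi''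
    -- the induced function is the sum
    have hI : ∀ g, A.ind mu g = chi g + chi' g := by
      intro g
      have e1 := congrFun (expand _ (A.ind_class mu)) g
      rw [e1, Finset.sum_apply, ← Finset.add_sum_erase _ _ hchi',
        ← Finset.add_sum_erase _ _ (Finset.mem_erase.mpr ⟨hne', hchi''⟩),
        Finset.sum_eq_zero]
      · simp only [Pi.smul_apply, smul_eq_mul]
        rw [(ha chi hchi').1, (ha chi' hchi'').1, ha1, ha']
        simp
      · intro z hz'
        have hz1 := Finset.mem_of_mem_erase (Finset.mem_of_mem_erase hz')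
        have hz2 := Finset.ne_of_mem_erase hz'
        have hz3 := Finset.ne_of_mem_erase (Finset.mem_of_mem_erase hz')
        simp only [Pi.smul_apply, smul_eq_mul]
        rw [(ha z hz1).1, hz z hz1 hz3 hz2]
        simp
    -- restrictions
    obtain ⟨n', hn', hn2'⟩ := A.res_expand (IsChar.of_irr hirr')
    have hres2 : ∀ c, A.res chi c + A.res chi' c = 2 * mu c := by
      intro c
      have e1 := A.mackey mu hmuI.isClass c
      have e2 : A.res (A.ind mu) c = A.res chi c + A.res chi' c := by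
        unfold res
        rw [← mul_add, ← Finset.sum_add_distrib]
        congr 1
        exact Finset.sum_congr rfl fun b _ => hI _
      rw [← e2, e1, ← htw]
      ring
    have hnn : ∀ nu ∈ Irr A.C, nu ≠ mu → n nu = 0 ∧ n' nu = 0 := by
      intro nu hnu hne
      have e1 : B (A.res chi + A.res chi') nu = 0 := by
        have e2 : A.res chi + A.res chi' = (2 : ℂ) • mu := by
          funext c
          exact hres2 c
        rw [e2, B_smul_left, B_irr hmuI (mem_Irr.mp hnu), if_neg (fun h => hne h.symm), mul_zero]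
      rw [B_add_left, hn nu hnu, hn' nu hnu] at e1
      have e3 : n nu + n' nu = 0 := by exact_mod_cast e1
      omega
    have hn1 : n mu = 1 := by
      have e1 := (ha chi hchi').2
      rw [hn mu hmu, ha1] at e1
      exact_mod_cast e1
    have hn1' : n' mu = 1 := by
      have e1 := (ha chi' hchi'').2
      rw [hn' mu hmu, ha'] at e1
      exact_mod_cast e1
    have hr : A.res chi 1 = mu 1 := by
      rw [hn2, Finset.sum_eq_single mu]
      · rw [hn1]; simp
      · intro nu hnu hne
        rw [(hnn nu hnu hne).1]; simp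
      · intro h; exact absurd hmu h
    have hr' : A.res chi' 1 = mu 1 := by
      rw [hn2', Finset.sum_eq_single mu]
      · rw [hn1']; simp
      · intro nu hnu hne
        rw [(hnn nu hnu hne).2]; simp
      · intro h; exact absurd hmu h
    obtain ⟨m', hm1', hm2'⟩ := A.jm (IsChar.of_irr hirr')
    have hdegsum : chi 1 + chi' 1 = ((Fintype.card F : ℂ) + 1) * mu 1 := by
      rw [← hI 1, A.ind_one]
    rw [hr] at hm1 hm2
    rw [hr'] at hm1' hm2'
    have hmm : ((m + m' : ℕ) : ℂ) = mu 1 := by
      apply mul_left_cancel₀ hq1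
      push_cast
      linear_combination hdegsum - hm1 - hm1'
    rcases hdeg mu hmuI with hd | hd
    · rw [hd] at hmm hm1 hm2
      have e1 : m + m' = 1 := by exact_mod_cast hmm
      rcases Nat.eq_zero_or_pos m with h0 | h0
      · left
        rw [h0] at hm1 hm2
        constructor
        · rw [hm1]; simp
        · rw [hm2]; simp
      · right; left
        have e2 : m = 1 := by omega
        rw [e2] at hm1 hm2
        constructor
        · rw [hm1]; simp
        · rw [hm2]; simp
    · rw [hd] at hmm hm1 hm2 hm1' hm2'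
      have e1 : m + m' = 2 := by exact_mod_cast hmm
      have hmne : m ≠ 0 := by
        rintro rfl
        have e2 : chi 1 = chi (A.u 1) := by rw [hm1, hm2]; simp
        have e3 := A.lin_of_m hAb hchi e2
        rw [hm1] at e3
        norm_num at e3
      have hmne' : m' ≠ 0 := by
        rintro rfl
        have e2 : chi' 1 = chi' (A.u 1) := by rw [hm1', hm2']; simp
        have e3 := A.lin_of_m hAb hirr' e2
        rw [hm1'] at e3
        norm_num at e3
      have e2 : m = 1 := by omega
      right; right; left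
      rw [e2] at hm1 hm2
      constructor
      · rw [hm1]; push_cast; ring
      · rw [hm2]; norm_num
  · -- irreducible
    rw [if_neg htw, add_zero] at hnorm
    have hI := eq_of_norm_one (A.ind_class mu) (fun chi hchi => (ha chi hchi).1) hnorm hchi hachi
    have hr : A.res chi 1 = 2 * mu 1 := by
      rw [← hI, A.mackey mu hmuI.isClass 1, A.tw_one]
      ring
    have hd1 : chi 1 = ((Fintype.card F : ℂ) + 1) * mu 1 := by rw [← hI, A.ind_one]
    rw [hr] at hm1 hm2
    have hmm : (m : ℂ) = mu 1 := by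
      apply mul_left_cancel₀ hq1
      linear_combination hd1 - hm1
    rw [hmm] at hm2
    rcases hdeg mu hmuI with hd | hd
    · right; right; left
      rw [hd] at hd1 hm2
      constructor
      · rw [hd1]; ring
      · rw [hm2]; ring
    · right; right; right
      refine ⟨?_, ?_, mu, hmuI, hd⟩
      · rw [hd1, hd]; ring
      · rw [hm2, hd]; ring

/-- irreducibility of the induced character when `mu` is not fixed by the twist -/
theorem ind_irr {mu : A.C → ℂ} (hmu : IsIrrChar mu) (h : mu ≠ A.tw mu) : IsIrrChar (A.ind mu) := by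
  obtain ⟨a, ha⟩ := A.ind_nat hmu
  have hnorm := A.ind_norm hmu
  rw [if_neg h, add_zero] at hnorm
  exact exists_of_norm_one (A.ind_class mu) (fun chi hchi => (ha chi hchi).1) hnorm

end Pool.Agent.X256.HC.BN
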