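import Pool.Agent.X256.HC.Stab

/-!
# The cuspidal characters of the sharply three-transitive group: the multiplicity is even
-/

open scoped BigOperators Classical
open Matrix OnePoint Pool.Agent.Helper884.IC Pool.Agent.X256.CT

noncomputable section

namespace Pool.Agent.X256.HC

variable {F : Type} [Field F] [Fintype F]

namespace Inv

variable (S : Inv F) (T : Ty)

/-- the stabiliser of the pair of points -/
def DD : Subgroup (S.XX T) where
  carrier := {x | (x.1 ∞ = ∞ ∧ x.1 ((0 : F) : OnePoint F) = ((0 : F) : OnePoint F)) ∨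
    (x.1 ∞ = ((0 : F) : OnePoint F) ∧ x.1 ((0 : F) : OnePoint F) = ∞)}
  mul_mem' := by
    rintro a b (⟨h1, h2⟩ | ⟨h1, h2⟩) (⟨h3, h4⟩ | ⟨h3, h4⟩)
    · left
      change a.1 (b.1 ∞) = _ ∧ a.1 (b.1 _) = _
      rw [h3, h4, h1, h2]
      exact ⟨rfl, rfl⟩
    · right
      change a.1 (b.1 ∞) = _ ∧ a.1 (b.1 _) = _
      rw [h3, h4, h1, h2]
      exact ⟨rfl, rfl⟩
    · right
      change a.1 (b.1 ∞) = _ ∧ a.1 (b.1 _) = _
      rw [h3, h4, h1, h2]
      exact ⟨rfl, rfl⟩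
    · left
      change a.1 (b.1 ∞) = _ ∧ a.1 (b.1 _) = _
      rw [h3, h4, h1, h2]
      exact ⟨rfl, rfl⟩
  one_mem' := Or.inl ⟨rfl, rfl⟩
  inv_mem' := by
    rintro a (⟨h1, h2⟩ | ⟨h1, h2⟩)
    · left
      change a.1⁻¹ ∞ = _ ∧ a.1⁻¹ _ = _
      rw [Equiv.Perm.inv_eq_iff_eq, Equiv.Perm.inv_eq_iff_eq]
      exact ⟨h1.symm, h2.symm⟩
    · right
      change a.1⁻¹ ∞ = _ ∧ a.1⁻¹ _ = _
      rw [Equiv.Perm.inv_eq_iff_eq, Equiv.Perm.inv_eq_iff_eq]
      exact ⟨h2.symm, h1.symm⟩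

lemma ww_mul_mem (c : S.CC T) : S.ww T * (c : S.XX T) ∈ S.DD T := by
  right
  change (S.ww T).1 ((c : S.XX T).1 ∞) = _ ∧ (S.ww T).1 ((c : S.XX T).1 _) = _
  rw [c.2.1, c.2.2, S.ww_infty, S.ww_zero]
  exact ⟨rfl, rfl⟩

/-- parametrisation of the pair stabiliser -/
def ddE : S.CC T ⊕ S.CC T ≃ S.DD T :=
  Equiv.ofBijective (fun x => match x with
    | Sum.inl c => ⟨(c : S.XX T), Or.inl c.2⟩
    | Sum.inr c => ⟨S.ww T * (c : S.XX T), S.ww_mul_mem T c⟩) (by
    constructor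
    · rintro (c | c) (d | d) h
      · have h1 : (c : S.XX T) = d := congrArg (fun z : S.DD T => (z : S.XX T)) h
        rw [Subtype.ext h1]
      · exfalso
        have h1 : (c : S.XX T) = S.ww T * d := congrArg (fun z : S.DD T => (z : S.XX T)) h
        have h2 := c.2.1
        rw [h1] at h2
        change (S.ww T).1 ((d : S.XX T).1 ∞) = _ at h2
        rw [d.2.1, S.ww_infty] at h2
        exact OnePoint.coe_ne_infty _ h2
      · exfalso
        have h1 : S.ww T * (c : S.XX T) = d := congrArg (fun z : S.DD T => (z : S.XX T)) h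
        have h2 := d.2.1
        rw [← h1] at h2
        change (S.ww T).1 ((c : S.XX T).1 ∞) = _ at h2
        rw [c.2.1, S.ww_infty] at h2
        exact OnePoint.coe_ne_infty _ h2
      · have h1 : S.ww T * (c : S.XX T) = S.ww T * d :=
          congrArg (fun z : S.DD T => (z : S.XX T)) h
        rw [Subtype.ext (mul_left_cancel h1)]
    · rintro ⟨x, (hx | ⟨h1, h2⟩)⟩
      · exact ⟨Sum.inl ⟨x, hx⟩, rfl⟩
      · refine ⟨Sum.inr ⟨(S.ww T)⁻¹ * x, ?_, ?_⟩, ?_⟩
        · change (S.ww T).1⁻¹ (x.1 ∞) = _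
          rw [h1, Equiv.Perm.inv_eq_iff_eq, S.ww_infty]
        · change (S.ww T).1⁻¹ (x.1 _) = _
          rw [h2, Equiv.Perm.inv_eq_iff_eq, S.ww_zero]
        · apply Subtype.ext
          change S.ww T * ((S.ww T)⁻¹ * x) = x
          group)

instance : Fintype (S.DD T) := Fintype.ofFinite _

lemma sum_DD (f : S.XX T → ℂ) : ∑ d : S.DD T, f d = ∑ c : S.CC T, f c + ∑ c : S.CC T, f (S.ww T * c) := by
  rw [← (S.ddE T).sum_comp, Fintype.sum_sum_type]
  rfl

lemma card_DD : Nat.card (S.DD T) = 2 * Nat.card (S.CC T) := by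
  rw [← Nat.card_congr (S.ddE T), Nat.card_sum]
  ring

lemma conj_infty (hT : Tr T) (x : S.XX T) (P : OnePoint F) (hx : x.1 P = P) :
    ∃ (y : S.XX T) (b : F) (c : S.CC T), y⁻¹ * x * y = S.uu T b * c := by
  have key : ∀ y : S.XX T, y.1 ∞ = P → ∃ (b : F) (c : S.CC T), y⁻¹ * x * y = S.uu T b * c := by
    intro y hy
    apply S.inB_of_infty T hT
    change y.1⁻¹ (x.1 (y.1 ∞)) = ∞
    rw [Equiv.Perm.inv_eq_iff_eq, hy, hx]
  cases P with
  | infty => exact ⟨1, key 1 rfl⟩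
  | coe p =>
    refine ⟨S.uu T p * S.ww T, key _ ?_⟩
    change (S.uu T p).1 ((S.ww T).1 ∞) = _
    rw [S.ww_infty, S.uu_coe, zero_add]

lemma invol_zero (hfix : ∀ x, S.s x = x → IsSquare x) (hT : Reg T) {chi : S.XX T → ℂ}
    (hchi : IsClass chi) (hres : ∀ c, (S.bn T hT.tr).res chi c = 0) (x : S.XX T)
    (hx2 : x * x = 1) (hx1 : x ≠ 1) (P : OnePoint F) (hP : x.1 P = P) : chi x = 0 := by
  obtain ⟨y, b, c, h⟩ := S.conj_infty T hT.tr x P hP
  have hc : c ≠ 1 := by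
    rintro rfl
    apply hx1
    have h1 : S.uu T b * S.uu T b = 1 := by
      rw [Subgroup.coe_one, mul_one] at h
      rw [← h]
      calc y⁻¹ * x * y * (y⁻¹ * x * y) = y⁻¹ * (x * x) * y := by group
        _ = 1 := by rw [hx2]; group
    have h2 : S.uu T (b + b) = S.uu T 0 := by
      have e1 := (S.bn T hT.tr).u_add b b
      have e2 := (S.bn T hT.tr).u_zero
      change S.uu T (b + b) = S.uu T b * S.uu T b at e1
      change S.uu T 0 = 1 at e2
      rw [e1, e2, h1]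
    have h3 : b + b = 0 := (S.bn T hT.tr).u_inj h2
    have h4 : b = 0 := by
      have : (2 : F) * b = 0 := by rw [two_mul]; exact h3
      rcases mul_eq_zero.mp this with h5 | h5
      · exact absurd h5 S.two
      · exact h5
    have e2 : S.uu T 0 = 1 := (S.bn T hT.tr).u_zero
    rw [h4, e2, Subgroup.coe_one, mul_one] at h
    have : x = y * (y⁻¹ * x * y) * y⁻¹ := by group
    rw [this, h]
    group
  have h1 := (S.bn T hT.tr).cusp_zero hchi hres c (S.reg_fix T hfix hT c hc) b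
  have h2 := hchi x y⁻¹
  rw [inv_inv, h] at h2
  rw [← h2]
  exact h1

lemma ww_ww : S.ww T * S.ww T = 1 := by
  apply S.ext_XX T
  · change (S.ww T).1 ((S.ww T).1 ∞) = ∞
    rw [S.ww_infty, S.ww_zero]
  · intro x
    change (S.ww T).1 ((S.ww T).1 x) = x
    by_cases hx : x = 0
    · subst hx
      rw [S.ww_zero, S.ww_infty]
    · rw [S.ww_coe T hx, S.ww_coe T (by simpa using hx)]
      congr 1
      field_simp

lemma wc_sq (hT : Tr T) (a : F) (ha : a ≠ 0) (j : Bool) (h : T.T (nsq a) j) :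
    (S.ww T * S.mc T a ha j h) * (S.ww T * S.mc T a ha j h) =
      (S.mc T a⁻¹ (inv_ne_zero ha) j (T_inv T ha h) : S.XX T) * (S.mc T a ha j h : S.XX T) := by
  have h1 := congrArg Subtype.val (S.w_mc_w T hT a ha j h)
  rw [← h1]
  group

lemma wc_lin_zero (hfix : ∀ x, S.s x = x → IsSquare x) {chi : S.XX tyG → ℂ}
    (hchi : IsClass chi) (hres : ∀ c, (S.bn tyG regG.tr).res chi c = 0) (c : S.CC tyG)
    (hc : c ∈ S.linC tyG) : chi (S.ww tyG * c) = 0 := by
  obtain ⟨a, ha, j, h, rfl⟩ := S.exists_mc tyG c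
  have hj := (S.mem_linC_mc tyG hfix a ha j h).mp hc
  subst hj
  have hsq : IsSquare a := (nsq_iff a).mpr h
  have h1 : IsSquare (-a⁻¹) := by
    have : -a⁻¹ = -1 * a⁻¹ := by ring
    rw [this]
    exact (S.sq_neg hfix).mul hsq.inv
  obtain ⟨p, hp⟩ := h1
  have hp0 : p ≠ 0 := by
    rintro rfl
    rw [mul_zero] at hp
    exact inv_ne_zero ha (neg_eq_zero.mp hp)
  refine S.invol_zero tyG hfix regG hchi hres _ ?_ ?_ (p : OnePoint F) ?_
  · rw [S.wc_sq tyG regG.tr]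
    have h2 : S.mc tyG a⁻¹ (inv_ne_zero ha) false (T_inv tyG ha h) * S.mc tyG a ha false h = 1 := by
      apply S.ext_CC tyG
      intro x
      change ((S.mc tyG a⁻¹ (inv_ne_zero ha) false (T_inv tyG ha h) : S.XX tyG) :
        Equiv.Perm (OnePoint F)) (((S.mc tyG a ha false h : S.XX tyG) : Equiv.Perm (OnePoint F))
          (x : OnePoint F)) = (x : OnePoint F)
      rw [S.mc_coe, S.mc_coe]
      congr 1
      change a⁻¹ * (a * x) = x
      field_simp
    exact congrArg Subtype.val h2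
  · intro h3
    apply (S.bn tyG regG.tr).w_notB
    have h4 : S.ww tyG = S.uu tyG 0 * ((S.mc tyG a ha false h)⁻¹ : S.CC tyG) := by
      have e2 : S.uu tyG 0 = 1 := (S.bn tyG regG.tr).u_zero
      rw [e2, one_mul, Subgroup.coe_inv]
      exact eq_inv_of_mul_eq_one_left h3
    change (S.bn tyG regG.tr).InB (S.ww tyG)
    rw [h4]
    exact (S.bn tyG regG.tr).inB_mk 0 ((S.mc tyG a ha false h)⁻¹ : S.CC tyG)
  · change (S.ww tyG).1 ((S.mc tyG a ha false h : S.XX tyG).1 (p : OnePoint F)) = _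
    have h5 : (S.mc tyG a ha false h : S.XX tyG).1 (p : OnePoint F) = ((a * p : F) : OnePoint F) :=
      S.mc_coe tyG a ha false h p
    rw [h5, S.ww_coe tyG (mul_ne_zero ha hp0)]
    congr 1
    rw [mul_inv, ← neg_mul, hp]
    field_simp

lemma wc_nonlin (hfix : ∀ x, S.s x = x → IsSquare x) (c : S.CC tyG)
    (hc : c ∉ S.linC tyG) (P : OnePoint F) :
    ((S.ww tyG * c) * (S.ww tyG * c) : S.XX tyG).1 P = P ↔ P = ∞ ∨ P = ((0 : F) : OnePoint F) := by
  obtain ⟨a, ha, j, h, rfl⟩ := S.exists_mc tyG c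
  have hj : j = true := by
    cases j with
    | true => rfl
    | false => exact absurd ((S.mem_linC_mc tyG hfix a ha false h).mpr rfl) hc
  subst hj
  have hsq : ¬ IsSquare a := by
    intro h1
    rw [(nsq_iff a).mp h1] at h
    exact absurd h (by simp [tyG])
  rw [S.wc_sq tyG regG.tr]
  cases P with
  | infty =>
    simp only [true_or, iff_true]
    change (S.mc tyG a⁻¹ (inv_ne_zero ha) true (T_inv tyG ha h) : S.XX tyG).1
      ((S.mc tyG a ha true h : S.XX tyG).1 ∞) = ∞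
    rw [(S.mc tyG a ha true h).2.1, (S.mc tyG a⁻¹ (inv_ne_zero ha) true (T_inv tyG ha h)).2.1]
  | coe p =>
    change (S.mc tyG a⁻¹ (inv_ne_zero ha) true (T_inv tyG ha h) : S.XX tyG).1
      ((S.mc tyG a ha true h : S.XX tyG).1 (p : OnePoint F)) = (p : OnePoint F) ↔ _
    have e1 : (S.mc tyG a ha true h : S.XX tyG).1 (p : OnePoint F) =
      ((a * S.s p : F) : OnePoint F) := S.mc_coe tyG a ha true h p
    have e2 : (S.mc tyG a⁻¹ (inv_ne_zero ha) true (T_inv tyG ha h) : S.XX tyG).1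
      ((a * S.s p : F) : OnePoint F) = ((a⁻¹ * S.s (a * S.s p) : F) : OnePoint F) :=
      S.mc_coe tyG _ _ true _ _
    rw [e1, e2, OnePoint.coe_eq_coe, map_mul, S.ss]
    constructor
    · intro h2
      right
      rw [OnePoint.coe_eq_coe]
      by_contra hp
      apply hsq
      apply hfix
      have h3 : a⁻¹ * S.s a * p = 1 * p := by rw [one_mul, mul_assoc]; exact h2
      have h4 := mul_right_cancel₀ hp h3
      have h5 : a * (a⁻¹ * S.s a) = a * 1 := by rw [h4]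
      rwa [← mul_assoc, mul_inv_cancel₀ ha, one_mul, mul_one] at h5
    · rintro (h2 | h2)
      · exact absurd h2 (OnePoint.coe_ne_infty _)
      · rw [OnePoint.coe_eq_coe] at h2
        rw [h2, mul_zero, mul_zero]

/-- fibres of the conjugation map -/
lemma fibre_DD (hfix : ∀ x, S.s x = x → IsSquare x) {c c' : S.CC tyG}
    (hc : c ∉ S.linC tyG) (hc' : c' ∉ S.linC tyG) {y y' : S.XX tyG}
    (h : y * (S.ww tyG * c) * y⁻¹ = y' * (S.ww tyG * c') * y'⁻¹) : y⁻¹ * y' ∈ S.DD tyG := by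
  have h1 : (S.ww tyG * c) * (S.ww tyG * c) * (y⁻¹ * y') =
      (y⁻¹ * y') * ((S.ww tyG * c') * (S.ww tyG * c')) := by
    calc (S.ww tyG * c) * (S.ww tyG * c) * (y⁻¹ * y')
        = y⁻¹ * (y * (S.ww tyG * c) * y⁻¹) * (y * (S.ww tyG * c) * y⁻¹) * y' := by group
      _ = y⁻¹ * (y' * (S.ww tyG * c') * y'⁻¹) * (y' * (S.ww tyG * c') * y'⁻¹) * y' := by rw [h]
      _ = _ := by group
  set z := y⁻¹ * y' with hz
  have key : ∀ P : OnePoint F, (P = ∞ ∨ P = ((0 : F) : OnePoint F)) →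
      (z.1 P = ∞ ∨ z.1 P = ((0 : F) : OnePoint F)) := by
    intro P hP
    rw [← S.wc_nonlin hfix c hc]
    have h2 := (S.wc_nonlin hfix c' hc' P).mpr hP
    have h3 := congrArg (fun x : S.XX tyG => x.1 P) h1
    change ((S.ww tyG * c) * (S.ww tyG * c) : S.XX tyG).1 (z.1 P) =
      z.1 (((S.ww tyG * c') * (S.ww tyG * c') : S.XX tyG).1 P) at h3
    rw [h3, h2]
  have hinj := z.1.injective
  rcases key ∞ (Or.inl rfl) with h2 | h2
  · rcases key _ (Or.inr rfl) with h3 | h3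
    · exact absurd (hinj (h2.trans h3.symm)).symm (OnePoint.coe_ne_infty _)
    · exact Or.inl ⟨h2, h3⟩
  · rcases key _ (Or.inr rfl) with h3 | h3
    · exact Or.inr ⟨h2, h3⟩
    · exact absurd (hinj (h2.trans h3.symm)).symm (OnePoint.coe_ne_infty _)

/-- nonlinear elements of `C` -/
abbrev NL : Type := {c : S.CC tyG // c ∉ S.linC tyG}

instance : Fintype (S.NL) := Fintype.ofFinite _

lemma card_NL : 2 * Nat.card S.NL ≤ Nat.card (S.CC tyG) := by
  have h1 := S.card_linC tyG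
  have h2 : Nat.card (S.linC tyG) + Nat.card S.NL = Nat.card (S.CC tyG) := by
    have : Nat.card (S.linC tyG) = Nat.card {c : S.CC tyG // c ∈ S.linC tyG} := rfl
    rw [this, ← Nat.card_sum, Nat.card_congr (Equiv.sumCompl (fun c : S.CC tyG => c ∈ S.linC tyG))]
  omega

lemma card_fibre (hfix : ∀ x, S.s x = x → IsSquare x) (g : S.XX tyG) :
    Nat.card {p : S.XX tyG × S.NL // p.1 * (S.ww tyG * (p.2.1 : S.XX tyG)) * p.1⁻¹ = g} ≤
      Nat.card (S.DD tyG) := by
  by_cases hne : Nonempty {p : S.XX tyG × S.NL // p.1 * (S.ww tyG * (p.2.1 : S.XX tyG)) * p.1⁻¹ = g}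
  · obtain ⟨⟨p0, h0⟩⟩ := hne
    refine Nat.card_le_card_of_injective
      (fun p => (⟨p0.1⁻¹ * p.1.1, S.fibre_DD hfix p0.2.2 p.1.2.2 (h0.trans p.2.symm)⟩ : S.DD tyG)) ?_
    rintro ⟨⟨y, c⟩, h⟩ ⟨⟨y', c'⟩, h'⟩ he
    have h1 : p0.1⁻¹ * y = p0.1⁻¹ * y' := congrArg (fun z : S.DD tyG => (z : S.XX tyG)) he
    have h2 : y = y' := mul_left_cancel h1
    subst h2
    simp only at h h'
    have h3 : S.ww tyG * (c.1 : S.XX tyG) = S.ww tyG * (c'.1 : S.XX tyG) := by
      have h4 : y * (S.ww tyG * (c.1 : S.XX tyG)) * y⁻¹ =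
        y * (S.ww tyG * (c'.1 : S.XX tyG)) * y⁻¹ := h.trans h'.symm
      exact mul_left_cancel (mul_right_cancel h4)
    have h5 : c = c' := Subtype.ext (Subtype.ext (mul_left_cancel h3))
    subst h5
    rfl
  · rw [not_nonempty_iff] at hne
    rw [Nat.card_of_isEmpty]
    exact Nat.zero_le _

lemma sum_nonlin (hfix : ∀ x, S.s x = x → IsSquare x) {chi : S.XX tyG → ℂ} (hchi : IsIrrChar chi) :
    ∑ c : S.NL, ‖chi (S.ww tyG * (c.1 : S.XX tyG))‖ ^ 2 < (Nat.card (S.DD tyG) : ℝ) := by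
  have hcl := hchi.isClass
  have h1 := sum_norm_sq hchi
  have hX : (0 : ℝ) < Nat.card (S.XX tyG) := by exact_mod_cast Nat.card_pos
  have h2 : (Nat.card (S.XX tyG) : ℝ) * ∑ c : S.NL, ‖chi (S.ww tyG * (c.1 : S.XX tyG))‖ ^ 2 =
      ∑ p : S.XX tyG × S.NL, ‖chi (p.1 * (S.ww tyG * (p.2.1 : S.XX tyG)) * p.1⁻¹)‖ ^ 2 := by
    rw [Fintype.sum_prod_type]
    rw [Finset.sum_congr rfl (g := fun _ => ∑ c : S.NL, ‖chi (S.ww tyG * (c.1 : S.XX tyG))‖ ^ 2)
      (fun y _ => Finset.sum_congr rfl fun c _ => by rw [hcl])]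
    rw [Finset.sum_const, Finset.card_univ, nsmul_eq_mul, Nat.card_eq_fintype_card]
  have h3 : ∑ p : S.XX tyG × S.NL, ‖chi (p.1 * (S.ww tyG * (p.2.1 : S.XX tyG)) * p.1⁻¹)‖ ^ 2 =
      ∑ g : S.XX tyG, (Nat.card {p : S.XX tyG × S.NL //
        p.1 * (S.ww tyG * (p.2.1 : S.XX tyG)) * p.1⁻¹ = g} : ℝ) * ‖chi g‖ ^ 2 := by
    rw [← Fintype.sum_fiberwise (g := fun p : S.XX tyG × S.NL =>
      p.1 * (S.ww tyG * (p.2.1 : S.XX tyG)) * p.1⁻¹)]
    refine Finset.sum_congr rfl fun g _ => ?_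
    rw [Nat.card_eq_fintype_card, ← nsmul_eq_mul, ← Finset.card_univ, ← Finset.sum_const]
    refine Finset.sum_congr rfl fun p _ => ?_
    rw [p.2]
  have h4 : Nat.card {p : S.XX tyG × S.NL //
      p.1 * (S.ww tyG * (p.2.1 : S.XX tyG)) * p.1⁻¹ = 1} = 0 := by
    rw [Nat.card_eq_zero]
    left
    refine ⟨?_⟩
    rintro ⟨⟨y, c⟩, h⟩
    simp only at h
    have h5 : S.ww tyG * (c.1 : S.XX tyG) = 1 := by
      have : S.ww tyG * (c.1 : S.XX tyG) = y⁻¹ * (y * (S.ww tyG * (c.1 : S.XX tyG)) * y⁻¹) * y := by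
        group
      rw [this, h]
      group
    have h6 := (S.wc_nonlin hfix c.1 c.2 ((1 : F) : OnePoint F)).mp (by rw [h5, mul_one]; rfl)
    rcases h6 with h6 | h6
    · exact OnePoint.coe_ne_infty _ h6
    · rw [OnePoint.coe_eq_coe] at h6
      exact one_ne_zero h6
  have h5 : ∑ g : S.XX tyG, (Nat.card {p : S.XX tyG × S.NL //
        p.1 * (S.ww tyG * (p.2.1 : S.XX tyG)) * p.1⁻¹ = g} : ℝ) * ‖chi g‖ ^ 2 <
      ∑ g : S.XX tyG, (Nat.card (S.DD tyG) : ℝ) * ‖chi g‖ ^ 2 := by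
    refine Finset.sum_lt_sum (fun g _ => ?_) ⟨1, Finset.mem_univ _, ?_⟩
    · exact mul_le_mul_of_nonneg_right (by exact_mod_cast S.card_fibre hfix g) (by positivity)
    · rw [h4, Nat.cast_zero, zero_mul]
      have h6 : chi 1 ≠ 0 := Pool.Agent.Y63.AWC.one_ne hchi
      have h7 : (0 : ℝ) < Nat.card (S.DD tyG) := by exact_mod_cast Nat.card_pos
      have h8 : (0 : ℝ) < ‖chi 1‖ := norm_pos_iff.mpr h6
      positivity
  rw [← h3, ← h2, ← Finset.mul_sum, h1, mul_comm] at h5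
  exact lt_of_mul_lt_mul_right h5 hX.le

/-- **the multiplicity of a cuspidal character is even** -/
theorem even_m (hfix : ∀ x, S.s x = x → IsSquare x) {chi : S.XX tyG → ℂ} (hchi : IsIrrChar chi)
    (hres : ∀ c, (S.bn tyG regG.tr).res chi c = 0) {m : ℕ}
    (hm : chi 1 = (Nat.card (S.CC tyG) : ℂ) * m) : Even m := by
  have hcl := hchi.isClass
  have hC : (0 : ℝ) < Nat.card (S.CC tyG) := by exact_mod_cast Nat.card_pos
  have hCC : (Nat.card (S.CC tyG) : ℂ) ≠ 0 := by exact_mod_cast Nat.card_pos.ne'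
  set S1 : ℂ := ∑ c : S.CC tyG, chi (S.ww tyG * c) with hS1
  -- the trivial multiplicity on the pair stabiliser
  have hone : IsIrrChar (fun _ : S.DD tyG => (1 : ℂ)) := one_irr
  obtain ⟨n, hn⟩ := IsChar.B_nat ((IsChar.of_irr hchi).comp (S.DD tyG).subtype)
    (IsChar.of_irr hone)
  have h1 : S1 = (Nat.card (S.CC tyG) : ℂ) * (2 * n - m) := by
    unfold B at hn
    have h2 : ∑ g : S.DD tyG, chi ((S.DD tyG).subtype g) * 1 = chi 1 + S1 := by
      simp only [mul_one]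
      have h3 := S.sum_DD tyG chi
      have h4 : ∑ c : S.CC tyG, chi c = chi 1 := by
        rw [Finset.sum_eq_single (1 : S.CC tyG)]
        · rfl
        · intro c _ hc
          have h5 := (S.bn tyG regG.tr).cusp_zero hcl hres c (S.reg_fix tyG hfix regG c hc) 0
          rw [(S.bn tyG regG.tr).u_zero, one_mul] at h5
          exact h5
        · intro h
          exact absurd (Finset.mem_univ _) h
      rw [h4] at h3
      exact h3
    rw [h2, S.card_DD, hm] at hn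
    push_cast at hn
    field_simp at hn
    linear_combination hn
  -- the sum over nonlinear elements
  have h2 : S1 = ∑ c : S.NL, chi (S.ww tyG * (c.1 : S.XX tyG)) := by
    rw [hS1, ← Finset.sum_filter_add_sum_filter_not Finset.univ (fun c : S.CC tyG => c ∈ S.linC tyG)]
    rw [Finset.sum_eq_zero (s := Finset.univ.filter (fun c : S.CC tyG => c ∈ S.linC tyG))
      (fun c hc => S.wc_lin_zero hfix hcl hres c (Finset.mem_filter.mp hc).2), zero_add]
    exact Finset.sum_subtype _ (fun c => by simp) _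
  have h3 : ‖S1‖ ^ 2 < (Nat.card (S.CC tyG) : ℝ) ^ 2 := by
    have h4 : ‖S1‖ ≤ ∑ c : S.NL, ‖chi (S.ww tyG * (c.1 : S.XX tyG))‖ := by
      rw [h2]
      exact norm_sum_le _ _
    have h5 : (∑ c : S.NL, ‖chi (S.ww tyG * (c.1 : S.XX tyG))‖) ^ 2 ≤
        (Nat.card S.NL : ℝ) * ∑ c : S.NL, ‖chi (S.ww tyG * (c.1 : S.XX tyG))‖ ^ 2 := by
      have := sq_sum_le_card_mul_sum_sq (s := (Finset.univ : Finset S.NL))
        (f := fun c => ‖chi (S.ww tyG * (c.1 : S.XX tyG))‖)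
      rw [Finset.card_univ, ← Nat.card_eq_fintype_card] at this
      exact this
    have h6 := S.sum_nonlin hfix hchi
    rw [S.card_DD] at h6
    push_cast at h6
    have h7 : 2 * (Nat.card S.NL : ℝ) ≤ Nat.card (S.CC tyG) := by exact_mod_cast S.card_NL
    have h8 : ‖S1‖ ^ 2 ≤ (∑ c : S.NL, ‖chi (S.ww tyG * (c.1 : S.XX tyG))‖) ^ 2 :=
      pow_le_pow_left₀ (norm_nonneg _) h4 2
    have h9 : (0 : ℝ) ≤ ∑ c : S.NL, ‖chi (S.ww tyG * (c.1 : S.XX tyG))‖ ^ 2 :=
      Finset.sum_nonneg fun _ _ => by positivity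
    calc ‖S1‖ ^ 2 ≤ _ := h8
      _ ≤ _ := h5
      _ ≤ (Nat.card (S.CC tyG) : ℝ) / 2 * ∑ c : S.NL, ‖chi (S.ww tyG * (c.1 : S.XX tyG))‖ ^ 2 :=
        mul_le_mul_of_nonneg_right (by linarith) h9
      _ < (Nat.card (S.CC tyG) : ℝ) / 2 * (2 * (Nat.card (S.CC tyG) : ℝ)) :=
        mul_lt_mul_of_pos_left h6 (by linarith)
      _ = _ := by ring
  have h4 : (2 * (n : ℤ) - m) = 0 := by
    have h5 : ‖S1‖ = (Nat.card (S.CC tyG) : ℝ) * |(2 * (n : ℝ) - m)| := by
      rw [h1, norm_mul]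
      congr 1
      · simp
      · have : (2 * (n : ℂ) - m) = ((2 * (n : ℝ) - m : ℝ) : ℂ) := by push_cast; ring
        rw [this, Complex.norm_real, Real.norm_eq_abs]
    rw [h5, mul_pow] at h3
    have h6 : |(2 * (n : ℝ) - m)| ^ 2 < 1 := by
      have h7 : (Nat.card (S.CC tyG) : ℝ) ^ 2 * |(2 * (n : ℝ) - m)| ^ 2 <
        (Nat.card (S.CC tyG) : ℝ) ^ 2 * 1 := by rw [mul_one]; exact h3
      exact lt_of_mul_lt_mul_left h7 (by positivity)
    have h7 : |(2 * (n : ℝ) - m)| < 1 := by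
      by_contra hn
      push Not at hn
      have : (1 : ℝ) ≤ |(2 * (n : ℝ) - m)| ^ 2 := one_le_pow₀ hn
      linarith
    have h8 : |(2 * (n : ℤ) - m)| < 1 := by
      have : ((|(2 * (n : ℤ) - m)| : ℤ) : ℝ) < 1 := by
        push_cast
        exact h7
      exact_mod_cast this
    exact Int.abs_lt_one_iff.mp h8
  exact ⟨n, by omega⟩

end Inv

end Pool.Agent.X256.HC
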