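import Pool.Agent.X256.HC.Hcase

/-!
# Existence of characters of the various degrees
-/

open scoped BigOperators Classical
open Matrix OnePoint Pool.Agent.Helper884.IC Pool.Agent.X256.CT

noncomputable section

namespace Pool.Agent.X256.HC.BN

variable {F X : Type} [Field F] [Fintype F] [Group X] [Fintype X] (A : BN F X)

include A in
/-- a character of degree `q` -/
lemma exists_q : ∃ chi : X → ℂ, IsIrrChar chi ∧ chi 1 = Fintype.card F := by
  have hmu : IsIrrChar (fun _ : A.C => (1 : ℂ)) := one_irr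
  obtain ⟨a, ha⟩ := A.ind_nat hmu
  have hnorm := A.ind_norm hmu
  have htw : (fun _ : A.C => (1 : ℂ)) = A.tw (fun _ : A.C => (1 : ℂ)) := rfl
  rw [if_pos htw] at hnorm
  have hsum := norm_expand (A.ind_class _) (fun chi hchi => (ha chi hchi).1)
  have hs2 : ∑ chi ∈ Irr X, a chi ^ 2 = 2 := by
    rw [hnorm] at hsum
    have e1 : ((∑ chi ∈ Irr X, a chi ^ 2 : ℕ) : ℂ) = ((2 : ℕ) : ℂ) := by
      rw [← hsum]
      norm_num
    exact_mod_cast e1
  have hone : IsIrrChar (fun _ : X => (1 : ℂ)) := one_irr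
  have hres : A.res (fun _ : X => (1 : ℂ)) = fun _ => 1 := by
    funext c
    unfold res
    rw [Finset.sum_const, Finset.card_univ, nsmul_eq_mul, mul_one]
    exact inv_mul_cancel₀ cF
  have ha1 : a (fun _ : X => (1 : ℂ)) = 1 := by
    have h1 := (ha _ (mem_Irr.mpr hone)).2
    rw [hres, B_irr hmu hmu, if_pos rfl] at h1
    exact_mod_cast h1.symm
  obtain ⟨-, chi', hchi'', hne', ha', hz⟩ := sum_sq_two hs2 (mem_Irr.mpr hone) (by rw [ha1]; exact one_ne_zero)
  refine ⟨chi', mem_Irr.mp hchi'', ?_⟩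
  have e1 := congrFun (expand _ (A.ind_class (fun _ : A.C => (1 : ℂ)))) 1
  rw [A.ind_one, Finset.sum_apply, ← Finset.add_sum_erase _ _ (mem_Irr.mpr hone),
    ← Finset.add_sum_erase _ _ (Finset.mem_erase.mpr ⟨hne', hchi''⟩), Finset.sum_eq_zero] at e1
  · simp only [Pi.smul_apply, smul_eq_mul] at e1
    rw [(ha _ (mem_Irr.mpr hone)).1, (ha chi' hchi'').1, ha1, ha'] at e1
    push_cast at e1
    linear_combination -e1
  · intro z hz'
    have hz1 := Finset.mem_of_mem_erase (Finset.mem_of_mem_erase hz')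
    have hz2 := Finset.ne_of_mem_erase hz'
    have hz3 := Finset.ne_of_mem_erase (Finset.mem_of_mem_erase hz')
    simp only [Pi.smul_apply, smul_eq_mul]
    rw [(ha z hz1).1, hz z hz1 hz3 hz2]
    simp

/-- cuspidal characters exist -/
lemma exists_cusp (hAb : A.Ab) (hq : 1 < Fintype.card F)
    (hdeg : ∀ mu : A.C → ℂ, IsIrrChar mu → mu 1 = 1 ∨ mu 1 = 2) :
    ∃ chi : X → ℂ, IsIrrChar chi ∧ ∀ c, A.res chi c = 0 := by
  by_contra hno
  push Not at hno
  have h1 := A.col_one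
  have h2 : ∀ chi ∈ Irr X, ∃ n : ℕ, chi 1 * chi (A.u 1) = n := by
    intro chi hchi
    have hi := mem_Irr.mp hchi
    rcases A.noncusp hAb hq hdeg hi (hno chi hi) with ⟨h3, h4⟩ | ⟨h3, h4⟩ | ⟨h3, h4⟩ | ⟨h3, h4, -⟩
    · exact ⟨1, by rw [h3, h4]; simp⟩
    · exact ⟨0, by rw [h3, h4]; simp⟩
    · exact ⟨Fintype.card F + 1, by rw [h3, h4]; push_cast; ring⟩
    · exact ⟨4 * (Fintype.card F + 1), by rw [h3, h4]; push_cast; ring⟩
  choose! n hn using h2
  have h3 : ((∑ chi ∈ Irr X, n chi : ℕ) : ℂ) = 0 := by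
    rw [← h1]
    push_cast
    exact Finset.sum_congr rfl fun chi hchi => (hn chi hchi).symm
  have h4 : ∑ chi ∈ Irr X, n chi = 0 := by exact_mod_cast h3
  have hone : IsIrrChar (fun _ : X => (1 : ℂ)) := one_irr
  have h5 := (Finset.sum_eq_zero_iff.mp h4) _ (mem_Irr.mpr hone)
  have h6 := hn _ (mem_Irr.mpr hone)
  rw [h5] at h6
  simp at h6

end Pool.Agent.X256.HC.BN

namespace Pool.Agent.X256.HC

variable {F : Type} [Field F] [Fintype F]

namespace Inv

variable (S : Inv F) (T : Ty)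

/-- the scaling factor of an element of `C` as a unit -/
def sc (c : S.CC T) : Fˣ := Units.mk0 (toF (((c : S.XX T) : Equiv.Perm (OnePoint F))
    ((1 : F) : OnePoint F))) (by
  obtain ⟨a, ha, j, h, rfl⟩ := S.exists_mc T c
  rw [S.mc_coe, toF_coe, map_one, mul_one]
  exact ha)

lemma sc_mc (a : F) (ha : a ≠ 0) (j : Bool) (h : T.T (nsq a) j) :
    S.sc T (S.mc T a ha j h) = Units.mk0 a ha := by
  apply Units.ext
  change toF _ = a
  rw [S.mc_coe, toF_coe, map_one, mul_one]

/-- a homomorphism to the units invariant under the automorphism gives a character of `C` -/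
def homC (be : Fˣ →* ℂˣ) (hbe : ∀ (x : F) (hx : x ≠ 0), be (Units.mk0 (S.s x) (S.s_ne hx)) =
    be (Units.mk0 x hx)) : S.CC T →* ℂˣ := MonoidHom.mk' (fun c => be (S.sc T c)) (by
  intro c d
  obtain ⟨a, ha, j, h, rfl⟩ := S.exists_mc T c
  obtain ⟨a', ha', j', h', rfl⟩ := S.exists_mc T d
  rw [S.sc_mc, S.sc_mc]
  have h1 : S.sc T (S.mc T a ha j h * S.mc T a' ha' j' h') =
      Units.mk0 (a * S.sj j a') (mul_ne_zero ha (S.sj_ne j ha')) := by
    apply Units.ext
    change toF (((S.mc T a ha j h : S.XX T) : Equiv.Perm (OnePoint F))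
      (((S.mc T a' ha' j' h' : S.XX T) : Equiv.Perm (OnePoint F)) ((1 : F) : OnePoint F))) =
        a * S.sj j a'
    rw [S.mc_coe, S.mc_coe, toF_coe, map_one, mul_one]
  rw [h1]
  have h2 : Units.mk0 (a * S.sj j a') (mul_ne_zero ha (S.sj_ne j ha')) =
      Units.mk0 a ha * Units.mk0 (S.sj j a') (S.sj_ne j ha') := by
    apply Units.ext
    rfl
  rw [h2, map_mul]
  congr 1
  cases j with
  | false => rfl
  | true => exact hbe a' ha')

lemma homC_mc (be : Fˣ →* ℂˣ) (hbe) (a : F) (ha : a ≠ 0) (j : Bool) (h : T.T (nsq a) j) :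
    S.homC T be hbe (S.mc T a ha j h) = be (Units.mk0 a ha) := by
  change be (S.sc T _) = _
  rw [S.sc_mc]

/-- a character of degree `q+1` -/
lemma exists_q1 (hT : Tr T) (be : Fˣ →* ℂˣ) (hbe : ∀ (x : F) (hx : x ≠ 0),
    be (Units.mk0 (S.s x) (S.s_ne hx)) = be (Units.mk0 x hx)) (g : Fˣ) (hg : be g * be g ≠ 1) :
    ∃ chi : S.XX T → ℂ, IsIrrChar chi ∧ chi 1 = (Fintype.card F : ℂ) + 1 := by
  set mu : S.CC T → ℂ := fun c => ((S.homC T be hbe c : ℂˣ) : ℂ) with hmu
  have hmuI : IsIrrChar mu := isIrrChar_hom _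
  have hne : mu ≠ (S.bn T hT).tw mu := by
    intro h
    obtain ⟨j, hj⟩ := hT (nsq (g : F))
    have h1 := congrFun h (S.mc T g g.ne_zero j hj)
    have h2 : (S.bn T hT).tw mu (S.mc T g g.ne_zero j hj) =
        mu (S.mc T (g : F)⁻¹ (inv_ne_zero g.ne_zero) j (T_inv T g.ne_zero hj)) := by
      unfold BN.tw
      congr 1
      exact S.w_mc_w T hT _ _ _ _
    rw [h2] at h1
    simp only [hmu] at h1
    rw [S.homC_mc, S.homC_mc] at h1
    have h3 : Units.mk0 (g : F) g.ne_zero = g := Units.ext rfl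
    have h4 : Units.mk0 (g : F)⁻¹ (inv_ne_zero g.ne_zero) = g⁻¹ := by
      apply Units.ext
      rw [Units.val_mk0, Units.val_inv_eq_inv_val]
    rw [h3, h4, map_inv] at h1
    apply hg
    have h5 : be g = (be g)⁻¹ := Units.ext h1
    nth_rewrite 2 [h5]
    exact mul_inv_cancel _
  refine ⟨_, (S.bn T hT).ind_irr hmuI hne, ?_⟩
  rw [(S.bn T hT).ind_one]
  have : mu 1 = 1 := by
    simp only [hmu, map_one, Units.val_one]
  have h2 : mu 1 = mu (1 : (S.bn T hT).C) := rfl
  rw [← h2, this, mul_one]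


/-- the scaling homomorphism on the linear elements -/
def scL : S.linC T →* Fˣ := MonoidHom.mk' (fun c => S.sc T c) (by
  intro c d
  apply Units.ext
  change toF (((c : S.CC T) : S.XX T).1 ((((d : S.CC T) : S.XX T).1) ((1 : F) : OnePoint F))) =
    toF ((((c : S.CC T) : S.XX T).1) ((1 : F) : OnePoint F)) *
      toF ((((d : S.CC T) : S.XX T).1) ((1 : F) : OnePoint F))
  have hc := (S.mem_linC T).mp c.2
  have hd := (S.mem_linC T).mp d.2
  rw [hd 1, hc (_ * 1), toF_coe, toF_coe, mul_one])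

lemma card_linC_eq (hfix : ∀ x, S.s x = x → IsSquare x) (hn : ∃ t, T.T t true)  :
    Nat.card (S.CC T) = 2 * Nat.card (S.linC T) := by
  have h1 := S.card_linC T
  obtain ⟨k, hk⟩ := Subgroup.card_subgroup_dvd_card (S.linC T)
  have h4 : 0 < Nat.card (S.linC T) := Nat.card_pos
  have h5 : k ≤ 2 := by
    rw [hk, mul_comm] at h1
    exact Nat.le_of_mul_le_mul_right h1 h4
  have h6 : k ≠ 0 := by
    rintro rfl
    rw [mul_zero] at hk
    exact Nat.card_pos.ne' hk
  have h7 : k ≠ 1 := by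
    rintro rfl
    rw [mul_one] at hk
    have h8 : S.linC T = ⊤ := Subgroup.eq_top_of_card_eq _ hk.symm
    obtain ⟨t, ht⟩ := hn
    have h9 : ∃ (a : F) (_ : a ≠ 0), nsq a = t := by
      cases t with
      | false => exact ⟨1, one_ne_zero, (nsq_iff 1).mp ⟨1, by ring⟩⟩
      | true =>
        obtain ⟨nu, hnu, hns⟩ := S.exists_nonsq
        refine ⟨nu, hnu, ?_⟩
        cases h : nsq nu with
        | true => rfl
        | false => exact absurd ((nsq_iff nu).mpr h) hns
    obtain ⟨a, ha, rfl⟩ := h9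
    have h10 : S.mc T a ha true ht ∈ S.linC T := by rw [h8]; trivial
    have := (S.mem_linC_mc T hfix a ha true ht).mp h10
    exact absurd this (by simp)
  have h8 : k = 2 := by omega
  rw [hk, h8, mul_comm]

/-- a character of degree `2(q+1)` -/
lemma exists_q2 (hfix : ∀ x, S.s x = x → IsSquare x) (hT : Tr T) (hn : ∃ t, T.T t true)
    (be : Fˣ →* ℂˣ) (hbe : ∀ (x : F) (hx : x ≠ 0),
      be (Units.mk0 (S.s x) (S.s_ne hx)) = be (Units.mk0 x hx) ^ 5) (g : Fˣ)
    (hgs : IsSquare (g : F)) (hg4 : be g ^ 4 ≠ 1)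
    (hgne : (be g : ℂ) + (be g : ℂ) ^ 5 ≠ ((be g)⁻¹ : ℂˣ) + (((be g)⁻¹ : ℂˣ) : ℂ) ^ 5) :
    ∃ chi : S.XX T → ℂ, IsIrrChar chi ∧ chi 1 = 2 * ((Fintype.card F : ℂ) + 1) := by
  set L := S.linC T with hL
  set lam : L →* ℂˣ := be.comp (S.scL T) with hlam
  have hcardL : (Nat.card L : ℂ) ≠ 0 := by exact_mod_cast Nat.card_pos.ne'
  have hlmc : ∀ (b : F) (hb : b ≠ 0) (h : T.T (nsq b) false) (hm : S.mc T b hb false h ∈ L),
      lam ⟨S.mc T b hb false h, hm⟩ = be (Units.mk0 b hb) := by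
    intro b hb h hm
    change be (S.sc T _) = _
    rw [S.sc_mc]
  have hval : ∀ (x : L) (y : S.CC T), lamExt L lam (y⁻¹ * (x : S.CC T) * y) =
      if y ∈ L then ((lam x : ℂˣ) : ℂ) else ((lam x : ℂˣ) : ℂ) ^ 5 := by
    rintro ⟨x, hx⟩ y
    obtain ⟨b, hb, j0, h0, rfl⟩ := S.exists_mc T x
    have hj0 := (S.mem_linC_mc T hfix b hb j0 h0).mp hx
    subst hj0
    obtain ⟨a, ha, j, h, rfl⟩ := S.exists_mc T y
    have hT' : T.T (nsq (S.sj j b)) false := by rw [S.nsq_sj]; exact h0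
    have hc : (S.mc T a ha j h)⁻¹ * S.mc T b hb false h0 * S.mc T a ha j h =
        S.mc T (S.sj j b) (S.sj_ne j hb) false hT' := by
      rw [mul_assoc, inv_mul_eq_iff_eq_mul]
      apply S.ext_CC T
      intro z
      change ((S.mc T b hb false h0 : S.XX T) : Equiv.Perm (OnePoint F))
        (((S.mc T a ha j h : S.XX T) : Equiv.Perm (OnePoint F)) (z : OnePoint F)) =
        ((S.mc T a ha j h : S.XX T) : Equiv.Perm (OnePoint F))
        (((S.mc T (S.sj j b) (S.sj_ne j hb) false hT' : S.XX T) :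
          Equiv.Perm (OnePoint F)) (z : OnePoint F))
      rw [S.mc_coe, S.mc_coe, S.mc_coe, S.mc_coe, map_mul (S.sj j), S.sj_sj]
      congr 1
      change b * (a * S.sj j z) = a * (b * S.sj j z)
      ring
    have hm : S.mc T (S.sj j b) (S.sj_ne j hb) false hT' ∈ L :=
      (S.mem_linC_mc T hfix _ _ _ _).mpr rfl
    have hmj := S.mem_linC_mc T hfix a ha j h
    change lamExt L lam ((S.mc T a ha j h)⁻¹ * S.mc T b hb false h0 * S.mc T a ha j h) = _
    rw [hc]
    unfold lamExt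
    rw [dif_pos hm, hlmc _ _ _ hm, hlmc _ _ _ hx]
    cases j with
    | false =>
      rw [if_pos (hmj.mpr rfl)]
      rfl
    | true =>
      rw [if_neg (fun h' => absurd (hmj.mp h') (by simp))]
      have := hbe b hb
      rw [← Units.val_pow_eq_pow_val, ← this]
      rfl
  have hcc : Nat.card (S.CC T) = 2 * Nat.card L := S.card_linC_eq T hfix hn
  have hind : ∀ x : L, indChar L lam x = ((lam x : ℂˣ) : ℂ) + ((lam x : ℂˣ) : ℂ) ^ 5 := by
    intro x
    unfold indChar
    rw [Finset.sum_congr rfl fun y _ => hval x y, Finset.sum_ite, Finset.sum_const, Finset.sum_const,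
      nsmul_eq_mul, nsmul_eq_mul]
    have e1 : (Finset.univ.filter (fun y : S.CC T => y ∈ L)).card = Nat.card L := by
      rw [Nat.card_eq_fintype_card, Fintype.card_subtype]
    have e2 : (Finset.univ.filter (fun y : S.CC T => y ∉ L)).card = Nat.card L := by
      have e3 := Finset.card_filter_add_card_filter_not (s := (Finset.univ : Finset (S.CC T)))
        (fun y : S.CC T => y ∈ L)
      rw [Finset.card_univ, ← Nat.card_eq_fintype_card, hcc] at e3
      omega
    rw [e1, e2]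
    field_simp
  -- the norm
  have hx0 : T.T (nsq (g : F)) false := by
    rw [(nsq_iff (g : F)).mp hgs]
    exact T.zero
  have hx0m : S.mc T (g : F) g.ne_zero false hx0 ∈ L := (S.mem_linC_mc T hfix _ _ _ _).mpr rfl
  set x0 : L := ⟨S.mc T (g : F) g.ne_zero false hx0, hx0m⟩ with hx0def
  have hlx0 : lam x0 = be g := by
    rw [hx0def, hlmc]
    congr 1
    exact Units.ext rfl
  have horth : ∑ c : L, (((lam c ^ 4)⁻¹ : ℂˣ) : ℂ) = 0 := by
    have h1 : IsIrrChar (fun c : L => ((((lam ^ 4)⁻¹ : L →* ℂˣ) c : ℂˣ) : ℂ)) := isIrrChar_hom _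
    have h2 : IsIrrChar (fun _ : L => (1 : ℂ)) := one_irr
    have h3 := B_irr h1 h2
    rw [if_neg] at h3
    · unfold B at h3
      have h4 : ∑ c : L, (((lam c ^ 4)⁻¹ : ℂˣ) : ℂ) * 1 = 0 := by
        rcases mul_eq_zero.mp h3 with h5 | h5
        · exact absurd h5 (inv_ne_zero hcardL)
        · exact h5
      simpa using h4
    · intro h
      have h4 := congrFun h x0
      simp only [MonoidHom.inv_apply, MonoidHom.pow_apply] at h4
      rw [hlx0] at h4
      apply hg4
      have h5 : (be g ^ 4)⁻¹ = 1 := Units.ext h4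
      exact inv_eq_one.mp h5
  have hcl := isClass_indChar L lam
  have hnorm : B (indChar L lam) (indChar L lam) = 1 := by
    rw [Pool.Agent.Helper884.IC.frob L lam _ hcl, sum_lamExt L lam (fun g => indChar L lam g⁻¹)]
    have h1 : ∀ c : L, ((lam c : ℂˣ) : ℂ) * indChar L lam (c : S.CC T)⁻¹ =
        1 + (((lam c ^ 4)⁻¹ : ℂˣ) : ℂ) := by
      intro c
      have h2 := hind c⁻¹
      rw [Subgroup.coe_inv] at h2
      rw [h2, map_inv, mul_add]
      have h3 : ((lam c : ℂˣ) : ℂ) ≠ 0 := Units.ne_zero _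
      push_cast
      field_simp
    rw [Finset.sum_congr rfl fun c _ => h1 c, Finset.sum_add_distrib, horth, add_zero,
      Finset.sum_const, Finset.card_univ, nsmul_eq_mul, mul_one, ← Nat.card_eq_fintype_card]
    exact inv_mul_cancel₀ hcardL
  choose! n hn' using fun chi (hchi : chi ∈ Irr (S.CC T)) => mult_nat L lam (mem_Irr.mp hchi)
  have hirr : IsIrrChar (indChar L lam) := exists_of_norm_one hcl hn' hnorm
  set I0 : S.CC T → ℂ := indChar L lam with hI0
  have hne : I0 ≠ (S.bn T hT).tw I0 := by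
    intro h
    have h1 := congrFun h (x0 : S.CC T)
    have h2 : (S.bn T hT).tw I0 (x0 : S.CC T) =
        I0 (S.mc T (g : F)⁻¹ (inv_ne_zero g.ne_zero) false (T_inv T g.ne_zero hx0)) := by
      unfold BN.tw
      congr 1
      exact S.w_mc_w T hT _ _ _ _
    have h3 : S.mc T (g : F)⁻¹ (inv_ne_zero g.ne_zero) false (T_inv T g.ne_zero hx0) ∈ L :=
      (S.mem_linC_mc T hfix _ _ _ _).mpr rfl
    have h4 := hind ⟨_, h3⟩
    rw [hlmc] at h4
    have h5 : Units.mk0 (g : F)⁻¹ (inv_ne_zero g.ne_zero) = g⁻¹ := by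
      apply Units.ext
      rw [Units.val_mk0, Units.val_inv_eq_inv_val]
    rw [h5, map_inv] at h4
    rw [h2, hind x0, hlx0] at h1
    exact hgne (h1.trans h4)
  refine ⟨_, (S.bn T hT).ind_irr hirr hne, ?_⟩
  rw [(S.bn T hT).ind_one]
  have h6 := hind 1
  rw [map_one] at h6
  have h7 : I0 (1 : (S.bn T hT).C) = I0 ((1 : L) : S.CC T) := rfl
  rw [h7, h6]
  norm_num
  ring

end Inv

end Pool.Agent.X256.HC
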