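import Pool.Agent.X256.HC.Exist

/-!
# The field with 25 elements
-/

open scoped BigOperators Classical
open Matrix OnePoint Pool.Agent.Helper884.IC Pool.Agent.X256.CT

noncomputable section

namespace Pool.Agent.X256.HC

variable (F : Type) [Field F] [Fintype F] [CharP F 5] (hF : Fintype.card F = 25)

instance : Fact (Nat.Prime 5) := ⟨by norm_num⟩

include hF in
/-- the Frobenius automorphism of the field with 25 elements -/
def fro : Inv F where
  s := frobenius F 5
  ss := by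
    intro x
    rw [frobenius_def, frobenius_def, ← pow_mul]
    have := FiniteField.pow_card x
    rw [hF] at this
    exact this
  two := by
    intro h
    have h1 : ((2 : ℕ) : F) = 0 := by exact_mod_cast h
    rw [CharP.cast_eq_zero_iff F 5] at h1
    omega

lemma fro_s (x : F) : (fro F hF).s x = x ^ 5 := rfl

lemma ringChar_ne : ringChar F ≠ 2 := by
  rw [ringChar.eq F 5]
  norm_num

include hF in
lemma fro_fix : ∀ x, (fro F hF).s x = x → IsSquare x := by
  intro x hx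
  rw [fro_s] at hx
  by_cases h0 : x = 0
  · rw [h0]; exact ⟨0, by ring⟩
  · rw [FiniteField.isSquare_iff (ringChar_ne F) h0, hF]
    have h1 : x ^ 4 = 1 := by
      have : x * x ^ 4 = x * 1 := by rw [mul_one, ← pow_succ']; exact hx
      exact mul_left_cancel₀ h0 this
    have h2 : x ^ (25 / 2) = (x ^ 4) ^ 3 := by rw [← pow_mul]
    rw [h2, h1, one_pow]

include hF in
lemma exists_gen : ∃ g : Fˣ, (∀ x, x ∈ Subgroup.zpowers g) ∧ orderOf g = 24 := by
  obtain ⟨g, hg⟩ := IsCyclic.exists_generator (α := Fˣ)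
  refine ⟨g, hg, ?_⟩
  rw [orderOf_eq_card_of_forall_mem_zpowers hg, Nat.card_eq_fintype_card, Fintype.card_units, hF]

/-- a primitive root of unity of order 24 -/
def xi : ℂˣ := Units.mk0 (Complex.exp (2 * Real.pi * Complex.I / 24)) (Complex.exp_ne_zero _)

lemma xi_prim : IsPrimitiveRoot xi 24 := by
  have h : IsPrimitiveRoot ((xi : ℂˣ) : ℂ) 24 := by
    have := Complex.isPrimitiveRoot_exp 24 (by norm_num)
    rw [Nat.cast_ofNat] at this
    exact this
  exact IsPrimitiveRoot.coe_units_iff.mp h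

/-- the primitive 24-th root has the required properties -/
lemma xi_rel : ((xi ^ 2 : ℂˣ) : ℂ) + ((xi ^ 2 : ℂˣ) : ℂ) ^ 5 ≠
    (((xi ^ 2)⁻¹ : ℂˣ) : ℂ) + ((((xi ^ 2)⁻¹ : ℂˣ)) : ℂ) ^ 5 := by
  set z : ℂ := ((xi ^ 2 : ℂˣ) : ℂ) with hz
  have hp : IsPrimitiveRoot (xi ^ 2) 12 := xi_prim.pow (by norm_num) (by norm_num)
  have hzp : IsPrimitiveRoot z 12 := IsPrimitiveRoot.coe_units_iff.mpr hp
  have hz0 : z ≠ 0 := hzp.ne_zero (by norm_num)
  have h12 : z ^ 12 = 1 := hzp.pow_eq_one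
  have h6 : z ^ 6 ≠ 1 := hzp.pow_ne_one_of_pos_of_lt (by norm_num) (by norm_num)
  have h4 : z ^ 4 ≠ 1 := hzp.pow_ne_one_of_pos_of_lt (by norm_num) (by norm_num)
  have h6' : z ^ 6 = -1 := by
    have : (z ^ 6 - 1) * (z ^ 6 + 1) = 0 := by linear_combination h12
    rcases mul_eq_zero.mp this with h | h
    · exact absurd (sub_eq_zero.mp h) h6
    · exact eq_neg_of_add_eq_zero_left h
  have h2 : z ^ 2 + 1 ≠ 0 := by
    intro h
    apply h4
    linear_combination (z ^ 2 - 1) * h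
  have hc : z ^ 4 - z ^ 2 + 1 = 0 := by
    have : (z ^ 2 + 1) * (z ^ 4 - z ^ 2 + 1) = 0 := by linear_combination h6'
    rcases mul_eq_zero.mp this with h | h
    · exact absurd h h2
    · exact h
  have hinv : (((xi ^ 2)⁻¹ : ℂˣ) : ℂ) = - z ^ 5 := by
    rw [Units.val_inv_eq_inv_val]
    apply inv_eq_of_mul_eq_one_right
    change z * (-z ^ 5) = 1
    linear_combination -h6'
  rw [hinv]
  intro h
  have h7 : z + z ^ 5 = z ^ 3 := by linear_combination z * hc
  have h8 : -z ^ 5 + (-z ^ 5) ^ 5 = - z ^ 3 := by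
    have e1 : (-z ^ 5) ^ 5 = - z ^ 25 := by ring
    have e2 : z ^ 25 = z := by
      calc z ^ 25 = (z ^ 12) ^ 2 * z := by ring
        _ = z := by rw [h12]; ring
    rw [e1, e2]
    linear_combination -h7
  rw [h7, h8] at h
  have h9 : z ^ 3 = 0 := by linear_combination h / 2
  exact hz0 (pow_eq_zero_iff (by norm_num) |>.mp h9)

include hF in
/-- the required linear characters of the multiplicative group -/
lemma exists_hom : ∃ (g : Fˣ) (al : Fˣ →* ℂˣ), al g = xi ∧ (∀ x, al x ^ 24 = 1) ∧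
    ∀ (x : F) (hx : x ≠ 0), al (Units.mk0 ((fro F hF).s x) ((fro F hF).s_ne hx)) =
      al (Units.mk0 x hx) ^ 5 := by
  obtain ⟨g, hg, ho⟩ := exists_gen F hF
  have hd : orderOf xi ∣ orderOf g := by
    rw [ho, ← xi_prim.eq_orderOf]
  refine ⟨g, monoidHomOfForallMemZpowers hg hd, monoidHomOfForallMemZpowers_apply_gen hg hd, ?_, ?_⟩
  · intro x
    obtain ⟨k, rfl⟩ := Subgroup.mem_zpowers_iff.mp (hg x)
    rw [map_zpow, monoidHomOfForallMemZpowers_apply_gen, ← zpow_natCast, ← _root_.zpow_mul, mul_comm,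
      _root_.zpow_mul, zpow_natCast, xi_prim.pow_eq_one, _root_.one_zpow]
  · intro x hx
    rw [← map_pow]
    exact congrArg _ (Units.ext rfl)

include hF in
lemma degrees_exist (T : Ty) (hT : Inv.Tr T) (hn : ∃ t, T.T t true) :
    (∃ chi : (fro F hF).XX T → ℂ, IsIrrChar chi ∧ chi 1 = 1) ∧
    (∃ chi : (fro F hF).XX T → ℂ, IsIrrChar chi ∧ chi 1 = 25) ∧
    (∃ chi : (fro F hF).XX T → ℂ, IsIrrChar chi ∧ chi 1 = 26) ∧
    (∃ chi : (fro F hF).XX T → ℂ, IsIrrChar chi ∧ chi 1 = 52) := by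
  set S := fro F hF with hS
  obtain ⟨g, al, hg, h24, hfr⟩ := exists_hom F hF
  refine ⟨⟨_, one_irr, rfl⟩, ?_, ?_, ?_⟩
  · obtain ⟨chi, h1, h2⟩ := (S.bn T hT).exists_q
    refine ⟨chi, h1, ?_⟩
    rw [h2, hF]
    norm_num
  · obtain ⟨chi, h1, h2⟩ := S.exists_q1 T hT (al ^ 6) (by
      intro x hx
      rw [MonoidHom.pow_apply, MonoidHom.pow_apply, hfr x hx, ← pow_mul]
      have h1 := h24 (Units.mk0 x hx)
      calc al (Units.mk0 x hx) ^ (5 * 6) = al (Units.mk0 x hx) ^ 24 * al (Units.mk0 x hx) ^ 6 := by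
            rw [← pow_add]
        _ = _ := by rw [h1, one_mul]) g (by
      rw [MonoidHom.pow_apply, hg, ← pow_add]
      exact xi_prim.pow_ne_one_of_pos_of_lt (by norm_num) (by norm_num))
    refine ⟨chi, h1, ?_⟩
    rw [h2, hF]
    norm_num
  · obtain ⟨chi, h1, h2⟩ := S.exists_q2 T (fro_fix F hF) hT hn al hfr (g ^ 2)
      ⟨(g : F), by rw [Units.val_pow_eq_pow_val]; ring⟩ (by
      rw [map_pow, hg, ← pow_mul]
      exact xi_prim.pow_ne_one_of_pos_of_lt (by norm_num) (by norm_num)) (by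
      rw [map_pow, hg]
      exact xi_rel)
    refine ⟨chi, h1, ?_⟩
    rw [h2, hF]
    norm_num

include hF in
/-- all the degrees for the group of order 15600 -/
theorem degrees_G {chi : (fro F hF).XX tyG → ℂ} (hchi : IsIrrChar chi) :
    chi 1 = 1 ∨ chi 1 = 25 ∨ chi 1 = 26 ∨ chi 1 = 48 ∨ chi 1 = 52 := by
  by_cases hc : ∀ c, ((fro F hF).bn tyG regG.tr).res chi c = 0
  · right; right; right; left
    exact (fro F hF).cusp_G (fro_fix F hF) hF hchi hc
  · push Not at hc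
    rcases ((fro F hF).bn tyG regG.tr).noncusp ((fro F hF).Ab_holds tyG regG.tr) (by rw [hF]; norm_num)
      (fun mu hmu => (fro F hF).degC tyG hmu) hchi hc with ⟨h, -⟩ | ⟨h, -⟩ | ⟨h, -⟩ | ⟨h, -, -⟩
    · left; exact h
    · right; left; rw [h, hF]; norm_num
    · right; right; left; rw [h, hF]; norm_num
    · right; right; right; right; rw [h, hF]; norm_num

include hF in
/-- all the degrees for the full group -/
theorem degrees_H {chi : (fro F hF).XX tyH → ℂ} (hchi : IsIrrChar chi) :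
    chi 1 = 1 ∨ chi 1 = 25 ∨ chi 1 = 26 ∨ chi 1 = 48 ∨ chi 1 = 52 := by
  by_cases hc : ∀ c, ((fro F hF).bn tyH trH).res chi c = 0
  · right; right; right; left
    rw [(fro F hF).cusp_H (fro_fix F hF) hchi hc, hF]
    norm_num
  · push Not at hc
    rcases ((fro F hF).bn tyH trH).noncusp ((fro F hF).Ab_holds tyH trH) (by rw [hF]; norm_num)
      (fun mu hmu => (fro F hF).degC tyH hmu) hchi hc with ⟨h, -⟩ | ⟨h, -⟩ | ⟨h, -⟩ | ⟨h, -, -⟩
    · left; exact h
    · right; left; rw [h, hF]; norm_num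
    · right; right; left; rw [h, hF]; norm_num
    · right; right; right; right; rw [h, hF]; norm_num

include hF in
theorem exists_48_G : ∃ chi : (fro F hF).XX tyG → ℂ, IsIrrChar chi ∧ chi 1 = 48 := by
  obtain ⟨chi, h1, h2⟩ := ((fro F hF).bn tyG regG.tr).exists_cusp ((fro F hF).Ab_holds tyG regG.tr)
    (by rw [hF]; norm_num) (fun mu hmu => (fro F hF).degC tyG hmu)
  exact ⟨chi, h1, (fro F hF).cusp_G (fro_fix F hF) hF h1 h2⟩

include hF in
theorem exists_48_H : ∃ chi : (fro F hF).XX tyH → ℂ, IsIrrChar chi ∧ chi 1 = 48 := by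
  obtain ⟨chi, h1, h2⟩ := ((fro F hF).bn tyH trH).exists_cusp ((fro F hF).Ab_holds tyH trH)
    (by rw [hF]; norm_num) (fun mu hmu => (fro F hF).degC tyH hmu)
  refine ⟨chi, h1, ?_⟩
  rw [(fro F hF).cusp_H (fro_fix F hF) h1 h2, hF]
  norm_num

end Pool.Agent.X256.HC
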