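import Pool.Agent.X256.CT.Abel

/-!
# Harish-Chandra induction for groups with a split BN-pair of rank one (abstract framework)
-/

open scoped BigOperators Classical
open Representation Pool.Agent.Helper884.IC Pool.Agent.X256.CT

noncomputable section

namespace Pool.Agent.X256.HC

/-- data: `U = {u b}`, `C`, `w` -/
structure BN (F X : Type) [Field F] [Group X] where
  u : F → X
  u_add : ∀ a b, u (a + b) = u a * u b
  C : Subgroup X
  al : C → F → F
  al_spec : ∀ (c : C) (b : F), (c : X) * u b * (c : X)⁻¹ = u (al c b)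
  w : X
  w_sq : w * w = 1
  w_conj : ∀ c ∈ C, w * c * w ∈ C
  cover : ∀ x, (∃ b, ∃ c ∈ C, x = u b * c) ∨ (∃ a b, ∃ c ∈ C, x = u a * w * (u b * c))
  inter : ∀ b, ∀ c ∈ C, (∃ b', ∃ c' ∈ C, w * (u b * c) * w = u b' * c') → b = 0
  disj : ∀ b, u b ∈ C → b = 0
  trans : ∀ b, b ≠ 0 → ∃ c : C, al c 1 = b

namespace BN

variable {F X : Type} [Field F] [Fintype F] [Group X] [Fintype X] (A : BN F X)

lemma u_zero : A.u 0 = 1 := by
  have h := A.u_add 0 0
  rw [add_zero] at h
  exact (mul_eq_left.mp h.symm)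

lemma u_neg (b : F) : A.u (-b) = (A.u b)⁻¹ := by
  rw [eq_inv_iff_mul_eq_one, ← A.u_add, neg_add_cancel, A.u_zero]

lemma u_inj {a b : F} (h : A.u a = A.u b) : a = b := by
  have h1 : A.u (a - b) = 1 := by
    rw [sub_eq_add_neg, A.u_add, A.u_neg, h, mul_inv_cancel]
  have h2 : A.u (a - b) ∈ A.C := by rw [h1]; exact A.C.one_mem
  exact sub_eq_zero.mp (A.disj _ h2)

lemma w_inv : A.w⁻¹ = A.w := by
  rw [inv_eq_iff_mul_eq_one]
  exact A.w_sq

lemma c_u (c : A.C) (b : F) : (c : X) * A.u b = A.u (A.al c b) * c := by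
  rw [← A.al_spec]
  group

/-- membership in the Borel subgroup -/
def InB (x : X) : Prop := ∃ b, ∃ c ∈ A.C, x = A.u b * c

lemma inB_mk (b : F) (c : A.C) : A.InB (A.u b * c) := ⟨b, c, c.2, rfl⟩

lemma inB_one : A.InB 1 := ⟨0, 1, A.C.one_mem, by rw [A.u_zero, one_mul]⟩

lemma inB_mul {x y : X} (hx : A.InB x) (hy : A.InB y) : A.InB (x * y) := by
  obtain ⟨b, c, hc, rfl⟩ := hx
  obtain ⟨b', c', hc', rfl⟩ := hy
  refine ⟨b + A.al ⟨c, hc⟩ b', c * c', A.C.mul_mem hc hc', ?_⟩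
  have h := A.c_u ⟨c, hc⟩ b'
  simp only at h
  rw [A.u_add, mul_assoc, ← mul_assoc c, h]
  simp only [mul_assoc]

lemma inB_inv {x : X} (hx : A.InB x) : A.InB x⁻¹ := by
  obtain ⟨b, c, hc, rfl⟩ := hx
  refine ⟨A.al ⟨c⁻¹, A.C.inv_mem hc⟩ (-b), c⁻¹, A.C.inv_mem hc, ?_⟩
  have h := A.c_u ⟨c⁻¹, A.C.inv_mem hc⟩ (-b)
  simp only at h
  rw [← h, mul_inv_rev, A.u_neg]

/-- the Borel subgroup -/
def Bor : Subgroup X where
  carrier := {x | A.InB x}
  mul_mem' := A.inB_mul
  one_mem' := A.inB_one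
  inv_mem' := A.inB_inv

lemma mem_Bor {x : X} : x ∈ A.Bor ↔ A.InB x := Iff.rfl

lemma uc_inj {b b' : F} {c c' : A.C} (h : A.u b * c = A.u b' * c') : b = b' ∧ c = c' := by
  have h1 : A.u (b - b') = (c' : X) * (c : X)⁻¹ := by
    rw [sub_eq_add_neg, add_comm, A.u_add, A.u_neg, inv_mul_eq_iff_eq_mul, ← mul_assoc, ← h]
    group
  have h2 : A.u (b - b') ∈ A.C := by
    rw [h1]
    exact A.C.mul_mem c'.2 (A.C.inv_mem c.2)
  have h3 : b = b' := sub_eq_zero.mp (A.disj _ h2)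
  subst h3
  exact ⟨rfl, Subtype.ext (mul_left_cancel h)⟩

lemma w_notB : ¬ A.InB A.w := by
  intro h
  have h1 : A.InB (A.w * (A.u 1 * 1) * A.w) := by
    rw [mul_one]
    exact A.inB_mul (A.inB_mul h ⟨1, 1, A.C.one_mem, by rw [mul_one]⟩) h
  exact one_ne_zero (A.inter 1 1 A.C.one_mem h1)

lemma wuw_notB {b : F} (c : A.C) (h : A.InB (A.w * (A.u b * c) * A.w)) : b = 0 :=
  A.inter b c c.2 h

/-- parametrisation of the group -/
def par : (F × A.C) ⊕ (F × F × A.C) → X
  | Sum.inl p => A.u p.1 * p.2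
  | Sum.inr p => A.u p.1 * A.w * (A.u p.2.1 * p.2.2)

lemma par_bij : Function.Bijective A.par := by
  constructor
  · rintro (⟨b, c⟩ | ⟨a, b, c⟩) (⟨b', c'⟩ | ⟨a', b', c'⟩) h
    · obtain ⟨h1, h2⟩ := A.uc_inj (b := b) (b' := b') (c := c) (c' := c') h
      rw [h1, h2]
    · exfalso
      change A.u b * c = A.u a' * A.w * (A.u b' * c') at h
      apply A.w_notB
      have : A.w = (A.u a')⁻¹ * (A.u b * c) * (A.u b' * c')⁻¹ := by rw [h]; group
      rw [this]
      refine A.inB_mul (A.inB_mul ?_ (A.inB_mk b c)) (A.inB_inv (A.inB_mk b' c'))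
      rw [← A.u_neg]
      exact ⟨-a', 1, A.C.one_mem, by rw [mul_one]⟩
    · exfalso
      change A.u a * A.w * (A.u b * c) = A.u b' * c' at h
      apply A.w_notB
      have : A.w = (A.u a)⁻¹ * (A.u b' * c') * (A.u b * c)⁻¹ := by rw [← h]; group
      rw [this]
      refine A.inB_mul (A.inB_mul ?_ (A.inB_mk b' c')) (A.inB_inv (A.inB_mk b c))
      rw [← A.u_neg]
      exact ⟨-a, 1, A.C.one_mem, by rw [mul_one]⟩
    · change A.u a * A.w * (A.u b * c) = A.u a' * A.w * (A.u b' * c') at h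
      have h1 : A.w * (A.u (-a' + a) * (1 : A.C)) * A.w = (A.u b' * c') * (A.u b * c)⁻¹ := by
        rw [A.u_add, A.u_neg]
        have h2 : (A.u a')⁻¹ * A.u a * A.w = A.w * ((A.u b' * c') * (A.u b * c)⁻¹) := by
          rw [mul_assoc, inv_mul_eq_iff_eq_mul, ← mul_assoc, ← mul_assoc, ← h]
          group
        calc A.w * ((A.u a')⁻¹ * A.u a * ((1 : A.C) : X)) * A.w
            = A.w * ((A.u a')⁻¹ * A.u a * A.w) := by
              rw [Subgroup.coe_one, mul_one]
              group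
          _ = (A.w * A.w) * ((A.u b' * c') * (A.u b * c)⁻¹) := by rw [h2]; group
          _ = _ := by rw [A.w_sq, one_mul]
      have h3 : -a' + a = 0 := by
        apply A.wuw_notB 1
        rw [h1]
        exact A.inB_mul (A.inB_mk b' c') (A.inB_inv (A.inB_mk b c))
      have h4 : a = a' := by
        rw [neg_add_eq_zero] at h3
        exact h3.symm
      subst h4
      obtain ⟨h5, h6⟩ := A.uc_inj (mul_left_cancel h)
      rw [h5, h6]
  · intro x
    rcases A.cover x with ⟨b, c, hc, rfl⟩ | ⟨a, b, c, hc, rfl⟩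
    · exact ⟨Sum.inl (b, ⟨c, hc⟩), rfl⟩
    · exact ⟨Sum.inr (a, b, ⟨c, hc⟩), rfl⟩

lemma sum_X (H : X → ℂ) : ∑ x, H x = (∑ b : F, ∑ c : A.C, H (A.u b * c)) +
    ∑ a : F, ∑ b : F, ∑ c : A.C, H (A.u a * A.w * (A.u b * c)) := by
  rw [← (Equiv.ofBijective _ A.par_bij).sum_comp, Fintype.sum_sum_type, Fintype.sum_prod_type,
    Fintype.sum_prod_type]
  simp only [Fintype.sum_prod_type]
  rfl

lemma card_X : Fintype.card X = Fintype.card F * (Fintype.card F + 1) * Fintype.card A.C := by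
  rw [← Fintype.card_congr (Equiv.ofBijective _ A.par_bij), Fintype.card_sum, Fintype.card_prod,
    Fintype.card_prod, Fintype.card_prod]
  ring

/-- extension by zero of a function on `C` through the Borel subgroup -/
def ext (f : A.C → ℂ) (x : X) : ℂ :=
  ∑ b : F, if h : (A.u b)⁻¹ * x ∈ A.C then f ⟨(A.u b)⁻¹ * x, h⟩ else 0

lemma ext_mk (f : A.C → ℂ) (b : F) (c : A.C) : A.ext f (A.u b * c) = f c := by
  unfold ext
  rw [Finset.sum_eq_single b]
  · have h : (A.u b)⁻¹ * (A.u b * c) ∈ A.C := by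
      rw [inv_mul_cancel_left]
      exact c.2
    rw [dif_pos h]
    congr 1
    apply Subtype.ext
    simp
  · intro b' _ hb'
    rw [dif_neg]
    intro h
    have h1 : A.u b * (c : X) = A.u b' * ((⟨_, h⟩ : A.C) : X) := by simp
    exact hb' (A.uc_inj h1).1.symm
  · intro h
    exact absurd (Finset.mem_univ _) h

lemma ext_zero (f : A.C → ℂ) {x : X} (h : ¬ A.InB x) : A.ext f x = 0 := by
  unfold ext
  refine Finset.sum_eq_zero fun b _ => ?_
  rw [dif_neg]
  intro h1
  exact h ⟨b, _, h1, by simp⟩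

/-- `ext f` is invariant under conjugation by the Borel subgroup -/
lemma ext_conj (f : A.C → ℂ) (hf : IsClass f) {y : X} (hy : A.InB y) (x : X) :
    A.ext f (y⁻¹ * x * y) = A.ext f x := by
  by_cases hx : A.InB x
  · obtain ⟨b, c, hc, rfl⟩ := hx
    obtain ⟨b', c', hc', rfl⟩ := hy
    have h1 : ∃ t, (A.u b' * c')⁻¹ * (A.u b * c) * (A.u b' * c') = A.u t * (c'⁻¹ * c * c') := by
      have e1 := A.c_u ⟨c, hc⟩ b'
      simp only at e1
      refine ⟨A.al ⟨c'⁻¹, A.C.inv_mem hc'⟩ (-b' + b + A.al ⟨c, hc⟩ b'), ?_⟩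
      have e2 := A.c_u ⟨c'⁻¹, A.C.inv_mem hc'⟩ (-b' + b + A.al ⟨c, hc⟩ b')
      simp only at e2
      calc (A.u b' * c')⁻¹ * (A.u b * c) * (A.u b' * c')
          = c'⁻¹ * ((A.u b')⁻¹ * A.u b * (c * A.u b') * c') := by group
        _ = c'⁻¹ * A.u (-b' + b + A.al ⟨c, hc⟩ b') * (c * c') := by
            rw [e1, A.u_add, A.u_add, A.u_neg]
            group
        _ = _ := by
            rw [e2]
            group
    obtain ⟨t, ht⟩ := h1
    have h2 := A.ext_mk f t (⟨c', hc'⟩⁻¹ * ⟨c, hc⟩ * ⟨c', hc'⟩)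
    have h3 := A.ext_mk f b ⟨c, hc⟩
    have h4 : A.ext f (A.u t * (c'⁻¹ * c * c')) = f (⟨c', hc'⟩⁻¹ * ⟨c, hc⟩ * ⟨c', hc'⟩) := h2
    rw [ht, h4]
    change _ = A.ext f (A.u b * ((⟨c, hc⟩ : A.C) : X))
    rw [h3]
    have h5 := hf (⟨c, hc⟩ : A.C) (⟨c', hc'⟩ : A.C)⁻¹
    rw [inv_inv] at h5
    exact h5
  · rw [A.ext_zero f hx, A.ext_zero]
    intro h
    apply hx
    have : x = y * (y⁻¹ * x * y) * y⁻¹ := by group
    rw [this]
    exact A.inB_mul (A.inB_mul hy h) (A.inB_inv hy)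

/-- Harish-Chandra induction -/
def ind (f : A.C → ℂ) (g : X) : ℂ :=
  ((Fintype.card F : ℂ) * Fintype.card A.C)⁻¹ * ∑ x : X, A.ext f (x⁻¹ * g * x)

/-- Harish-Chandra restriction -/
def res (chi : X → ℂ) (c : A.C) : ℂ := (Fintype.card F : ℂ)⁻¹ * ∑ b : F, chi (A.u b * c)

lemma ind_class (f : A.C → ℂ) : IsClass (A.ind f) := by
  intro g y
  unfold ind
  congr 1
  refine Fintype.sum_equiv (Equiv.mulLeft y⁻¹) _ _ fun z => ?_
  simp only [Equiv.coe_mulLeft]
  congr 1
  group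

lemma cF : (Fintype.card F : ℂ) ≠ 0 := by exact_mod_cast Fintype.card_ne_zero

lemma cC : (Fintype.card A.C : ℂ) ≠ 0 := by exact_mod_cast Fintype.card_ne_zero

lemma cX : (Fintype.card X : ℂ) ≠ 0 := by exact_mod_cast Fintype.card_ne_zero

/-- Frobenius reciprocity -/
lemma frob (f : A.C → ℂ) (chi : X → ℂ) (hchi : IsClass chi) :
    B (A.ind f) chi = B f (A.res chi) := by
  have h1 : B (A.ind f) chi = ((Fintype.card F : ℂ) * Fintype.card A.C)⁻¹ *
      ∑ g : X, A.ext f g * chi g⁻¹ := by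
    unfold B ind
    simp only [Finset.mul_sum, Finset.sum_mul]
    rw [Finset.sum_comm]
    have h1 : ∀ y : X, ∑ g : X, (Nat.card X : ℂ)⁻¹ * (((Fintype.card F : ℂ) * Fintype.card A.C)⁻¹ *
        A.ext f (y⁻¹ * g * y) * chi g⁻¹)
        = ∑ g : X, (Nat.card X : ℂ)⁻¹ * (((Fintype.card F : ℂ) * Fintype.card A.C)⁻¹ *
          (A.ext f g * chi g⁻¹)) := by
      intro y
      refine Fintype.sum_equiv (MulAut.conj y⁻¹).toEquiv _ _ fun g => ?_
      have e1 : (MulAut.conj y⁻¹).toEquiv g = y⁻¹ * g * y := by simp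
      rw [e1]
      have e2 : (y⁻¹ * g * y)⁻¹ = y⁻¹ * g⁻¹ * y⁻¹⁻¹ := by group
      rw [e2, hchi]
      ring
    simp only [h1]
    rw [Finset.sum_const, Finset.card_univ, ← Nat.card_eq_fintype_card (α := X), nsmul_eq_mul,
      Finset.mul_sum]
    refine Finset.sum_congr rfl fun g _ => ?_
    have := cardG_ne (G := X)
    field_simp
  rw [h1, A.sum_X]
  have h2 : ∑ a : F, ∑ b : F, ∑ c : A.C, A.ext f (A.u a * A.w * (A.u b * c)) *
      chi (A.u a * A.w * (A.u b * c))⁻¹ = 0 := by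
    refine Finset.sum_eq_zero fun a _ => Finset.sum_eq_zero fun b _ =>
      Finset.sum_eq_zero fun c _ => ?_
    rw [A.ext_zero, zero_mul]
    intro h
    apply A.w_notB
    have : A.w = (A.u a)⁻¹ * (A.u a * A.w * (A.u b * c)) * (A.u b * c)⁻¹ := by group
    rw [this]
    refine A.inB_mul (A.inB_mul ?_ h) (A.inB_inv (A.inB_mk b c))
    rw [← A.u_neg]
    exact ⟨-a, 1, A.C.one_mem, by rw [mul_one]⟩
  rw [h2, add_zero, Finset.sum_comm]
  unfold B res
  rw [Finset.mul_sum, Finset.mul_sum]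
  refine Finset.sum_congr rfl fun c _ => ?_
  have h3 : ∀ b : F, A.ext f (A.u b * c) * chi (A.u b * c)⁻¹ =
      f c * chi (A.u (-b) * (c : X)⁻¹) := by
    intro b
    rw [A.ext_mk, A.u_neg]
    congr 1
    rw [← hchi ((A.u b)⁻¹ * (c : X)⁻¹) (c : X)⁻¹]
    congr 1
    group
  rw [Finset.sum_congr rfl fun b _ => h3 b, ← Finset.mul_sum]
  have h4 : ∑ b : F, chi (A.u (-b) * (c : X)⁻¹) = ∑ b : F, chi (A.u b * ((c⁻¹ : A.C) : X)) := by
    refine Fintype.sum_equiv (Equiv.neg F) _ _ fun b => ?_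
    rfl
  rw [h4, Nat.card_eq_fintype_card]
  have := A.cC
  have := cF (F := F)
  field_simp

/-- the twist by `w` -/
def tw (f : A.C → ℂ) (c : A.C) : ℂ := f ⟨A.w * c * A.w, A.w_conj c c.2⟩

/-- **Mackey formula** -/
lemma mackey (f : A.C → ℂ) (hf : IsClass f) (c : A.C) :
    A.res (A.ind f) c = f c + A.tw f c := by
  have hz : ∀ a b : F, A.ext f (A.w * (A.u (-a + b + A.al c a) * c) * A.w) =
      if b = a - A.al c a then A.tw f c else 0 := by
    intro a b
    by_cases h : b = a - A.al c a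
    · rw [if_pos h]
      have h0 : -a + b + A.al c a = 0 := by rw [h]; ring
      rw [h0, A.u_zero, one_mul]
      have h1 := A.ext_mk f 0 ⟨A.w * c * A.w, A.w_conj c c.2⟩
      rw [A.u_zero, one_mul] at h1
      exact h1
    · rw [if_neg h, A.ext_zero]
      intro h1
      have h2 := A.wuw_notB c h1
      apply h
      linear_combination h2
  have h1 : ∀ b : F, ∑ x : X, A.ext f (x⁻¹ * (A.u b * c) * x) =
      (Fintype.card F : ℂ) * Fintype.card A.C * f c +
      (Fintype.card F : ℂ) * Fintype.card A.C *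
        ∑ a : F, if b = a - A.al c a then A.tw f c else 0 := by
    intro b
    rw [A.sum_X]
    congr 1
    · have h2 : ∀ (b' : F) (c' : A.C), A.ext f ((A.u b' * c')⁻¹ * (A.u b * c) * (A.u b' * c')) =
          f c := by
        intro b' c'
        rw [A.ext_conj f hf (A.inB_mk b' c'), A.ext_mk]
      simp only [h2, Finset.sum_const, Finset.card_univ, nsmul_eq_mul]
      ring
    · have h2 : ∀ (a b' : F) (c' : A.C), A.ext f ((A.u a * A.w * (A.u b' * c'))⁻¹ *
          (A.u b * c) * (A.u a * A.w * (A.u b' * c'))) =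
          if b = a - A.al c a then A.tw f c else 0 := by
        intro a b' c'
        rw [← hz a b, ← A.ext_conj f hf (A.inB_mk b' c') (A.w * _ * A.w)]
        congr 1
        have e1 := A.c_u c a
        calc (A.u a * A.w * (A.u b' * c'))⁻¹ * (A.u b * c) * (A.u a * A.w * (A.u b' * c'))
            = (A.u b' * (c' : X))⁻¹ * (A.w⁻¹ * ((A.u a)⁻¹ * A.u b * (c * A.u a)) * A.w) *
              (A.u b' * c') := by group
          _ = (A.u b' * (c' : X))⁻¹ * (A.w * (A.u (-a + b + A.al c a) * c) * A.w) *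
              (A.u b' * c') := by
              rw [e1, A.w_inv, A.u_add, A.u_add, A.u_neg]
              group
      simp only [h2, Finset.sum_const, Finset.card_univ, nsmul_eq_mul, Finset.mul_sum]
      refine Finset.sum_congr rfl fun a _ => ?_
      ring
  unfold res ind
  simp only [h1]
  have h2 : ∑ b : F, ∑ a : F, (if b = a - A.al c a then A.tw f c else 0) =
      (Fintype.card F : ℂ) * A.tw f c := by
    rw [Finset.sum_comm]
    simp only [Finset.sum_ite_eq', Finset.mem_univ, if_true, Finset.sum_const, Finset.card_univ,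
      nsmul_eq_mul]
  rw [← Finset.mul_sum, Finset.sum_add_distrib, ← Finset.mul_sum, ← Finset.mul_sum, h2,
    Finset.sum_const, Finset.card_univ, nsmul_eq_mul]
  have := A.cC
  have := cF (F := F)
  field_simp

/-- value of the induced function at the identity -/
lemma ind_one (f : A.C → ℂ) : A.ind f 1 = ((Fintype.card F : ℂ) + 1) * f 1 := by
  unfold ind
  have h : ∀ x : X, A.ext f (x⁻¹ * 1 * x) = f 1 := by
    intro x
    have h1 := A.ext_mk f 0 1
    rw [A.u_zero, one_mul] at h1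
    rw [mul_one, inv_mul_cancel, ← h1]
    rfl
  rw [Finset.sum_congr rfl fun x _ => h x, Finset.sum_const, Finset.card_univ, nsmul_eq_mul,
    A.card_X]
  push_cast
  have := A.cC
  have := cF (F := F)
  field_simp

/-- the projection of the Borel subgroup to `C` -/
lemma exists_pr (x : A.Bor) : ∃ c : A.C, ∃ b, (x : X) = A.u b * c := by
  obtain ⟨b, c, hc, h⟩ := x.2
  exact ⟨⟨c, hc⟩, b, h⟩

/-- the projection of the Borel subgroup to `C` -/
def pr : A.Bor →* A.C := MonoidHom.mk' (fun x => (A.exists_pr x).choose) (by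
  intro x y
  obtain ⟨b, hb⟩ := (A.exists_pr x).choose_spec
  obtain ⟨b', hb'⟩ := (A.exists_pr y).choose_spec
  obtain ⟨b'', hb''⟩ := (A.exists_pr (x * y)).choose_spec
  set c := (A.exists_pr x).choose
  set c' := (A.exists_pr y).choose
  set c'' := (A.exists_pr (x * y)).choose
  have h1 : A.u b'' * (c'' : X) = A.u (b + A.al c b') * ((c * c' : A.C) : X) := by
    rw [← hb'', Subgroup.coe_mul, hb, hb', A.u_add, Subgroup.coe_mul]
    have e1 := A.c_u c b'
    calc A.u b * (c : X) * (A.u b' * c') = A.u b * (c * A.u b') * c' := by group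
      _ = _ := by rw [e1]; group
  exact (A.uc_inj h1).2)

lemma pr_mk (b : F) (c : A.C) (h : A.u b * (c : X) ∈ A.Bor) : A.pr ⟨A.u b * c, h⟩ = c := by
  obtain ⟨b', hb'⟩ := (A.exists_pr ⟨A.u b * c, h⟩).choose_spec
  exact (A.uc_inj hb').2.symm

lemma sum_Bor (H : A.Bor → ℂ) : ∑ x : A.Bor, H x = ∑ b : F, ∑ c : A.C, H ⟨A.u b * c, A.inB_mk b c⟩ := by
  rw [← Fintype.sum_prod_type' (f := fun (b : F) (c : A.C) => H ⟨A.u b * c, A.inB_mk b c⟩)]
  let e : F × A.C → A.Bor := fun p => ⟨A.u p.1 * p.2, A.inB_mk p.1 p.2⟩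
  have he : Function.Bijective e := by
    constructor
    · rintro ⟨b, c⟩ ⟨b', c'⟩ h
      have h1 : A.u b * (c : X) = A.u b' * c' := congrArg Subtype.val h
      obtain ⟨h2, h3⟩ := A.uc_inj h1
      rw [h2, h3]
    · rintro ⟨x, b, c, hc, rfl⟩
      exact ⟨(b, ⟨c, hc⟩), rfl⟩
  exact ((Equiv.ofBijective e he).sum_comp H).symm

lemma card_Bor : Nat.card A.Bor = Fintype.card F * Fintype.card A.C := by
  let e : F × A.C → A.Bor := fun p => ⟨A.u p.1 * p.2, A.inB_mk p.1 p.2⟩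
  have he : Function.Bijective e := by
    constructor
    · rintro ⟨b, c⟩ ⟨b', c'⟩ h
      have h1 : A.u b * (c : X) = A.u b' * c' := congrArg Subtype.val h
      obtain ⟨h2, h3⟩ := A.uc_inj h1
      rw [h2, h3]
    · rintro ⟨x, b, c, hc, rfl⟩
      exact ⟨(b, ⟨c, hc⟩), rfl⟩
  rw [← Nat.card_congr (Equiv.ofBijective e he), Nat.card_prod, Nat.card_eq_fintype_card,
    Nat.card_eq_fintype_card]

/-- restriction multiplicities are natural numbers -/
lemma res_nat {chi : X → ℂ} (hchi : IsChar chi) {mu : A.C → ℂ} (hmu : IsChar mu) :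
    ∃ n : ℕ, B (A.res chi) mu = n := by
  have h1 := IsChar.B_nat (hchi.comp A.Bor.subtype) (hmu.comp A.pr)
  obtain ⟨n, hn⟩ := h1
  refine ⟨n, ?_⟩
  rw [← hn]
  unfold B res
  rw [A.sum_Bor, A.card_Bor, Finset.sum_comm]
  have h2 : ∀ (b : F) (c : A.C), mu (A.pr (⟨A.u b * c, A.inB_mk b c⟩ : A.Bor)⁻¹) = mu c⁻¹ := by
    intro b c
    rw [map_inv, A.pr_mk]
  simp only [h2, Subgroup.coe_subtype]
  rw [Finset.mul_sum, Finset.mul_sum]
  refine Finset.sum_congr rfl fun c _ => ?_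
  rw [← Finset.sum_mul, Nat.card_eq_fintype_card]
  push_cast
  have := A.cC
  have := cF (F := F)
  field_simp

lemma res_class {chi : X → ℂ} (hchi : IsClass chi) : IsClass (A.res chi) := by
  intro c d
  unfold res
  congr 1
  have h1 : ∀ b : F, chi (A.u b * ((d * c * d⁻¹ : A.C) : X)) =
      chi (A.u (A.al d⁻¹ b) * c) := by
    intro b
    have e1 := A.c_u d⁻¹ b
    rw [← hchi (A.u (A.al d⁻¹ b) * c) d]
    congr 1
    have e2 : A.u (A.al d⁻¹ b) = (d⁻¹ : A.C) * A.u b * ((d⁻¹ : A.C) : X)⁻¹ := (A.al_spec d⁻¹ b).symm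
    rw [e2]
    push_cast
    group
  have hbij : Function.Bijective (fun b => A.al d⁻¹ b) := by
    constructor
    · intro b b' h
      apply A.u_inj
      have e1 := A.al_spec d⁻¹ b
      have e2 := A.al_spec d⁻¹ b'
      simp only at h
      rw [h, ← e2] at e1
      have := mul_right_cancel e1
      exact mul_left_cancel this
    · intro b
      refine ⟨A.al d b, ?_⟩
      apply A.u_inj
      rw [← A.al_spec, ← A.al_spec]
      push_cast
      group
  exact Fintype.sum_bijective _ hbij _ _ h1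

/-- the expansion of the restriction -/
lemma res_expand {chi : X → ℂ} (hchi : IsChar chi) :
    ∃ n : (A.C → ℂ) → ℕ, (∀ mu ∈ Irr A.C, B (A.res chi) mu = n mu) ∧
      ∀ c, A.res chi c = ∑ mu ∈ Irr A.C, (n mu : ℂ) * mu c := by
  choose! n hn using fun mu (hmu : mu ∈ Irr A.C) => A.res_nat hchi (IsChar.of_irr (mem_Irr.mp hmu))
  refine ⟨n, hn, fun c => ?_⟩
  have h1 := congrFun (expand _ (A.res_class hchi.isClass)) c
  rw [h1, Finset.sum_apply]
  refine Finset.sum_congr rfl fun mu hmu => ?_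
  rw [Pi.smul_apply, smul_eq_mul, hn mu hmu]

end BN

end Pool.Agent.X256.HC
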