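import Pool.Agent.X256.HC.Lcase
import Pool.Agent.X256.HC.Even
import Pool.Agent.Y63.AWC.Deg

/-!
# Restriction to subgroups of index two; degrees of the cuspidal characters
-/

open scoped BigOperators Classical
open Matrix OnePoint Pool.Agent.Helper884.IC Pool.Agent.X256.CT

noncomputable section

namespace Pool.Agent.X256.CT

/-- restriction to a subgroup of index at most two -/
lemma restrict_mult {K H : Type} [Group K] [Fintype K] [Group H] [Fintype H] (i : K →* H)
    (hi : Function.Injective i) (hc : Nat.card H ≤ 2 * Nat.card K) {psi : H → ℂ}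
    (hpsi : IsIrrChar psi) : ∃ n : (K → ℂ) → ℕ,
      (∀ g, psi (i g) = ∑ chi ∈ Irr K, (n chi : ℂ) * chi g) ∧ ∑ chi ∈ Irr K, n chi ≤ 2 := by
  have hr : IsChar (fun g : K => psi (i g)) := (IsChar.of_irr hpsi).comp i
  obtain ⟨n, h1, h2⟩ := hr.expand_nat
  refine ⟨n, h2, ?_⟩
  have h3 := norm_expand hr.isClass h1
  have h4 : B (fun g : K => psi (i g)) (fun g : K => psi (i g)) =
      (((Nat.card K : ℝ)⁻¹ * ∑ g : K, ‖psi (i g)‖ ^ 2 : ℝ) : ℂ) := by
    unfold B
    push_cast
    congr 1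
    refine Finset.sum_congr rfl fun g _ => ?_
    have := (IsChar.of_irr hpsi).mul_inv_eq (i g)
    rw [← map_inv] at this
    rw [this]
    push_cast
    rfl
  have h5 : ((Nat.card K : ℝ)⁻¹ * ∑ g : K, ‖psi (i g)‖ ^ 2) =
      ((∑ chi ∈ Irr K, n chi ^ 2 : ℕ) : ℝ) := by
    rw [h4] at h3
    exact_mod_cast h3
  have h6 : ∑ g : K, ‖psi (i g)‖ ^ 2 ≤ ∑ h : H, ‖psi h‖ ^ 2 := by
    have e1 : ∑ g : K, ‖psi (i g)‖ ^ 2 =
        ∑ h ∈ Finset.univ.map ⟨i, hi⟩, ‖psi h‖ ^ 2 := by
      rw [Finset.sum_map]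
      rfl
    rw [e1]
    exact Finset.sum_le_sum_of_subset_of_nonneg (Finset.subset_univ _) (fun _ _ _ => by positivity)
  rw [sum_norm_sq hpsi] at h6
  have hK : (0 : ℝ) < Nat.card K := by exact_mod_cast Nat.card_pos
  have h7 : ((∑ chi ∈ Irr K, n chi ^ 2 : ℕ) : ℝ) ≤ 2 := by
    rw [← h5]
    have h8 : (Nat.card H : ℝ) ≤ 2 * Nat.card K := by exact_mod_cast hc
    rw [inv_mul_le_iff₀ hK]
    linarith
  have h8 : ∑ chi ∈ Irr K, n chi ^ 2 ≤ 2 := by exact_mod_cast h7
  refine le_trans (Finset.sum_le_sum fun chi _ => ?_) h8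
  exact Nat.le_self_pow two_ne_zero _

end Pool.Agent.X256.CT

namespace Pool.Agent.X256.HC

variable {F : Type} [Field F] [Fintype F]

namespace Inv

variable (S : Inv F)

lemma Xt_mono {T T' : Ty} (h : ∀ t j, T.T t j → T'.T t j) : S.Xt T ≤ S.Xt T' := by
  rintro _ ⟨g, j, ⟨t, h1, h2⟩, rfl⟩
  exact ⟨g, j, ⟨t, h _ _ h1, h2⟩, rfl⟩

/-- the inclusion into the full group -/
def inc (T : Ty) : S.XX T →* S.XX tyH := Subgroup.inclusion (S.Xt_mono (fun _ _ _ => trivial))

lemma inc_inj (T : Ty) : Function.Injective (S.inc T) := Subgroup.inclusion_injective _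

lemma inc_uu (T : Ty) (b : F) : S.inc T (S.uu T b) = S.uu tyH b := rfl

/-- the inclusion of the two-point stabilisers -/
def incC (T : Ty) (c : S.CC T) : S.CC tyH := ⟨S.inc T c, c.2⟩

lemma card_H (hfix : ∀ x, S.s x = x → IsSquare x) {T : Ty} (hT : Reg T) :
    Nat.card (S.XX tyH) = 2 * Nat.card (S.XX T) := by
  rw [S.card_XX tyH trH, S.card_XX T hT.tr, S.card_reg T hfix hT,
    S.card_full tyH hfix (fun _ _ => trivial)]
  ring

/-- multiplicities for the full group are at most two -/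
theorem m_le_two (hfix : ∀ x, S.s x = x → IsSquare x) {psi : S.XX tyH → ℂ} (hpsi : IsIrrChar psi)
    {k : ℕ} (hk : psi 1 - psi (S.uu tyH 1) = (Fintype.card F : ℂ) * k) : k ≤ 2 := by
  have hq : (Fintype.card F : ℂ) ≠ 0 := BN.cF
  obtain ⟨n, h1, h2⟩ := restrict_mult (S.inc tyL) (S.inc_inj tyL) (S.card_H hfix regL).le hpsi
  choose! m hm using fun chi (hchi : chi ∈ Irr (S.XX tyL)) =>
    (S.bn tyL regL.tr).exists_m (IsChar.of_irr (mem_Irr.mp hchi))
  have hm1 : ∀ chi ∈ Irr (S.XX tyL), m chi ≤ 1 := fun chi hchi =>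
    S.m_le_one hfix (mem_Irr.mp hchi) (hm chi hchi)
  have h3 : (k : ℂ) = ((∑ chi ∈ Irr (S.XX tyL), n chi * m chi : ℕ) : ℂ) := by
    apply mul_left_cancel₀ hq
    rw [← hk]
    have e1 := h1 1
    have e2 := h1 (S.uu tyL 1)
    rw [map_one] at e1
    rw [S.inc_uu] at e2
    rw [e1, e2, ← Finset.sum_sub_distrib]
    push_cast
    rw [Finset.mul_sum]
    refine Finset.sum_congr rfl fun chi hchi => ?_
    have e3 : chi 1 - chi (S.uu tyL 1) = (Fintype.card F : ℂ) * m chi := hm chi hchi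
    rw [← mul_sub, e3]
    ring
  have h4 : k = ∑ chi ∈ Irr (S.XX tyL), n chi * m chi := by exact_mod_cast h3
  rw [h4]
  refine le_trans (Finset.sum_le_sum fun chi hchi => ?_) h2
  calc n chi * m chi ≤ n chi * 1 := Nat.mul_le_mul_left _ (hm1 chi hchi)
    _ = n chi := mul_one _

/-- cuspidal characters of the full group have even multiplicity -/
theorem even_H (hfix : ∀ x, S.s x = x → IsSquare x) {psi : S.XX tyH → ℂ} (hpsi : IsIrrChar psi)
    (hres : ∀ c, (S.bn tyH trH).res psi c = 0) : ∃ M : ℕ, Even M ∧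
      psi 1 = ((Fintype.card F : ℂ) - 1) * M := by
  have hq : (Fintype.card F : ℂ) ≠ 0 := BN.cF
  have hq1 : 1 ≤ Fintype.card F := Fintype.card_pos
  obtain ⟨n, h1, -⟩ := restrict_mult (S.inc tyG) (S.inc_inj tyG) (S.card_H hfix regG).le hpsi
  have hres0 : ∀ c : S.CC tyG, ∑ chi ∈ Irr (S.XX tyG), (n chi : ℂ) * (S.bn tyG regG.tr).res chi c = 0 := by
    intro c
    have e1 := hres (S.incC tyG c)
    have e2 : (S.bn tyH trH).res psi (S.incC tyG c) =
        ∑ chi ∈ Irr (S.XX tyG), (n chi : ℂ) * (S.bn tyG regG.tr).res chi c := by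
      unfold BN.res
      simp only [Finset.mul_sum]
      rw [Finset.sum_comm]
      refine Finset.sum_congr rfl fun b _ => ?_
      have e3 : psi ((S.bn tyH trH).u b * ((S.incC tyG c : (S.bn tyH trH).C) : S.XX tyH)) =
          psi (S.inc tyG (S.uu tyG b * (c : S.XX tyG))) := by
        rw [map_mul]
        rfl
      rw [e3, h1, Finset.mul_sum]
      refine Finset.sum_congr rfl fun chi _ => ?_
      have e4 : chi (S.uu tyG b * (c : S.XX tyG)) = chi ((S.bn tyG regG.tr).u b * (c : S.XX tyG)) := rfl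
      rw [e4]
      ring
    rw [← e2]
    exact e1
  -- each constituent is cuspidal
  have hcus : ∀ chi ∈ Irr (S.XX tyG), n chi ≠ 0 → ∀ c, (S.bn tyG regG.tr).res chi c = 0 := by
    intro chi hchi hne c
    choose! k hk1 hk2 using fun chi (hchi : chi ∈ Irr (S.XX tyG)) =>
      (S.bn tyG regG.tr).res_expand (IsChar.of_irr (mem_Irr.mp hchi))
    rw [hk2 chi hchi c]
    refine Finset.sum_eq_zero fun mu hmu => ?_
    have h3 : ((∑ chi ∈ Irr (S.XX tyG), n chi * k chi mu : ℕ) : ℂ) = 0 := by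
      push_cast
      have h4 : ∑ chi ∈ Irr (S.XX tyG), (n chi : ℂ) * (k chi mu : ℂ) =
          B (fun c => ∑ chi ∈ Irr (S.XX tyG), (n chi : ℂ) * (S.bn tyG regG.tr).res chi c) mu := by
        have h5 : (fun c => ∑ chi ∈ Irr (S.XX tyG), (n chi : ℂ) * (S.bn tyG regG.tr).res chi c) =
            ∑ chi ∈ Irr (S.XX tyG), (n chi : ℂ) • (S.bn tyG regG.tr).res chi := by
          funext c
          rw [Finset.sum_apply]
          rfl
        rw [h5, B_sum_left]
        refine Finset.sum_congr rfl fun chi hchi => ?_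
        rw [B_smul_left, hk1 chi hchi mu hmu]
      rw [h4]
      have h6 : (fun c => ∑ chi ∈ Irr (S.XX tyG), (n chi : ℂ) * (S.bn tyG regG.tr).res chi c) =
          fun _ => 0 := funext fun c => hres0 c
      rw [h6]
      unfold B
      simp
    have h4 : ∑ chi ∈ Irr (S.XX tyG), n chi * k chi mu = 0 := by exact_mod_cast h3
    have h5 := (Finset.sum_eq_zero_iff.mp h4) chi hchi
    have h6 : k chi mu = 0 := by
      rcases Nat.mul_eq_zero.mp h5 with h | h
      · exact absurd h hne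
      · exact h
    rw [h6, Nat.cast_zero, zero_mul]
  have hdeg : ∀ chi ∈ Irr (S.XX tyG), n chi ≠ 0 → ∃ m : ℕ, Even m ∧
      chi 1 = ((Fintype.card F : ℂ) - 1) * m := by
    intro chi hchi hne
    have h3 := hcus chi hchi hne
    obtain ⟨m, hm1, hm2⟩ := (S.bn tyG regG.tr).jm (IsChar.of_irr (mem_Irr.mp hchi))
    rw [h3 1, zero_add] at hm1
    refine ⟨m, ?_, hm1⟩
    apply S.even_m hfix (mem_Irr.mp hchi) h3
    rw [hm1, S.card_reg tyG hfix regG, Nat.cast_sub hq1, Nat.cast_one]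
  choose! m hme hmd using hdeg
  refine ⟨∑ chi ∈ Irr (S.XX tyG), n chi * m chi, ?_, ?_⟩
  · refine Finset.even_sum _ fun chi hchi => ?_
    by_cases hne : n chi = 0
    · rw [hne, zero_mul]
      exact ⟨0, rfl⟩
    · exact (hme chi hchi hne).mul_left _
  · have e1 := h1 1
    rw [map_one] at e1
    rw [e1]
    push_cast
    rw [Finset.mul_sum]
    refine Finset.sum_congr rfl fun chi hchi => ?_
    by_cases hne : n chi = 0
    · rw [hne]
      simp
    · rw [hmd chi hchi hne]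
      ring

/-- **degrees of the cuspidal characters of the full group** -/
theorem cusp_H (hfix : ∀ x, S.s x = x → IsSquare x) {psi : S.XX tyH → ℂ} (hpsi : IsIrrChar psi)
    (hres : ∀ c, (S.bn tyH trH).res psi c = 0) : psi 1 = ((Fintype.card F : ℂ) - 1) * 2 := by
  have hq : (Fintype.card F : ℂ) ≠ 0 := BN.cF
  obtain ⟨M, hM1, hM2⟩ := S.even_H hfix hpsi hres
  obtain ⟨m, hm1, hm2⟩ := (S.bn tyH trH).jm (IsChar.of_irr hpsi)
  rw [hres 1, zero_add] at hm1
  rw [hres 1, zero_sub] at hm2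
  have hle : m ≤ 2 := by
    apply S.m_le_two hfix hpsi
    change psi 1 - psi ((S.bn tyH trH).u 1) = _
    rw [hm1, hm2]
    ring
  have hne := Pool.Agent.Y63.AWC.one_ne hpsi
  have hq1 : (Fintype.card F : ℂ) - 1 ≠ 0 := by
    intro h
    rw [h, zero_mul] at hm1
    exact hne hm1
  have h1 : m = M := by
    have : (m : ℂ) = M := mul_left_cancel₀ hq1 (hm1.symm.trans hM2)
    exact_mod_cast this
  have h2 : m ≠ 0 := by
    rintro rfl
    rw [Nat.cast_zero, mul_zero] at hm1
    exact hne hm1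
  rw [← h1] at hM1
  have h3 : m = 2 := by
    obtain ⟨r, hr⟩ := hM1
    omega
  rw [hm1, h3]
  norm_num

/-- **degrees of the cuspidal characters of the sharply three-transitive group** -/
theorem cusp_G (hfix : ∀ x, S.s x = x → IsSquare x) (hq : Fintype.card F = 25)
    {chi : S.XX tyG → ℂ} (hchi : IsIrrChar chi)
    (hres : ∀ c, (S.bn tyG regG.tr).res chi c = 0) : chi 1 = 48 := by
  obtain ⟨m, hm1, hm2⟩ := (S.bn tyG regG.tr).jm (IsChar.of_irr hchi)
  rw [hres 1, zero_add, hq] at hm1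
  have hm1' : chi 1 = ((24 * m : ℕ) : ℂ) := by
    rw [hm1]
    push_cast
    ring
  have hcC : Nat.card (S.CC tyG) = 24 := by rw [S.card_reg tyG hfix regG, hq]
  have hcG : Nat.card (S.XX tyG) = 15600 := by
    rw [S.card_XX tyG regG.tr, hcC, hq]
  have heven : Even m := by
    apply S.even_m hfix hchi hres
    rw [hm1', hcC]
    push_cast
    ring
  have hdvd := Pool.Agent.Y63.AWC.deg_dvd hchi hm1'
  rw [hcG] at hdvd
  have hsq : (24 * m) ^ 2 ≤ 15600 := by
    have h1 := sum_norm_sq hchi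
    have h2 : ‖chi 1‖ ^ 2 ≤ ∑ g : S.XX tyG, ‖chi g‖ ^ 2 :=
      Finset.single_le_sum (f := fun g => ‖chi g‖ ^ 2) (fun _ _ => by positivity) (Finset.mem_univ 1)
    rw [h1, hcG, hm1'] at h2
    have h3 : ‖((24 * m : ℕ) : ℂ)‖ = ((24 * m : ℕ) : ℝ) := Complex.norm_natCast _
    rw [h3] at h2
    exact_mod_cast h2
  have hne := Pool.Agent.Y63.AWC.one_ne hchi
  have hm0 : m ≠ 0 := by
    rintro rfl
    apply hne
    rw [hm1']
    simp
  have hm5 : m ≤ 5 := by
    by_contra h
    push Not at h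
    have : (24 * 6) ^ 2 ≤ (24 * m) ^ 2 := Nat.pow_le_pow_left (by omega) 2
    omega
  have hm : m = 2 := by
    obtain ⟨r, hr⟩ := heven
    have h4 : m = 2 ∨ m = 4 := by omega
    rcases h4 with h4 | h4
    · exact h4
    · exfalso
      rw [h4] at hdvd
      omega
  rw [hm1', hm]
  norm_num

end Inv

end Pool.Agent.X256.HC
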