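import Pool.Agent.X256.HC.Stab

/-!
# The group `PGL_2`: the multiplicities are at most one
-/

open scoped BigOperators Classical
open Matrix OnePoint Pool.Agent.Helper884.IC Pool.Agent.X256.CT

noncomputable section

namespace Pool.Agent.X256.HC

variable {F : Type} [Field F] [Fintype F]

/-- kernel of the action -/
lemma gl_ker {g : GL (Fin 2) F} (h : gl g = 1) : g 1 0 = 0 ∧ g 0 1 = 0 ∧ g 0 0 = g 1 1 := by
  have e1 : gl g ∞ = ∞ := by rw [h]; rfl
  rw [gl_infty] at e1
  have h10 : g 1 0 = 0 := by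
    by_contra hn
    rw [if_neg hn] at e1
    exact OnePoint.coe_ne_infty _ e1
  have hdt := dt_ne g
  rw [dt_eq, h10, mul_zero, sub_zero] at hdt
  have h11 : g 1 1 ≠ 0 := right_ne_zero_of_mul hdt
  have e2 : gl g ((0 : F) : OnePoint F) = ((0 : F) : OnePoint F) := by rw [h]; rfl
  rw [gl_coe, h10, zero_mul, zero_add, if_neg h11, mul_zero, zero_add, OnePoint.coe_eq_coe,
    div_eq_zero_iff] at e2
  have h01 : g 0 1 = 0 := by
    rcases e2 with h | h
    · exact h
    · exact absurd h h11
  have e3 : gl g ((1 : F) : OnePoint F) = ((1 : F) : OnePoint F) := by rw [h]; rfl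
  rw [gl_coe, h10, zero_mul, zero_add, if_neg h11, h01, mul_one, add_zero, OnePoint.coe_eq_coe,
    div_eq_one_iff_eq h11] at e3
  exact ⟨h10, h01, e3⟩

/-- trace -/
def tr' (g : GL (Fin 2) F) : F := (g : Matrix (Fin 2) (Fin 2) F).trace

lemma tr'_eq (g : GL (Fin 2) F) : tr' g = g 0 0 + g 1 1 := Matrix.trace_fin_two _

lemma tr'_conj (h g : GL (Fin 2) F) : tr' (h * g * h⁻¹) = tr' g := by
  unfold tr'
  have := Matrix.trace_units_conj h (g : Matrix (Fin 2) (Fin 2) F)
  exact this

lemma dt_conj (h g : GL (Fin 2) F) : dt (h * g * h⁻¹) = dt g := by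
  rw [dt_mul, dt_mul, mul_comm (dt h), mul_assoc, ← dt_mul, mul_inv_cancel]
  have : dt (1 : GL (Fin 2) F) = 1 := by unfold dt; simp
  rw [this, mul_one]

/-- elements with equal image differ by a scalar -/
lemma gl_eq {g g' : GL (Fin 2) F} (h : gl g = gl g') : ∃ l : F, l ≠ 0 ∧ tr' g = l * tr' g' ∧
    dt g = l ^ 2 * dt g' := by
  have h1 : gl (g * g'⁻¹) = 1 := by rw [map_mul, map_inv, h, mul_inv_cancel]
  obtain ⟨h10, h01, h00⟩ := gl_ker h1
  set k := g * g'⁻¹ with hk
  have hg : g = k * g' := by rw [hk]; group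
  have hdt := dt_ne k
  rw [dt_eq, h10, mul_zero, sub_zero] at hdt
  refine ⟨k 1 1, right_ne_zero_of_mul hdt, ?_, ?_⟩
  · rw [hg, tr'_eq, tr'_eq]
    have e1 : (k * g') 0 0 = k 0 0 * g' 0 0 + k 0 1 * g' 1 0 := by
      rw [Matrix.GeneralLinearGroup.coe_mul, Matrix.mul_apply, Fin.sum_univ_two]
    have e2 : (k * g') 1 1 = k 1 0 * g' 0 1 + k 1 1 * g' 1 1 := by
      rw [Matrix.GeneralLinearGroup.coe_mul, Matrix.mul_apply, Fin.sum_univ_two]
    rw [e1, e2, h00, h10, h01]
    ring
  · rw [hg, dt_mul, dt_eq k, h00, h10]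
    ring

namespace Inv

variable (S : Inv F)

/-- the projective image -/
def gL : GL (Fin 2) F →* S.XX tyL where
  toFun g := ⟨gl g, g, false, ⟨nsq (dt g), rfl, nsq_iff _⟩, by simp [frj]⟩
  map_one' := Subtype.ext (map_one gl)
  map_mul' g h := Subtype.ext (map_mul gl g h)

lemma gL_surj (x : S.XX tyL) : ∃ g, x = S.gL g := by
  obtain ⟨g, j, ⟨t, ht, -⟩, hg⟩ := x.2
  have hj : j = false := ht
  subst hj
  refine ⟨g, Subtype.ext ?_⟩
  rw [hg]
  change gl g * 1 = gl g
  rw [mul_one]

lemma gL_conj {g g' : GL (Fin 2) F} (h : IsConj (S.gL g) (S.gL g')) :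
    tr' g ^ 2 * dt g' = tr' g' ^ 2 * dt g ∧ (IsSquare (dt g) ↔ IsSquare (dt g')) := by
  rw [isConj_iff] at h
  obtain ⟨c, hc⟩ := h
  obtain ⟨k, rfl⟩ := S.gL_surj c
  rw [← map_inv, ← map_mul, ← map_mul] at hc
  have h1 : gl (k * g * k⁻¹) = gl g' := congrArg Subtype.val hc
  obtain ⟨l, hl, h2, h3⟩ := gl_eq h1
  rw [tr'_conj] at h2
  rw [dt_conj] at h3
  constructor
  · rw [h2, h3]
    ring
  · rw [h3, sq_mul S.two (pow_ne_zero 2 hl) (dt_ne _)]
    have : IsSquare (l ^ 2) := ⟨l, pow_two l⟩
    simp [this]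

/-- representatives of the conjugacy classes -/
def rep (nu : F) (hnu : nu ≠ 0) : Option (Option F) → GL (Fin 2) F
  | none => 1
  | Option.some none => mkg 0 (-nu) 1 0 (by simpa using hnu)
  | Option.some (Option.some t) => if h : t = 0 then mkg 0 (-1) 1 0 (by simp) else
      mkg 0 (-t) 1 t (by simpa using h)

lemma rep_10 (nu : F) (hnu : nu ≠ 0) (o : Option F) : (rep nu hnu (Option.some o)) 1 0 = 1 := by
  cases o with
  | none => rfl
  | some t =>
    unfold rep
    simp only
    split_ifs <;> rfl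

lemma rep_inj (nu : F) (hnu : nu ≠ 0) (hns : ¬ IsSquare nu) (x y : Option (Option F))
    (h : IsConj (S.gL (rep nu hnu x)) (S.gL (rep nu hnu y))) : x = y := by
  have hone : ∀ o : Option F, ¬ IsConj (S.gL (rep nu hnu (Option.some o))) (S.gL (rep nu hnu none)) := by
    intro o ho
    have e0 : S.gL (rep nu hnu none) = 1 := map_one S.gL
    rw [e0, isConj_one_left] at ho
    have h1 : gl (rep nu hnu (Option.some o)) = 1 := congrArg Subtype.val ho
    have h2 := (gl_ker h1).1
    rw [rep_10] at h2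
    exact one_ne_zero h2
  have hinv := S.gL_conj h
  have hdn : dt (rep nu hnu (Option.some none)) = nu := by
    unfold rep
    simp only
    rw [dt_mk]; ring
  have htn : tr' (rep nu hnu (Option.some none)) = 0 := by
    unfold rep
    simp only
    rw [tr'_eq, mk00, mk11]; ring
  have hds : ∀ t : F, dt (rep nu hnu (Option.some (Option.some t))) = if t = 0 then 1 else t := by
    intro t
    unfold rep
    simp only
    split_ifs with h1
    · rw [dt_mk]; ring
    · rw [dt_mk]; ring
  have hts : ∀ t : F, tr' (rep nu hnu (Option.some (Option.some t))) = t := by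
    intro t
    unfold rep
    simp only
    split_ifs with h1
    · rw [tr'_eq, mk00, mk11, h1]; ring
    · rw [tr'_eq, mk00, mk11]; ring
  have hdne : ∀ g : GL (Fin 2) F, dt g ≠ 0 := dt_ne
  cases x with
  | none =>
    cases y with
    | none => rfl
    | some o => exact absurd (isConj_comm.mp h) (hone o)
  | some x =>
    cases y with
    | none => exact absurd h (hone x)
    | some y =>
      cases x with
      | none =>
        cases y with
        | none => rfl
        | some t =>
          exfalso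
          obtain ⟨h1, h2⟩ := hinv
          rw [htn, hts, hdn, hds] at h1
          rw [hdn, hds] at h2
          by_cases ht : t = 0
          · rw [if_pos ht] at h2
            exact hns (h2.mpr ⟨1, by ring⟩)
          · have h3 : t ^ 2 * nu = 0 := by rw [← h1]; ring
            rcases mul_eq_zero.mp h3 with h4 | h4
            · exact ht (pow_eq_zero_iff (two_ne_zero) |>.mp h4)
            · exact hnu h4
      | some s =>
        cases y with
        | none =>
          exfalso
          obtain ⟨h1, h2⟩ := hinv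
          rw [htn, hts, hdn, hds] at h1
          rw [hdn, hds] at h2
          by_cases ht : s = 0
          · rw [if_pos ht] at h2
            exact hns (h2.mp ⟨1, by ring⟩)
          · have h3 : s ^ 2 * nu = 0 := by rw [h1]; ring
            rcases mul_eq_zero.mp h3 with h4 | h4
            · exact ht (pow_eq_zero_iff (two_ne_zero) |>.mp h4)
            · exact hnu h4
        | some t =>
          obtain ⟨h1, -⟩ := hinv
          rw [hts, hts, hds, hds] at h1
          by_cases hs : s = 0
          · by_cases ht : t = 0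
            · rw [hs, ht]
            · exfalso
              rw [if_pos hs, if_neg ht, hs] at h1
              have : t ^ 2 = 0 := by linear_combination -h1
              exact ht (pow_eq_zero_iff (two_ne_zero) |>.mp this)
          · by_cases ht : t = 0
            · exfalso
              rw [if_neg hs, if_pos ht, ht] at h1
              have : s ^ 2 = 0 := by linear_combination h1
              exact hs (pow_eq_zero_iff (two_ne_zero) |>.mp this)
            · rw [if_neg hs, if_neg ht] at h1
              have h3 : s * t * (s - t) = 0 := by linear_combination h1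
              rcases mul_eq_zero.mp h3 with h4 | h4
              · exact absurd h4 (mul_ne_zero hs ht)
              · rw [sub_eq_zero.mp h4]

include S in
lemma exists_nonsq : ∃ nu : F, nu ≠ 0 ∧ ¬ IsSquare nu := by
  have hc : ringChar F ≠ 2 := by
    intro hc
    apply S.two
    have := ringChar.Nat.cast_ringChar (R := F)
    rw [hc] at this
    exact_mod_cast this
  obtain ⟨a, ha⟩ := FiniteField.exists_nonsquare hc
  refine ⟨a, ?_, ha⟩
  rintro rfl
  exact ha ⟨0, by ring⟩

lemma card_conjL : Fintype.card F + 2 ≤ Nat.card (ConjClasses (S.XX tyL)) := by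
  obtain ⟨nu, hnu, hns⟩ := S.exists_nonsq
  have h1 : Nat.card (Option (Option F)) = Fintype.card F + 2 := by
    rw [Nat.card_eq_fintype_card, Fintype.card_option, Fintype.card_option]
  rw [← h1]
  refine Nat.card_le_card_of_injective (fun o => ConjClasses.mk (S.gL (rep nu hnu o))) ?_
  intro x y h
  exact S.rep_inj nu hnu hns x y (ConjClasses.mk_eq_mk_iff_isConj.mp h)

/-- linear characters of `PGL_2` are determined by one sign -/
lemma lin_det {nu : F} (hnu : nu ≠ 0) (hns : ¬ IsSquare nu) {chi : S.XX tyL → ℂ}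
    (hirr : IsIrrChar chi) (hm : chi 1 = chi (S.uu tyL 1)) :
    (∀ (a : F) (ha : a ≠ 0) (h : tyL.T (nsq a) false), chi (S.mc tyL a ha false h) =
      if IsSquare a then 1 else chi (S.mc tyL nu hnu false rfl)) ∧
    (∀ b, chi (S.uu tyL b) = 1) ∧ chi (S.ww tyL) = 1 ∧
    (∀ x y, chi (x * y) = chi x * chi y) ∧
    (chi (S.mc tyL nu hnu false rfl) = 1 ∨ chi (S.mc tyL nu hnu false rfl) = -1) := by
  obtain ⟨h1, hmul⟩ := (S.bn tyL regL.tr).lin_of_m' (S.Ab_holds tyL regL.tr) hirr hm
  have hu : ∀ b, chi (S.uu tyL b) = 1 := by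
    intro b
    by_cases hb : b = 0
    · rw [hb]
      have e2 : S.uu tyL 0 = 1 := (S.bn tyL regL.tr).u_zero
      rw [e2, h1]
    · have e2 := (S.bn tyL regL.tr).unip hirr.isClass hb
      change chi (S.uu tyL b) = chi (S.uu tyL 1) at e2
      rw [e2, ← hm, h1]
  have hinv : ∀ x, chi x⁻¹ * chi x = 1 := by
    intro x
    rw [← hmul, inv_mul_cancel, h1]
  have hw2 : chi (S.ww tyL) * chi (S.ww tyL) = 1 := by
    rw [← hmul]
    have : S.ww tyL * S.ww tyL = 1 := (S.bn tyL regL.tr).w_sq
    rw [this, h1]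
  have hrel : ∀ (b : F) (hb : b ≠ 0), chi (S.sq tyL b hb) = chi (S.ww tyL) := by
    intro b hb
    have h2 := congrArg chi (S.w_rel tyL b hb)
    rw [hmul, hmul, hmul, hmul, hmul, hu, hu, hu] at h2
    have h3 : chi (S.ww tyL) * chi (S.sq tyL b hb) = chi (S.ww tyL) * chi (S.ww tyL) := by
      linear_combination -h2
    have h4 : chi (S.ww tyL) ≠ 0 := by
      intro h5
      rw [h5, mul_zero] at hw2
      exact zero_ne_one hw2
    exact mul_left_cancel₀ h4 h3
  have hw : chi (S.ww tyL) = 1 := by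
    rw [← hrel 1 one_ne_zero]
    have h3 : S.sq tyL 1 one_ne_zero = 1 := by
      apply S.ext_XX tyL
      · exact S.cc_infty tyL _ _ _ _ _ _
      · intro x
        have : (S.sq tyL 1 one_ne_zero : Equiv.Perm (OnePoint F)) (x : OnePoint F) =
          ((1 * 1 * S.sj false x : F) : OnePoint F) := S.cc_coe tyL _ _ _ _ _ _ _
        rw [this, one_mul, one_mul]
        rfl
    rw [h3, h1]
  have hsq : ∀ (a : F) (ha : a ≠ 0) (h : tyL.T (nsq a) false), IsSquare a →
      chi (S.mc tyL a ha false h) = 1 := by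
    rintro a ha h ⟨b, hb⟩
    have hb0 : b ≠ 0 := by
      rintro rfl
      exact ha (by rw [hb, mul_zero])
    have h2 : (S.mc tyL a ha false h : S.XX tyL) = S.sq tyL b hb0 := by
      subst hb
      apply S.ext_XX tyL
      · rw [(S.mc tyL _ ha false h).2.1]
        exact (S.cc_infty tyL _ _ _ _ _ _).symm
      · intro x
        rw [S.mc_coe]
        exact (S.cc_coe tyL _ _ _ _ _ _ _).symm
    rw [h2, hrel, hw]
  refine ⟨?_, hu, hw, hmul, ?_⟩
  · intro a ha h
    by_cases hs : IsSquare a
    · rw [if_pos hs]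
      exact hsq a ha h hs
    · rw [if_neg hs]
      have h2 : IsSquare (a * nu⁻¹) := by
        rw [sq_mul S.two ha (inv_ne_zero hnu)]
        have : ¬ IsSquare nu⁻¹ := by
          intro h3
          have := h3.inv
          rw [inv_inv] at this
          exact hns this
        simp [hs, this]
      have h3 := hsq (a * nu⁻¹) (mul_ne_zero ha (inv_ne_zero hnu)) rfl h2
      have h4 : S.mc tyL a ha false h = S.mc tyL (a * nu⁻¹) (mul_ne_zero ha (inv_ne_zero hnu)) false rfl *
          S.mc tyL nu hnu false rfl := by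
        apply S.ext_CC tyL
        intro x
        change _ = ((S.mc tyL (a * nu⁻¹) (mul_ne_zero ha (inv_ne_zero hnu)) false rfl : S.XX tyL) :
          Equiv.Perm (OnePoint F)) (((S.mc tyL nu hnu false rfl : S.XX tyL) :
            Equiv.Perm (OnePoint F)) (x : OnePoint F))
        rw [S.mc_coe, S.mc_coe, S.mc_coe]
        congr 1
        change a * x = a * nu⁻¹ * (nu * x)
        field_simp
      rw [h4, Subgroup.coe_mul, hmul, h3, one_mul]
  · have h2 : chi (S.mc tyL nu hnu false rfl) * chi (S.mc tyL nu hnu false rfl) = 1 := by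
      rw [← hmul, ← Subgroup.coe_mul]
      have h4 : S.mc tyL nu hnu false rfl * S.mc tyL nu hnu false rfl =
          S.mc tyL (nu * nu) (mul_ne_zero hnu hnu) false rfl := by
        apply S.ext_CC tyL
        intro x
        change ((S.mc tyL nu hnu false rfl : S.XX tyL) : Equiv.Perm (OnePoint F))
          (((S.mc tyL nu hnu false rfl : S.XX tyL) : Equiv.Perm (OnePoint F)) (x : OnePoint F)) = _
        rw [S.mc_coe, S.mc_coe, S.mc_coe]
        congr 1
        change nu * (nu * x) = nu * nu * x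
        ring
      rw [h4]
      exact hsq _ _ _ ⟨nu, rfl⟩
    exact mul_self_eq_one_iff.mp h2

/-- at most two characters with `m = 0` -/
lemma card_lin (Z : Finset (S.XX tyL → ℂ)) (hZ : ∀ chi ∈ Z, IsIrrChar chi ∧ chi 1 = chi (S.uu tyL 1)) :
    Z.card ≤ 2 := by
  obtain ⟨nu, hnu, hns⟩ := S.exists_nonsq
  have h1 : (Finset.univ : Finset Bool).card = 2 := rfl
  rw [← h1]
  refine Finset.card_le_card_of_injOn
    (fun chi => decide (chi (S.mc tyL nu hnu false rfl) = 1)) (fun _ _ => Finset.mem_univ _) ?_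
  intro chi hchi psi hpsi h
  obtain ⟨hi, hm⟩ := hZ chi hchi
  obtain ⟨hi', hm'⟩ := hZ psi hpsi
  obtain ⟨a1, a2, a3, a4, a5⟩ := S.lin_det hnu hns hi hm
  obtain ⟨b1, b2, b3, b4, b5⟩ := S.lin_det hnu hns hi' hm'
  simp only [decide_eq_decide] at h
  have hv : chi (S.mc tyL nu hnu false rfl) = psi (S.mc tyL nu hnu false rfl) := by
    rcases a5 with h5 | h5 <;> rcases b5 with h6 | h6
    · rw [h5, h6]
    · rw [h5, h6] at h
      have := h.mp rfl
      norm_num at this
    · rw [h5, h6] at h
      have := h.mpr rfl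
      norm_num at this
    · rw [h5, h6]
  have hC : ∀ c : S.CC tyL, chi c = psi c := by
    intro c
    obtain ⟨a, ha, j, hj, rfl⟩ := S.exists_mc tyL c
    have hj' : j = false := hj
    subst hj'
    rw [a1, b1, hv]
  funext x
  rcases (S.bn tyL regL.tr).cover x with ⟨b, c, hc, rfl⟩ | ⟨a, b, c, hc, rfl⟩
  · change chi (S.uu tyL b * c) = psi (S.uu tyL b * c)
    rw [a4, b4, a2, b2]
    exact congrArg _ (hC ⟨c, hc⟩)
  · change chi (S.uu tyL a * S.ww tyL * (S.uu tyL b * c)) =
      psi (S.uu tyL a * S.ww tyL * (S.uu tyL b * c))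
    rw [a4, a4, a4, b4, b4, b4, a2, a2, b2, b2, a3, b3]
    have := hC ⟨c, hc⟩
    change chi c = psi c at this
    rw [this]

/-- **multiplicities for `PGL_2` are at most one** -/
theorem m_le_one (hfix : ∀ x, S.s x = x → IsSquare x) {chi : S.XX tyL → ℂ} (hchi : IsIrrChar chi)
    {k : ℕ} (hk : chi 1 - chi (S.uu tyL 1) = (Fintype.card F : ℂ) * k) : k ≤ 1 := by
  have hq : (Fintype.card F : ℂ) ≠ 0 := BN.cF
  choose! m hm using fun chi (hchi : chi ∈ Irr (S.XX tyL)) =>
    (S.bn tyL regL.tr).exists_m (IsChar.of_irr (mem_Irr.mp hchi))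
  have h1 := (S.bn tyL regL.tr).sum_m hm
  have h2 : Nat.card {c : (S.bn tyL regL.tr).C // (S.bn tyL regL.tr).al c 1 = 1} = 1 :=
    S.reg_stab tyL hfix regL
  have hq1 : 1 ≤ Fintype.card F := Fintype.card_pos
  rw [h2, S.card_XX tyL regL.tr, S.card_reg tyL hfix regL] at h1
  set q := Fintype.card F with hqdef
  have h3 : ∑ chi ∈ Irr (S.XX tyL), m chi ^ 2 = q := by
    have h4 : q ^ 2 * ∑ chi ∈ Irr (S.XX tyL), m chi ^ 2 = q ^ 2 * q := by
      rw [h1]
      obtain ⟨r, hr⟩ : ∃ r, q = r + 1 := ⟨q - 1, by omega⟩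
      rw [hr]
      simp only [Nat.add_sub_cancel]
      ring
    exact Nat.eq_of_mul_eq_mul_left (by positivity) h4
  have h4 : q + 2 ≤ (Irr (S.XX tyL)).card := S.card_conjL.trans card_conj_le
  -- those with m = 0
  have h5 : ((Irr (S.XX tyL)).filter (fun chi => m chi = 0)).card ≤ 2 := by
    apply S.card_lin
    intro chi hchi
    obtain ⟨h6, h7⟩ := Finset.mem_filter.mp hchi
    have h8 := hm chi h6
    rw [h7, Nat.cast_zero, mul_zero] at h8
    exact ⟨mem_Irr.mp h6, sub_eq_zero.mp h8⟩
  have h6 : (Irr (S.XX tyL)).card = ((Irr (S.XX tyL)).filter (fun chi => m chi = 0)).card +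
      ((Irr (S.XX tyL)).filter (fun chi => ¬ m chi = 0)).card :=
    (Finset.card_filter_add_card_filter_not _).symm
  have h7 : ∑ chi ∈ Irr (S.XX tyL), m chi ^ 2 =
      ∑ chi ∈ (Irr (S.XX tyL)).filter (fun chi => ¬ m chi = 0), m chi ^ 2 := by
    rw [← Finset.sum_filter_add_sum_filter_not (Irr (S.XX tyL)) (fun chi => m chi = 0),
      Finset.sum_eq_zero (s := (Irr (S.XX tyL)).filter (fun chi => m chi = 0)), zero_add]
    intro chi hchi
    rw [(Finset.mem_filter.mp hchi).2]
    rfl
  have hmem : chi ∈ Irr (S.XX tyL) := mem_Irr.mpr hchi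
  have hkm : k = m chi := by
    have h8 := hm chi hmem
    change chi 1 - chi (S.uu tyL 1) = _ at h8
    rw [hk] at h8
    exact_mod_cast mul_left_cancel₀ hq h8
  rw [hkm]
  by_contra hgt
  push Not at hgt
  have h9 : chi ∈ (Irr (S.XX tyL)).filter (fun chi => ¬ m chi = 0) :=
    Finset.mem_filter.mpr ⟨hmem, by omega⟩
  have h10 := Finset.add_sum_erase _ (fun chi => m chi ^ 2) h9
  have h11 : (((Irr (S.XX tyL)).filter (fun chi => ¬ m chi = 0)).erase chi).card ≤
      ∑ psi ∈ ((Irr (S.XX tyL)).filter (fun chi => ¬ m chi = 0)).erase chi, m psi ^ 2 := by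
    rw [Finset.card_eq_sum_ones]
    refine Finset.sum_le_sum fun psi hpsi => ?_
    have h12 := (Finset.mem_filter.mp (Finset.mem_of_mem_erase hpsi)).2
    exact Nat.one_le_pow _ _ (Nat.pos_of_ne_zero h12)
  rw [Finset.card_erase_of_mem h9] at h11
  have h12 : 4 ≤ m chi ^ 2 := by nlinarith
  beta_reduce at h10
  omega

end Inv

end Pool.Agent.X256.HC
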