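import Pool.Agent.X256.HC.Class

/-!
# Sums over the irreducible characters; Gelfand-Graev bookkeeping
-/

open scoped BigOperators Classical
open Representation Pool.Agent.Helper884.IC Pool.Agent.X256.CT

noncomputable section

namespace Pool.Agent.X256.CT

variable {G : Type} [Group G] [Fintype G]

/-- there are at least as many irreducible characters as conjugacy classes -/
lemma card_conj_le : Nat.card (ConjClasses G) ≤ (Irr G).card := by
  let Φ : ((Irr G) → ℂ) →ₗ[ℂ] (ConjClasses G → ℂ) := {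
    toFun := fun c C => ∑ chi : Irr G, c chi * (chi : G → ℂ) (Quotient.out C)
    map_add' := by
      intro a b
      funext C
      simp [add_mul, Finset.sum_add_distrib]
    map_smul' := by
      intro r a
      funext C
      simp [Finset.mul_sum, mul_assoc] }
  have hsurj : Function.Surjective Φ := by
    intro f
    let h : G → ℂ := fun g => f (ConjClasses.mk g)
    have hh : IsClass h := by
      intro g y
      simp only [h]
      congr 1
      rw [ConjClasses.mk_eq_mk_iff_isConj, isConj_comm]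
      exact isConj_iff.mpr ⟨y, rfl⟩
    refine ⟨fun chi => B h chi, ?_⟩
    funext C
    have h1 := congrFun (expand h hh) (Quotient.out C)
    have h2 : h (Quotient.out C) = f C := by
      simp only [h]
      congr 1
      exact Quotient.out_eq C
    rw [← h2, h1, Finset.sum_apply]
    change ∑ chi : Irr G, B h chi * (chi : G → ℂ) (Quotient.out C) = _
    rw [Finset.sum_coe_sort (Irr G) (fun chi => B h chi * chi (Quotient.out C))]
    rfl
  have h3 := LinearMap.finrank_le_finrank_of_surjective hsurj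
  rw [Module.finrank_fintype_fun_eq_card, Module.finrank_fintype_fun_eq_card] at h3
  rw [Nat.card_eq_fintype_card]
  simpa using h3

/-- the trivial character is irreducible -/
lemma one_irr : IsIrrChar (fun _ : G => (1 : ℂ)) := by
  have := isIrrChar_hom (1 : G →* ℂˣ)
  simpa using this

end Pool.Agent.X256.CT

namespace Pool.Agent.X256.HC.BN

variable {F X : Type} [Field F] [Fintype F] [Group X] [Fintype X] (A : BN F X)

lemma al_ne {c : A.C} {b : F} (hb : b ≠ 0) : A.al c b ≠ 0 := by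
  intro h
  apply hb
  apply A.u_inj
  have h1 := A.al_spec c b
  rw [h, A.u_zero] at h1
  rw [A.u_zero]
  have h2 : A.u b = (c : X)⁻¹ * ((c : X) * A.u b * (c : X)⁻¹) * c := by group
  rw [h2, h1]
  group

/-- the centraliser of a unipotent element -/
lemma card_cent : Nat.card {n : X // n * A.u 1 * n⁻¹ = A.u 1} =
    Fintype.card F * Nat.card {c : A.C // A.al c 1 = 1} := by
  rw [← Nat.card_eq_fintype_card (α := F), ← Nat.card_prod]
  symm
  refine Nat.card_congr (Equiv.ofBijective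
    (fun p : F × {c : A.C // A.al c 1 = 1} => (⟨A.u p.1 * (p.2.1 : X), ?_⟩ :
      {n : X // n * A.u 1 * n⁻¹ = A.u 1})) ⟨?_, ?_⟩)
  · have h1 := A.al_spec p.2.1 1
    rw [p.2.2] at h1
    calc A.u p.1 * (p.2.1 : X) * A.u 1 * (A.u p.1 * (p.2.1 : X))⁻¹
        = A.u p.1 * ((p.2.1 : X) * A.u 1 * (p.2.1 : X)⁻¹) * (A.u p.1)⁻¹ := by group
      _ = A.u (p.1 + 1 + -p.1) := by rw [h1, ← A.u_neg, ← A.u_add, ← A.u_add]
      _ = A.u 1 := by congr 1; ring
  · rintro ⟨b, c⟩ ⟨b', c'⟩ h
    have h1 : A.u b * (c.1 : X) = A.u b' * c'.1 := congrArg Subtype.val h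
    obtain ⟨h2, h3⟩ := A.uc_inj h1
    rw [h2, Subtype.ext h3]
  · rintro ⟨n, hn⟩
    rcases A.cover n with ⟨b, c, hc, rfl⟩ | ⟨a, b, c, hc, rfl⟩
    · refine ⟨(b, ⟨⟨c, hc⟩, ?_⟩), rfl⟩
      have h1 := A.al_spec ⟨c, hc⟩ 1
      apply A.u_inj
      rw [← h1]
      have h2 : (c : X) * A.u 1 * c⁻¹ = (A.u b)⁻¹ * (A.u b * c * A.u 1 * (A.u b * c)⁻¹) * A.u b := by
        group
      change c * A.u 1 * c⁻¹ = A.u 1
      rw [h2, hn, ← A.u_neg, ← A.u_add, ← A.u_add]
      congr 1
      ring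
    · exfalso
      have h1 : A.w * (A.u b * (c * A.u 1 * c⁻¹) * (A.u b)⁻¹) * A.w = (A.u a)⁻¹ * A.u 1 * A.u a := by
        have h2 : A.w⁻¹ = A.w := A.w_inv
        calc A.w * (A.u b * (c * A.u 1 * c⁻¹) * (A.u b)⁻¹) * A.w
            = A.w * (A.u b * (c * A.u 1 * c⁻¹) * (A.u b)⁻¹) * A.w⁻¹ := by rw [h2]
          _ = (A.u a)⁻¹ * (A.u a * A.w * (A.u b * c) * A.u 1 * (A.u a * A.w * (A.u b * c))⁻¹) *
              A.u a := by group
          _ = _ := by rw [hn]
      have h3 := A.al_spec ⟨c, hc⟩ 1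
      have h3' : c * A.u 1 * c⁻¹ = A.u (A.al ⟨c, hc⟩ 1) := h3
      have h4 : A.u b * (c * A.u 1 * c⁻¹) * (A.u b)⁻¹ = A.u (A.al ⟨c, hc⟩ 1) := by
        rw [h3', ← A.u_neg, ← A.u_add, ← A.u_add]
        congr 1
        ring
      rw [h4] at h1
      have h5 : A.InB (A.w * (A.u (A.al ⟨c, hc⟩ 1) * ((1 : A.C) : X)) * A.w) := by
        rw [Subgroup.coe_one, mul_one, h1, ← A.u_neg, ← A.u_add, ← A.u_add]
        exact ⟨_, 1, A.C.one_mem, by rw [mul_one]⟩
      exact A.al_ne (c := ⟨c, hc⟩) (one_ne_zero (α := F)) (A.wuw_notB 1 h5)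

lemma col_one : ∑ chi ∈ Irr X, chi 1 * chi (A.u 1) = 0 := by
  have h := Pool.Agent.Y63.AWC.col_orth (1 : X) (A.u 1)
  have h1 : Nat.card {n : X // n * 1 * n⁻¹ = A.u 1} = 0 := by
    rw [Nat.card_eq_zero]
    left
    refine ⟨?_⟩
    rintro ⟨n, hn⟩
    rw [mul_one, mul_inv_cancel, ← A.u_zero] at hn
    exact one_ne_zero (A.u_inj hn).symm
  rw [h1] at h
  rw [Nat.cast_zero] at h
  rw [← h]
  refine Finset.sum_congr rfl fun chi hchi => ?_
  congr 1
  rw [← A.u_neg, A.unip (mem_Irr.mp hchi).isClass (neg_ne_zero.mpr one_ne_zero)]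

lemma col_u : ∑ chi ∈ Irr X, chi (A.u 1) ^ 2 =
    (Fintype.card F : ℂ) * (Nat.card {c : A.C // A.al c 1 = 1} : ℂ) := by
  have h := Pool.Agent.Y63.AWC.col_orth (A.u 1) (A.u 1)
  rw [A.card_cent] at h
  push_cast at h
  rw [← h]
  refine Finset.sum_congr rfl fun chi hchi => ?_
  rw [← A.u_neg, A.unip (mem_Irr.mp hchi).isClass (neg_ne_zero.mpr one_ne_zero)]
  ring

lemma col_deg : ∑ chi ∈ Irr X, chi 1 ^ 2 = (Nat.card X : ℂ) := by
  have h := Pool.Agent.Y63.AWC.col_orth (1 : X) 1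
  have h1 : Nat.card {n : X // n * 1 * n⁻¹ = 1} = Nat.card X := by
    refine Nat.card_congr (Equiv.subtypeUnivEquiv fun n => ?_)
    group
  rw [h1] at h
  rw [← h]
  refine Finset.sum_congr rfl fun chi _ => ?_
  rw [inv_one]
  ring

/-- the sum of the squares of the multiplicities -/
lemma sum_m {m : (X → ℂ) → ℕ} (hm : ∀ chi ∈ Irr X, chi 1 - chi (A.u 1) = (Fintype.card F : ℂ) * m chi) :
    (Fintype.card F) ^ 2 * ∑ chi ∈ Irr X, m chi ^ 2 =
      Nat.card X + Fintype.card F * Nat.card {c : A.C // A.al c 1 = 1} := by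
  have h : (((Fintype.card F) ^ 2 * ∑ chi ∈ Irr X, m chi ^ 2 : ℕ) : ℂ) =
      ((Nat.card X + Fintype.card F * Nat.card {c : A.C // A.al c 1 = 1} : ℕ) : ℂ) := by
    push_cast
    rw [← col_deg (X := X), ← A.col_u, Finset.mul_sum]
    have h1 : ∑ chi ∈ Irr X, (Fintype.card F : ℂ) ^ 2 * (m chi : ℂ) ^ 2 =
        ∑ chi ∈ Irr X, (chi 1 ^ 2 + chi (A.u 1) ^ 2 - 2 * (chi 1 * chi (A.u 1))) := by
      refine Finset.sum_congr rfl fun chi hchi => ?_
      rw [← mul_pow, ← hm chi hchi]
      ring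
    rw [h1, Finset.sum_sub_distrib, Finset.sum_add_distrib, ← Finset.mul_sum, A.col_one]
    ring
  exact_mod_cast h

/-- linear characters: the strengthened form -/
lemma lin_of_m' (hAb : A.Ab) {chi : X → ℂ} (hirr : IsIrrChar chi) (hm : chi 1 = chi (A.u 1)) :
    chi 1 = 1 ∧ (∀ x y, chi (x * y) = chi x * chi y) := by
  have h1 := A.lin_of_m hAb hirr hm
  refine ⟨h1, ?_⟩
  obtain ⟨V, _, _, _, rho, hr, rfl⟩ := hirr
  -- one-dimensional
  have hd : Module.finrank ℂ V = 1 := by
    have h2 := rho.char_one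
    rw [h1] at h2
    exact_mod_cast h2.symm
  have hsc : ∀ T : V →ₗ[ℂ] V, ∃ c : ℂ, T = c • LinearMap.id := by
    intro T
    obtain ⟨v, hv, hspan⟩ := finrank_eq_one_iff'.mp hd
    obtain ⟨c, hc⟩ := hspan (T v)
    refine ⟨c, ?_⟩
    ext y
    obtain ⟨r, rfl⟩ := hspan y
    rw [map_smul, ← hc, LinearMap.smul_apply, LinearMap.id_apply, smul_comm]
  have hcomm : ∀ x y : X, rho x * rho y = rho y * rho x := by
    intro x y
    obtain ⟨c, hc⟩ := hsc (rho x)
    obtain ⟨d, hd⟩ := hsc (rho y)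
    rw [hc, hd, smul_mul_smul_comm, smul_mul_smul_comm, mul_comm]
  exact (comm_irr rho hr hcomm).2

/-- for functions with zero Harish-Chandra restriction, values at fixed point free elements -/
lemma fpf_val {chi : X → ℂ} (hchi : IsClass chi) (c : A.C) (hc : ∀ b, A.al c b = b → b = 0) (b : F) :
    chi (A.u b * c) = chi c := by
  have hadd : ∀ x y, A.al c (x + y) = A.al c x + A.al c y := by
    intro x y
    apply A.u_inj
    rw [A.u_add, ← A.al_spec, ← A.al_spec, ← A.al_spec, A.u_add]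
    group
  have hneg : ∀ x, A.al c (-x) = - A.al c x := by
    intro x
    have h0 : A.al c 0 = 0 := by
      have := hadd 0 0
      rw [add_zero] at this
      exact left_eq_add.mp this
    have := hadd x (-x)
    rw [add_neg_cancel, h0] at this
    exact (neg_eq_of_add_eq_zero_right this.symm).symm
  have hinj : Function.Injective (fun v => v - A.al c v) := by
    intro x y h
    simp only at h
    have h1 : A.al c (x - y) = x - y := by
      rw [sub_eq_add_neg, hadd, hneg]
      linear_combination -h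
    exact sub_eq_zero.mp (hc _ h1)
  obtain ⟨v, hv⟩ := (Finite.injective_iff_surjective.mp hinj) b
  simp only at hv
  rw [← hchi c (A.u v)]
  congr 1
  have h1 := A.c_u c (-v)
  calc A.u b * c = A.u v * A.u (A.al c (-v)) * c := by
        rw [← A.u_add, hneg, ← hv, sub_eq_add_neg]
    _ = A.u v * (c * A.u (-v)) := by rw [h1]; group
    _ = _ := by rw [A.u_neg]; group

lemma cusp_zero {chi : X → ℂ} (hchi : IsClass chi) (hres : ∀ c, A.res chi c = 0) (c : A.C)
    (hc : ∀ b, A.al c b = b → b = 0) (b : F) : chi (A.u b * c) = 0 := by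
  rw [A.fpf_val hchi c hc b]
  have h1 := hres c
  unfold res at h1
  rw [Finset.sum_congr rfl fun b _ => A.fpf_val hchi c hc b, Finset.sum_const, Finset.card_univ,
    nsmul_eq_mul, ← mul_assoc, inv_mul_cancel₀ cF, one_mul] at h1
  exact h1

end Pool.Agent.X256.HC.BN
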