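import Pool.Agent.X256.HC.Class

/-!
# Semilinear fractional transformations over a field with `p^2` elements
-/

open scoped BigOperators Classical
open Matrix OnePoint

noncomputable section

namespace Pool.Agent.X256.HC

variable (F : Type) [Field F] [Fintype F]

/-- the data of an involutive field automorphism and odd characteristic -/
structure Inv where
  s : F →+* F
  ss : ∀ x, s (s x) = x
  two : (2 : F) ≠ 0

variable {F}

namespace Inv

variable (S : Inv F)

lemma s_inj {x y : F} (h : S.s x = S.s y) : x = y := by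
  rw [← S.ss x, ← S.ss y, h]

lemma s_ne {x : F} (h : x ≠ 0) : S.s x ≠ 0 := fun h' => h (S.s_inj (by rw [h', map_zero]))

/-- the power `s^j` -/
def sj (j : Bool) : F →+* F := if j then S.s else RingHom.id F

lemma sj_true : S.sj true = S.s := rfl
lemma sj_false : S.sj false = RingHom.id F := rfl

/-- the field automorphism acting on the projective line -/
def fr : Equiv.Perm (OnePoint F) where
  toFun := OnePoint.map S.s
  invFun := OnePoint.map S.s
  left_inv := by
    intro x
    cases x with
    | infty => rfl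
    | coe x => simp [S.ss]
  right_inv := by
    intro x
    cases x with
    | infty => rfl
    | coe x => simp [S.ss]

lemma fr_infty : S.fr ∞ = ∞ := rfl
lemma fr_coe (x : F) : S.fr (x : OnePoint F) = (S.s x : F) := rfl

/-- powers -/
def frj (j : Bool) : Equiv.Perm (OnePoint F) := if j then S.fr else 1

lemma frj_infty (j : Bool) : S.frj j ∞ = ∞ := by cases j <;> rfl
lemma frj_coe (j : Bool) (x : F) : S.frj j (x : OnePoint F) = ((S.sj j x : F) : OnePoint F) := by
  cases j <;> rfl

lemma frj_mul (j k : Bool) : S.frj j * S.frj k = S.frj (xor j k) := by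
  have h : S.fr * S.fr = 1 := by
    ext x
    change S.fr (S.fr x) = x
    cases x with
    | infty => rfl
    | coe x => rw [S.fr_coe, S.fr_coe, S.ss]
  cases j <;> cases k <;> simp [frj, h]

end Inv

/-- the action of `GL_2` -/
def gl : GL (Fin 2) F →* Equiv.Perm (OnePoint F) := MulAction.toPermHom (GL (Fin 2) F) (OnePoint F)

lemma gl_infty (g : GL (Fin 2) F) : gl g ∞ = if g 1 0 = 0 then ∞ else ((g 0 0 / g 1 0 : F) : OnePoint F) :=
  OnePoint.smul_infty_eq_ite g

lemma gl_coe (g : GL (Fin 2) F) (k : F) : gl g (k : OnePoint F) =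
    if g 1 0 * k + g 1 1 = 0 then ∞ else
      (((g 0 0 * k + g 0 1) / (g 1 0 * k + g 1 1) : F) : OnePoint F) := by
  have h := OnePoint.smul_some_eq_ite (g := g) (k := k)
  exact h

/-- an invertible matrix from entries -/
def mkg (a b c d : F) (h : a * d - b * c ≠ 0) : GL (Fin 2) F :=
  Matrix.GeneralLinearGroup.mkOfDetNeZero !![a, b; c, d] (by rwa [Matrix.det_fin_two_of])

lemma mk00 (a b c d : F) (h) : (mkg a b c d h) 0 0 = a := rfl
lemma mk01 (a b c d : F) (h) : (mkg a b c d h) 0 1 = b := rfl
lemma mk10 (a b c d : F) (h) : (mkg a b c d h) 1 0 = c := rfl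
lemma mk11 (a b c d : F) (h) : (mkg a b c d h) 1 1 = d := rfl

/-- determinant of an invertible matrix -/
def dt (g : GL (Fin 2) F) : F := (g : Matrix (Fin 2) (Fin 2) F).det

lemma dt_eq (g : GL (Fin 2) F) : dt g = g 0 0 * g 1 1 - g 0 1 * g 1 0 := Matrix.det_fin_two _

lemma dt_ne (g : GL (Fin 2) F) : dt g ≠ 0 := g.det_ne_zero

lemma dt_mul (g h : GL (Fin 2) F) : dt (g * h) = dt g * dt h := Matrix.det_mul _ _

lemma dt_mk (a b c d : F) (h) : dt (mkg a b c d h) = a * d - b * c := by
  rw [dt_eq, mk00, mk01, mk10, mk11]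

namespace Inv

variable (S : Inv F)

/-- the automorphism on matrices -/
def gj (j : Bool) (g : GL (Fin 2) F) : GL (Fin 2) F := g.map (S.sj j)

lemma gj_apply (j : Bool) (g : GL (Fin 2) F) (a b : Fin 2) : S.gj j g a b = S.sj j (g a b) := rfl

lemma dt_gj (j : Bool) (g : GL (Fin 2) F) : dt (S.gj j g) = S.sj j (dt g) := by
  rw [dt_eq, dt_eq]
  simp only [gj_apply, map_sub, map_mul]

lemma frj_gl (j : Bool) (g : GL (Fin 2) F) : S.frj j * gl g = gl (S.gj j g) * S.frj j := by
  ext x
  change S.frj j (gl g x) = gl (S.gj j g) (S.frj j x)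
  have h := OnePoint.map_smul (S.sj j) g x
  have h1 : ∀ y, S.frj j y = OnePoint.map (S.sj j) y := by
    intro y
    cases y with
    | infty => rw [S.frj_infty]; rfl
    | coe y => rw [S.frj_coe]; rfl
  rw [h1, h1]
  exact h

/-- squares -/
lemma sq_sj (j : Bool) (x : F) : IsSquare (S.sj j x) ↔ IsSquare x := by
  have key : ∀ y : F, IsSquare y → IsSquare (S.sj j y) := fun y hy => hy.map (S.sj j)
  constructor
  · intro h
    have h1 := key _ h
    cases j with
    | false => exact h
    | true =>
      have : S.sj true (S.sj true x) = x := S.ss x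
      rwa [this] at h1
  · exact key x

end Inv

lemma sq_mul (h2 : (2 : F) ≠ 0) {x y : F} (hx : x ≠ 0) (hy : y ≠ 0) :
    IsSquare (x * y) ↔ (IsSquare x ↔ IsSquare y) := by
  have hchar : ringChar F ≠ 2 := by
    intro h
    apply h2
    have := ringChar.Nat.cast_ringChar (R := F)
    rw [h] at this
    exact_mod_cast this
  have key : ∀ {z : F} (hz : z ≠ 0), IsSquare z ↔ quadraticChar F z = 1 := fun hz =>
    (quadraticChar_one_iff_isSquare hz).symm
  rw [key (mul_ne_zero hx hy), key hx, key hy, map_mul]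
  rcases quadraticChar_dichotomy hx with h | h <;> rcases quadraticChar_dichotomy hy with h' | h' <;>
    rw [h, h'] <;> norm_num

/-- a type of subgroup: closed under addition in `(Z/2)^2` -/
structure Ty where
  T : Bool → Bool → Prop
  zero : T false false
  add : ∀ t j t' j', T t j → T t' j' → T (xor t t') (xor j j')

namespace Inv

variable (S : Inv F)

/-- the condition on `(g, j)` -/
def ok (T : Ty) (g : GL (Fin 2) F) (j : Bool) : Prop :=
  ∃ t, T.T t j ∧ (IsSquare (dt g) ↔ t = false)

lemma ok_mul (T : Ty) {g h : GL (Fin 2) F} {j k : Bool} (hg : ok T g j) (hh : ok T h k) :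
    ok T (g * S.gj j h) (xor j k) := by
  obtain ⟨t, h1, h2⟩ := hg
  obtain ⟨t', h3, h4⟩ := hh
  refine ⟨xor t t', T.add _ _ _ _ h1 h3, ?_⟩
  rw [dt_mul, sq_mul S.two (dt_ne _) (dt_ne _), S.dt_gj, S.sq_sj, h2, h4]
  cases t <;> cases t' <;> simp

/-- the subgroup of the symmetric group attached to a type -/
def Xt (T : Ty) : Subgroup (Equiv.Perm (OnePoint F)) where
  carrier := {x | ∃ g j, ok T g j ∧ x = gl g * S.frj j}
  mul_mem' := by
    rintro _ _ ⟨g, j, h1, rfl⟩ ⟨g', j', h1', rfl⟩
    refine ⟨g * S.gj j g', xor j j', S.ok_mul T h1 h1', ?_⟩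
    rw [map_mul, ← S.frj_mul]
    calc gl g * S.frj j * (gl g' * S.frj j') = gl g * (S.frj j * gl g') * S.frj j' := by group
      _ = gl g * (gl (S.gj j g') * S.frj j) * S.frj j' := by rw [S.frj_gl]
      _ = _ := by group
  one_mem' := by
    refine ⟨1, false, ⟨false, T.zero, ?_⟩, ?_⟩
    · have : dt (1 : GL (Fin 2) F) = 1 := by unfold dt; simp
      rw [this]
      simp
    · rw [map_one, one_mul]
      rfl
  inv_mem' := by
    intro x hx
    have hpow : ∀ k : ℕ, ∃ g j, ok T g j ∧ x ^ (k + 1) = gl g * S.frj j := by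
      intro k
      induction k with
      | zero => rw [zero_add, pow_one]; exact hx
      | succ k ih =>
        obtain ⟨g, j, h1, h2⟩ := ih
        obtain ⟨g', j', h1', h2'⟩ := hx
        refine ⟨g * S.gj j g', xor j j', S.ok_mul T h1 h1', ?_⟩
        rw [pow_succ, h2, h2', map_mul, ← S.frj_mul]
        calc gl g * S.frj j * (gl g' * S.frj j') = gl g * (S.frj j * gl g') * S.frj j' := by group
          _ = gl g * (gl (S.gj j g') * S.frj j) * S.frj j' := by rw [S.frj_gl]
          _ = _ := by group
    have h1 : x⁻¹ = x ^ (2 * orderOf x - 1) := by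
      rw [inv_eq_iff_mul_eq_one, ← pow_succ', Nat.sub_add_cancel (by have := orderOf_pos x; omega),
        two_mul, pow_add, pow_orderOf_eq_one, one_mul]
    have h2 : 2 * orderOf x - 1 = (2 * orderOf x - 2) + 1 := by have := orderOf_pos x; omega
    rw [h1, h2]
    exact hpow _

end Inv

end Pool.Agent.X256.HC
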