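import Pool.Agent.X256.HC.Field25
import Mathlib.LinearAlgebra.Projectivization.PSL.PSL2

/-!
# The full group as a group of automorphisms of `PSL_2`
-/

open scoped BigOperators Classical
open Matrix OnePoint Pool.Agent.Helper884.IC Pool.Agent.X256.CT

noncomputable section

namespace Pool.Agent.X256.HC

variable {F : Type} [Field F] [Fintype F]

namespace Inv

variable (S : Inv F)

/-- `SL_2` maps to the full group -/
def sl : SpecialLinearGroup (Fin 2) F →* S.XX tyH where
  toFun g := ⟨gl (g : GL (Fin 2) F), (g : GL (Fin 2) F), false,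
    ⟨nsq (dt (g : GL (Fin 2) F)), trivial, nsq_iff _⟩, by simp [frj]⟩
  map_one' := by
    apply Subtype.ext
    change gl ((1 : SpecialLinearGroup (Fin 2) F) : GL (Fin 2) F) = 1
    rw [map_one, map_one]
  map_mul' g h := by
    apply Subtype.ext
    change gl ((g * h : SpecialLinearGroup (Fin 2) F) : GL (Fin 2) F) = gl _ * gl _
    rw [map_mul, map_mul]

lemma sl_val (g : SpecialLinearGroup (Fin 2) F) : (S.sl g).1 = gl (g : GL (Fin 2) F) := rfl

lemma exists_sl {g : GL (Fin 2) F} (h : dt g = 1) : ∃ k : SpecialLinearGroup (Fin 2) F,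
    (k : GL (Fin 2) F) = g := ⟨⟨(g : Matrix (Fin 2) (Fin 2) F), h⟩, Units.ext rfl⟩

lemma dt_sl (g : SpecialLinearGroup (Fin 2) F) : dt (g : GL (Fin 2) F) = 1 := g.2

/-- the socle -/
def soc : Subgroup (S.XX tyH) := S.sl.range

instance soc_normal : (S.soc).Normal := by
  constructor
  rintro _ ⟨k, rfl⟩ x
  obtain ⟨g, j, -, hg⟩ := x.2
  have h1 : dt (g * S.gj j (k : GL (Fin 2) F) * g⁻¹) = 1 := by
    rw [dt_conj, S.dt_gj, dt_sl, map_one]
  obtain ⟨k', hk'⟩ := exists_sl h1
  refine ⟨k', ?_⟩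
  apply Subtype.ext
  change gl (k' : GL (Fin 2) F) = x.1 * gl (k : GL (Fin 2) F) * (x.1)⁻¹
  rw [hk', hg, map_mul, map_mul, map_inv, _root_.mul_inv_rev]
  calc gl g * gl (S.gj j (k : GL (Fin 2) F)) * (gl g)⁻¹
      = gl g * (gl (S.gj j (k : GL (Fin 2) F)) * S.frj j) * (S.frj j)⁻¹ * (gl g)⁻¹ := by group
    _ = gl g * (S.frj j * gl (k : GL (Fin 2) F)) * (S.frj j)⁻¹ * (gl g)⁻¹ := by rw [S.frj_gl]
    _ = _ := by group

lemma ker_sl : S.sl.ker = Subgroup.center (SpecialLinearGroup (Fin 2) F) := by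
  ext g
  rw [MonoidHom.mem_ker, Matrix.SpecialLinearGroup.mem_center_iff]
  constructor
  · intro h
    have h1 : gl (g : GL (Fin 2) F) = 1 := congrArg Subtype.val h
    obtain ⟨h10, h01, h00⟩ := gl_ker h1
    have e10 : g.1 1 0 = 0 := h10
    have e01 : g.1 0 1 = 0 := h01
    have e00 : g.1 0 0 = g.1 1 1 := h00
    refine ⟨g.1 0 0, ?_, ?_⟩
    · have h2 := g.2
      rw [Matrix.det_fin_two, e10, mul_zero, sub_zero, ← e00] at h2
      rw [Fintype.card_fin, pow_two]
      exact h2
    · ext i j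
      fin_cases i <;> fin_cases j
      · simp
      · simpa using e01.symm
      · simpa using e10.symm
      · simpa using e00
  · rintro ⟨r, hr, hg⟩
    rw [Fintype.card_fin] at hr
    have hr0 : r ≠ 0 := by
      rintro rfl
      norm_num at hr
    have e : ∀ i j, g.1 i j = (scalar (Fin 2) r) i j := fun i j => by rw [hg]
    have e10 : (g : GL (Fin 2) F) 1 0 = 0 := by
      change g.1 1 0 = 0
      rw [e]; simp
    have e01 : (g : GL (Fin 2) F) 0 1 = 0 := by
      change g.1 0 1 = 0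
      rw [e]; simp
    have e00 : (g : GL (Fin 2) F) 0 0 = r := by
      change g.1 0 0 = r
      rw [e]; simp
    have e11 : (g : GL (Fin 2) F) 1 1 = r := by
      change g.1 1 1 = r
      rw [e]; simp
    apply S.ext_XX tyH
    · change gl (g : GL (Fin 2) F) ∞ = ∞
      rw [gl_infty, e10, if_pos rfl]
    · intro x
      change gl (g : GL (Fin 2) F) x = x
      rw [gl_coe, e10, e11, e00, e01, zero_mul, zero_add, if_neg hr0]
      congr 1
      field_simp
      ring

/-- the socle is `PSL_2` -/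
def pslE : ProjectiveSpecialLinearGroup (Fin 2) F ≃* S.soc :=
  (QuotientGroup.quotientMulEquivOfEq S.ker_sl.symm).trans (QuotientGroup.quotientKerEquivRange S.sl)

/-- the action on the simple group -/
def act : S.XX tyH →* MulAut (ProjectiveSpecialLinearGroup (Fin 2) F) :=
  (MulAut.congr S.pslE.symm).toMonoidHom.comp (MulAut.conjNormal (H := S.soc))

lemma act_conj (s : ProjectiveSpecialLinearGroup (Fin 2) F) :
    S.act ((S.pslE s : S.soc) : S.XX tyH) = MulAut.conj s := by
  ext t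
  change S.pslE.symm (MulAut.conjNormal ((S.pslE s : S.soc) : S.XX tyH) (S.pslE t)) = s * t * s⁻¹
  rw [MulEquiv.symm_apply_eq]
  apply Subtype.ext
  rw [MulAut.conjNormal_apply, map_mul, map_mul, map_inv]
  rfl

/-- translations are in the socle -/
lemma uu_soc (b : F) : S.uu tyH b ∈ S.soc := by
  have h1 : dt (mkg 1 b 0 1 (by simp)) = 1 := by rw [dt_mk]; ring
  obtain ⟨k, hk⟩ := exists_sl h1
  refine ⟨k, Subtype.ext ?_⟩
  change gl (k : GL (Fin 2) F) = gl _
  rw [hk]

lemma ww_soc : S.ww tyH ∈ S.soc := by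
  have h1 : dt (mkg 0 1 (-1) 0 (by simp : (0 : F) * 0 - 1 * (-1) ≠ 0)) = 1 := by rw [dt_mk]; ring
  obtain ⟨k, hk⟩ := exists_sl h1
  refine ⟨k, Subtype.ext ?_⟩
  change gl (k : GL (Fin 2) F) = gl _
  rw [hk]

lemma act_inj : Function.Injective S.act := by
  rw [injective_iff_map_eq_one]
  intro x hx
  have h1 : ∀ n ∈ S.soc, x * n = n * x := by
    intro n hn
    have h2 : (MulAut.conjNormal (H := S.soc)) x = 1 := by
      apply (MulAut.congr S.pslE.symm).injective
      rw [map_one]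
      exact hx
    have h3 := congrArg (fun f : MulAut S.soc => ((f ⟨n, hn⟩ : S.soc) : S.XX tyH)) h2
    simp only [MulAut.conjNormal_apply] at h3
    change x * n * x⁻¹ = n at h3
    rw [mul_inv_eq_iff_eq_mul] at h3
    exact h3
  have hu := fun b => h1 _ (S.uu_soc b)
  have hw := h1 _ S.ww_soc
  -- fixed point
  have hinf : x.1 ∞ = ∞ := by
    have h2 := congrArg (fun y : S.XX tyH => y.1 ∞) (hu 1)
    change x.1 ((S.uu tyH 1).1 ∞) = (S.uu tyH 1).1 (x.1 ∞) at h2
    rw [S.uu_infty] at h2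
    cases hx' : x.1 ∞ with
    | infty => rfl
    | coe p =>
      exfalso
      rw [hx', S.uu_coe, OnePoint.coe_eq_coe] at h2
      exact one_ne_zero (left_eq_add.mp h2)
  have h0 : x.1 ((0 : F) : OnePoint F) = ((0 : F) : OnePoint F) := by
    have h2 := congrArg (fun y : S.XX tyH => y.1 ∞) hw
    change x.1 ((S.ww tyH).1 ∞) = (S.ww tyH).1 (x.1 ∞) at h2
    rw [S.ww_infty, hinf, S.ww_infty] at h2
    exact h2
  apply S.ext_XX tyH
  · exact hinf
  · intro y
    have h2 := congrArg (fun z : S.XX tyH => z.1 ((0 : F) : OnePoint F)) (hu y)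
    change x.1 ((S.uu tyH y).1 ((0 : F) : OnePoint F)) =
      (S.uu tyH y).1 (x.1 ((0 : F) : OnePoint F)) at h2
    rw [S.uu_coe, h0, S.uu_coe, zero_add] at h2
    exact h2

end Inv

end Pool.Agent.X256.HC
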