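import Pool.Agent.X256.HC.Ver
import Pool.Agent.X256.HC.More

/-!
# The two-point stabiliser: coordinates and cardinality
-/

open scoped BigOperators Classical
open Matrix OnePoint Pool.Agent.Helper884.IC Pool.Agent.X256.CT

noncomputable section

namespace Pool.Agent.X256.HC

variable {F : Type} [Field F] [Fintype F]

/-- nonsquare indicator -/
def nsq (a : F) : Bool := if IsSquare a then false else true

lemma nsq_iff (a : F) : IsSquare a ↔ nsq a = false := by
  unfold nsq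
  split_ifs with h <;> simp [h]

lemma nsq_eq_of_iff {a b : F} (h : IsSquare a ↔ IsSquare b) : nsq a = nsq b := by
  unfold nsq
  by_cases h1 : IsSquare a
  · rw [if_pos h1, if_pos (h.mp h1)]
  · rw [if_neg h1, if_neg (fun h2 => h1 (h.mpr h2))]

lemma nsq_mul (h2 : (2 : F) ≠ 0) {a b : F} (ha : a ≠ 0) (hb : b ≠ 0) :
    nsq (a * b) = xor (nsq a) (nsq b) := by
  have h := sq_mul h2 ha hb
  by_cases h1 : IsSquare a <;> by_cases h3 : IsSquare b <;> simp [nsq, h, h1, h3]

namespace Inv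

variable (S : Inv F) (T : Ty)

lemma nsq_sj (j : Bool) (a : F) : nsq (S.sj j a) = nsq a := nsq_eq_of_iff (S.sq_sj j a)

lemma sj_ne (j : Bool) {x : F} (hx : x ≠ 0) : S.sj j x ≠ 0 := by
  cases j with
  | false => exact hx
  | true => exact S.s_ne hx

lemma sj_sj (j : Bool) (x : F) : S.sj j (S.sj j x) = x := by
  cases j with
  | false => rfl
  | true => exact S.ss x

lemma sj_xor (j k : Bool) (x : F) : S.sj (xor j k) x = S.sj j (S.sj k x) := by
  cases j <;> cases k
  · rfl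
  · rfl
  · rfl
  · exact (S.ss x).symm

/-- coordinates on the two-point stabiliser -/
def mc (a : F) (ha : a ≠ 0) (j : Bool) (h : T.T (nsq a) j) : S.CC T :=
  ⟨S.cc T a ha j (nsq a) h (nsq_iff a), S.cc_mem T _ _ _ _ _ _⟩

lemma mc_coe (a : F) (ha : a ≠ 0) (j : Bool) (h : T.T (nsq a) j) (b : F) :
    ((S.mc T a ha j h : S.XX T) : Equiv.Perm (OnePoint F)) (b : OnePoint F) =
      ((a * S.sj j b : F) : OnePoint F) := S.cc_coe T a ha j (nsq a) h (nsq_iff a) b

lemma ext_CC {c d : S.CC T} (h : ∀ x : F, ((c : S.XX T) : Equiv.Perm (OnePoint F)) (x : OnePoint F) =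
    ((d : S.XX T) : Equiv.Perm (OnePoint F)) (x : OnePoint F)) : c = d := by
  apply Subtype.ext
  apply S.ext_XX T
  · rw [c.2.1, d.2.1]
  · exact h

lemma exists_mc (c : S.CC T) : ∃ (a : F) (ha : a ≠ 0) (j : Bool) (h : T.T (nsq a) j),
    c = S.mc T a ha j h := by
  obtain ⟨a, j, t, ha, ht, hs, hf⟩ := S.form T c.2
  have h1 : nsq a = t := by
    cases t with
    | false => exact (nsq_iff a).mp (hs.mpr rfl)
    | true =>
      cases h2 : nsq a with
      | true => rfl
      | false => exact absurd (hs.mp ((nsq_iff a).mpr h2)) (by simp)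
  refine ⟨a, ha, j, by rw [h1]; exact ht, ?_⟩
  apply S.ext_CC T
  intro x
  rw [hf x, S.mc_coe]

lemma al_mc (hT : Tr T) (a : F) (ha : a ≠ 0) (j : Bool) (h : T.T (nsq a) j) (b : F) :
    (S.bn T hT).al (S.mc T a ha j h) b = a * S.sj j b := by
  change toF (((S.mc T a ha j h : S.XX T) : Equiv.Perm (OnePoint F)) (b : OnePoint F)) = _
  rw [S.mc_coe]
  rfl

lemma mc_mul (a : F) (ha : a ≠ 0) (j : Bool) (h : T.T (nsq a) j) (a' : F) (ha' : a' ≠ 0)
    (j' : Bool) (h' : T.T (nsq a') j') (h'' : T.T (nsq (a * S.sj j a')) (xor j j')) :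
    S.mc T a ha j h * S.mc T a' ha' j' h' =
      S.mc T (a * S.sj j a') (mul_ne_zero ha (S.sj_ne j ha')) (xor j j') h'' := by
  apply S.ext_CC T
  intro x
  change ((S.mc T a ha j h : S.XX T) : Equiv.Perm (OnePoint F))
    (((S.mc T a' ha' j' h' : S.XX T) : Equiv.Perm (OnePoint F)) (x : OnePoint F)) = _
  rw [S.mc_coe, S.mc_coe, S.mc_coe, S.sj_xor, map_mul]
  congr 1
  ring

lemma T_inv {a : F} (ha : a ≠ 0) {j : Bool} (h : T.T (nsq a) j) : T.T (nsq a⁻¹) j := by
  have h1 : nsq a⁻¹ = nsq a := by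
    apply nsq_eq_of_iff
    constructor
    · intro h; have := h.inv; rwa [inv_inv] at this
    · intro h; exact h.inv
  rw [h1]
  exact h

lemma w_mc_w (hT : Tr T) (a : F) (ha : a ≠ 0) (j : Bool) (h : T.T (nsq a) j) :
    (⟨S.ww T * S.mc T a ha j h * S.ww T, (S.bn T hT).w_conj _ (S.mc T a ha j h).2⟩ : S.CC T) =
      S.mc T a⁻¹ (inv_ne_zero ha) j (T_inv T ha h) := by
  apply S.ext_CC T
  intro x
  change (S.ww T : Equiv.Perm (OnePoint F))
    (((S.mc T a ha j h : S.XX T) : Equiv.Perm (OnePoint F)) ((S.ww T : Equiv.Perm (OnePoint F)) x)) = _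
  rw [S.mc_coe]
  by_cases hx : x = 0
  · subst hx
    rw [S.ww_zero, (S.mc T a ha j h).2.1, S.ww_infty, map_zero, mul_zero]
  · rw [S.ww_coe T hx, S.mc_coe, S.ww_coe]
    · congr 1
      rw [map_neg, map_inv₀]
      have := S.sj_ne j hx
      field_simp
    · apply mul_ne_zero ha
      apply S.sj_ne
      simpa using hx

lemma not_id (hfix : ∀ x, S.s x = x → IsSquare x) : ∃ x, S.s x ≠ x := by
  by_contra h
  push Not at h
  have hc : ringChar F ≠ 2 := by
    intro hc
    apply S.two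
    have := ringChar.Nat.cast_ringChar (R := F)
    rw [hc] at this
    exact_mod_cast this
  obtain ⟨a, ha⟩ := FiniteField.exists_nonsquare hc
  exact ha (hfix a (h a))

lemma sq_neg (hfix : ∀ x, S.s x = x → IsSquare x) : IsSquare (-1 : F) :=
  hfix _ (by rw [map_neg, map_one])

lemma mc_inj (hfix : ∀ x, S.s x = x → IsSquare x) {a : F} {ha : a ≠ 0} {j : Bool}
    {h : T.T (nsq a) j} {a' : F} {ha' : a' ≠ 0} {j' : Bool} {h' : T.T (nsq a') j'}
    (he : S.mc T a ha j h = S.mc T a' ha' j' h') : a = a' ∧ j = j' := by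
  have h0 : ∀ x : F, a * S.sj j x = a' * S.sj j' x := by
    intro x
    have h1 := S.mc_coe T a ha j h x
    rw [he, S.mc_coe, OnePoint.coe_eq_coe] at h1
    exact h1.symm
  have h1 : a = a' := by
    have := h0 1
    rwa [map_one, map_one, mul_one, mul_one] at this
  refine ⟨h1, ?_⟩
  subst h1
  obtain ⟨x, hx⟩ := S.not_id hfix
  have h2 := mul_left_cancel₀ ha (h0 x)
  cases j <;> cases j'
  · rfl
  · exact absurd h2.symm hx
  · exact absurd h2 hx
  · rfl

lemma mem_linC_mc (hfix : ∀ x, S.s x = x → IsSquare x) (a : F) (ha : a ≠ 0) (j : Bool)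
    (h : T.T (nsq a) j) : S.mc T a ha j h ∈ S.linC T ↔ j = false := by
  rw [S.mem_linC]
  constructor
  · intro h1
    obtain ⟨x, hx⟩ := S.not_id hfix
    have h2 := h1 x
    rw [S.mc_coe, S.mc_coe, toF_coe, map_one, mul_one, OnePoint.coe_eq_coe] at h2
    have h3 := mul_left_cancel₀ ha h2
    cases j
    · rfl
    · exact absurd h3 hx
  · rintro rfl x
    rw [S.mc_coe, S.mc_coe, toF_coe, map_one, mul_one]
    rfl

/-- coordinates as an equivalence -/
def ccE (hfix : ∀ x, S.s x = x → IsSquare x) :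
    {p : {a : F // a ≠ 0} × Bool // T.T (nsq p.1.1) p.2} ≃ S.CC T :=
  Equiv.ofBijective (fun p => S.mc T p.1.1.1 p.1.1.2 p.1.2 p.2) (by
    constructor
    · rintro ⟨⟨⟨a, ha⟩, j⟩, h⟩ ⟨⟨⟨a', ha'⟩, j'⟩, h'⟩ he
      obtain ⟨h1, h2⟩ := S.mc_inj T hfix he
      subst h1
      subst h2
      rfl
    · intro c
      obtain ⟨a, ha, j, h, rfl⟩ := S.exists_mc T c
      exact ⟨⟨⟨⟨a, ha⟩, j⟩, h⟩, rfl⟩)

lemma card_ne : Nat.card {a : F // a ≠ 0} = Fintype.card F - 1 := by
  rw [Nat.card_eq_fintype_card, Fintype.card_subtype_compl, Fintype.card_subtype_eq]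

/-- regular types -/
def Reg (T : Ty) : Prop := ∀ t, ∃! j, T.T t j

lemma Reg.tr {T : Ty} (h : Reg T) : Tr T := fun t => (h t).exists

lemma card_reg (hfix : ∀ x, S.s x = x → IsSquare x) (hT : Reg T) :
    Nat.card (S.CC T) = Fintype.card F - 1 := by
  rw [← Nat.card_congr (S.ccE T hfix), ← card_ne]
  refine Nat.card_congr (Equiv.ofBijective (fun p => p.1.1) ⟨?_, ?_⟩)
  · rintro ⟨⟨⟨a, ha⟩, j⟩, h⟩ ⟨⟨⟨a', ha'⟩, j'⟩, h'⟩ he
    simp only [Subtype.mk.injEq] at he
    subst he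
    have := (hT (nsq a)).unique h h'
    subst this
    rfl
  · rintro ⟨a, ha⟩
    obtain ⟨j, hj, -⟩ := hT (nsq a)
    exact ⟨⟨⟨⟨a, ha⟩, j⟩, hj⟩, rfl⟩

lemma card_full (hfix : ∀ x, S.s x = x → IsSquare x) (hT : ∀ t j, T.T t j) :
    Nat.card (S.CC T) = 2 * (Fintype.card F - 1) := by
  rw [← Nat.card_congr (S.ccE T hfix), ← card_ne]
  rw [Nat.card_congr (Equiv.subtypeUnivEquiv (fun p => hT _ _)), Nat.card_prod]
  simp [mul_comm]

lemma card_XX (hT : Tr T) : Nat.card (S.XX T) =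
    Fintype.card F * (Fintype.card F + 1) * Nat.card (S.CC T) := by
  have h := (S.bn T hT).card_X
  rw [← Nat.card_eq_fintype_card, ← Nat.card_eq_fintype_card (α := (S.bn T hT).C)] at h
  exact h

/-- regular types: nontrivial elements of `C` act without nonzero fixed points -/
lemma reg_fix (hfix : ∀ x, S.s x = x → IsSquare x) (hT : Reg T) (c : S.CC T) (hc : c ≠ 1)
    (b : F) (hb : (S.bn T hT.tr).al c b = b) : b = 0 := by
  by_contra hb0
  apply hc
  obtain ⟨a, ha, j, h, rfl⟩ := S.exists_mc T c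
  rw [S.al_mc] at hb
  have hsb := S.sj_ne j hb0
  have h1 : nsq a = false := by
    have h2 : nsq (a * S.sj j b) = nsq b := by rw [hb]
    rw [nsq_mul S.two ha hsb, S.nsq_sj] at h2
    cases h3 : nsq a with
    | false => rfl
    | true =>
      rw [h3] at h2
      cases h4 : nsq b <;> rw [h4] at h2 <;> simp at h2
  have h2 : j = false := by
    rw [h1] at h
    exact (hT false).unique h T.zero
  subst h2
  have h3 : a = 1 := by
    have h4 : a * b = 1 * b := by rw [one_mul]; exact hb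
    exact mul_right_cancel₀ hb0 h4
  subst h3
  apply S.ext_CC T
  intro x
  rw [S.mc_coe, one_mul]
  rfl

lemma reg_stab (hfix : ∀ x, S.s x = x → IsSquare x) (hT : Reg T) :
    Nat.card {c : S.CC T // (S.bn T hT.tr).al c 1 = 1} = 1 := by
  rw [Nat.card_eq_one_iff_unique]
  constructor
  · constructor
    rintro ⟨c, hc⟩ ⟨d, hd⟩
    have h1 : ∀ c : S.CC T, (S.bn T hT.tr).al c 1 = 1 → c = 1 := by
      intro c hc
      by_contra hne
      exact one_ne_zero (S.reg_fix T hfix hT c hne 1 hc)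
    apply Subtype.ext
    exact (h1 c hc).trans (h1 d hd).symm
  · refine ⟨⟨1, ?_⟩⟩
    change toF ((1 : Equiv.Perm (OnePoint F)) ((1 : F) : OnePoint F)) = 1
    rfl

/-- elements fixing infinity are in the Borel subgroup -/
lemma inB_of_infty (hT : Tr T) (x : S.XX T) (hx : (x : Equiv.Perm (OnePoint F)) ∞ = ∞) :
    ∃ (b : F) (c : S.CC T), x = S.uu T b * c := by
  set y := (x : Equiv.Perm (OnePoint F)) ((0 : F) : OnePoint F) with hy
  have hy' : y ≠ ∞ := by
    intro h
    rw [← hx, hy] at h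
    exact OnePoint.coe_ne_infty _ ((x : Equiv.Perm (OnePoint F)).injective h)
  obtain ⟨b, hb⟩ := OnePoint.ne_infty_iff_exists.mp hy'
  refine ⟨b, ⟨(S.uu T b)⁻¹ * x, ⟨?_, ?_⟩⟩, by group⟩
  · change (S.uu T b : Equiv.Perm (OnePoint F))⁻¹ ((x : Equiv.Perm (OnePoint F)) ∞) = ∞
    rw [Equiv.Perm.inv_eq_iff_eq, hx, S.uu_infty]
  · change (S.uu T b : Equiv.Perm (OnePoint F))⁻¹ ((x : Equiv.Perm (OnePoint F)) _) = _
    rw [Equiv.Perm.inv_eq_iff_eq, ← hy, S.uu_coe, zero_add, hb]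

end Inv

/-- the three types -/
def tyL : Ty := ⟨fun _ j => j = false, rfl, by rintro t j t' j' rfl rfl; rfl⟩
def tyG : Ty := ⟨fun t j => t = j, rfl, by rintro t j t' j' rfl rfl; rfl⟩
def tyH : Ty := ⟨fun _ _ => True, trivial, fun _ _ _ _ _ _ => trivial⟩

lemma regL : Inv.Reg tyL := fun t => ⟨false, rfl, fun j hj => hj⟩
lemma regG : Inv.Reg tyG := fun t => ⟨t, rfl, fun j hj => hj.symm⟩
lemma trH : Inv.Tr tyH := fun t => ⟨false, trivial⟩

end Pool.Agent.X256.HC
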