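import Pool.Agent.X256.HC.XT

/-!
# Verification of the hypotheses for the concrete groups
-/

open scoped BigOperators Classical
open Matrix OnePoint Pool.Agent.Helper884.IC Pool.Agent.X256.CT

noncomputable section

namespace Pool.Agent.X256.HC

variable {F : Type} [Field F] [Fintype F]

namespace Inv

variable (S : Inv F) (T : Ty)

/-- scaling by a square -/
def sq (b : F) (hb : b ≠ 0) : S.XX T :=
  S.cc T (b * b) (mul_ne_zero hb hb) false false T.zero (by simp)

lemma w_rel (b : F) (hb : b ≠ 0) :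
    S.ww T * S.uu T b * S.ww T = S.uu T (-b⁻¹) * S.ww T * S.uu T (-b) * S.sq T b hb := by
  apply S.ext_XX T
  · change (S.ww T : Equiv.Perm (OnePoint F)) ((S.uu T b : Equiv.Perm (OnePoint F))
      ((S.ww T : Equiv.Perm (OnePoint F)) ∞)) = (S.uu T (-b⁻¹) : Equiv.Perm (OnePoint F))
      ((S.ww T : Equiv.Perm (OnePoint F)) ((S.uu T (-b) : Equiv.Perm (OnePoint F))
      ((S.sq T b hb : Equiv.Perm (OnePoint F)) ∞)))
    have h1 : (S.sq T b hb : Equiv.Perm (OnePoint F)) ∞ = ∞ := S.cc_infty T _ _ _ _ _ _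
    rw [h1, S.ww_infty, S.uu_coe, zero_add, S.ww_coe T hb, S.uu_infty, S.ww_infty, S.uu_coe,
      zero_add]
  · intro x
    change (S.ww T : Equiv.Perm (OnePoint F)) ((S.uu T b : Equiv.Perm (OnePoint F))
      ((S.ww T : Equiv.Perm (OnePoint F)) x)) = (S.uu T (-b⁻¹) : Equiv.Perm (OnePoint F))
      ((S.ww T : Equiv.Perm (OnePoint F)) ((S.uu T (-b) : Equiv.Perm (OnePoint F))
      ((S.sq T b hb : Equiv.Perm (OnePoint F)) x)))
    have h1 : (S.sq T b hb : Equiv.Perm (OnePoint F)) (x : OnePoint F) =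
      ((b * b * S.sj false x : F) : OnePoint F) := S.cc_coe T _ _ _ _ _ _ _
    have h2 : S.sj false x = x := rfl
    rw [h1, h2, S.uu_coe T (-b)]
    by_cases hx : x = 0
    · subst hx
      rw [S.ww_zero, S.uu_infty, S.ww_infty, mul_zero, zero_add, S.ww_coe T (neg_ne_zero.mpr hb),
        S.uu_coe]
      congr 1
      rw [inv_neg, neg_neg, add_neg_cancel]
    · rw [S.ww_coe T hx, S.uu_coe]
      by_cases hx2 : x = b⁻¹
      · subst hx2
        have e1 : -(b⁻¹)⁻¹ + b = 0 := by rw [inv_inv]; ring
        have e2 : b * b * b⁻¹ + -b = 0 := by field_simp; ring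
        rw [e1, e2, S.ww_zero, S.uu_infty]
      · have hbx : b * x ≠ 1 := by
          intro h
          apply hx2
          field_simp
          rw [mul_comm]
          exact h
        have e1 : -x⁻¹ + b ≠ 0 := by
          intro h
          apply hbx
          field_simp at h
          linear_combination h
        have e2 : b * b * x + -b ≠ 0 := by
          intro h
          apply hbx
          have h3 : b * (b * x - 1) = 0 := by linear_combination h
          rcases mul_eq_zero.mp h3 with h4 | h4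
          · exact absurd h4 hb
          · exact sub_eq_zero.mp h4
        rw [S.ww_coe T e1, S.ww_coe T e2, S.uu_coe]
        congr 1
        have e3 : b * x - 1 ≠ 0 := sub_ne_zero.mpr hbx
        have e4 : -x⁻¹ + b = (b * x - 1) / x := by field_simp; ring
        have e5 : b * b * x + -b = b * (b * x - 1) := by ring
        rw [e4, e5]
        field_simp
        ring

lemma Ab_holds (hT : Tr T) : (S.bn T hT).Ab := by
  intro K hK hu
  have hu' : ∀ b, S.uu T b ∈ K := hu
  have hsub : ∀ b, S.uu T b * S.uu T (-b) = 1 := by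
    intro b
    have h1 : S.uu T (b + -b) = S.uu T b * S.uu T (-b) := (S.bn T hT).u_add b (-b)
    rw [← h1, add_neg_cancel]
    exact (S.bn T hT).u_zero
  have hww : (S.ww T)⁻¹ = S.ww T := (S.bn T hT).w_inv
  have hw : S.ww T ∈ K := by
    have h1 : S.ww T * S.uu T 1 * (S.ww T)⁻¹ ∈ K := hK.conj_mem _ (hu' 1) _
    have h2 := S.w_rel T 1 one_ne_zero
    have h3 : S.sq T 1 one_ne_zero = 1 := by
      apply S.ext_XX T
      · exact S.cc_infty T _ _ _ _ _ _
      · intro x
        have : (S.sq T 1 one_ne_zero : Equiv.Perm (OnePoint F)) (x : OnePoint F) =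
          ((1 * 1 * S.sj false x : F) : OnePoint F) := S.cc_coe T _ _ _ _ _ _ _
        rw [this, one_mul, one_mul]
        rfl
    rw [hww, h2, h3, mul_one, inv_one] at h1
    have h4 : S.ww T = (S.uu T (-1))⁻¹ * (S.uu T (-1) * S.ww T * S.uu T (-1)) * (S.uu T (-1))⁻¹ := by
      group
    rw [h4]
    exact K.mul_mem (K.mul_mem (K.inv_mem (hu' _)) h1) (K.inv_mem (hu' _))
  have hsq : ∀ (b : F) (hb : b ≠ 0), S.sq T b hb ∈ K := by
    intro b hb
    have h1 := S.w_rel T b hb
    have h2 : S.sq T b hb = (S.uu T (-b⁻¹) * S.ww T * S.uu T (-b))⁻¹ *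
        (S.ww T * S.uu T b * S.ww T) := by
      rw [h1]
      group
    rw [h2]
    exact K.mul_mem (K.inv_mem (K.mul_mem (K.mul_mem (hu' _) hw) (hu' _)))
      (K.mul_mem (K.mul_mem hw (hu' _)) hw)
  refine ⟨hw, ?_⟩
  intro c hc c' hc'
  have hc0 : c ∈ S.CC T := hc
  have hc0' : c' ∈ S.CC T := hc'
  obtain ⟨a, j, t, ha, ht, hs, hf⟩ := S.form T hc0
  obtain ⟨a', j', t', ha', ht', hs', hf'⟩ := S.form T hc0'
  have hσ : ∀ (j : Bool) {x : F}, x ≠ 0 → S.sj j x ≠ 0 := by
    intro j x hx
    cases j with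
    | false => exact hx
    | true => exact S.s_ne hx
  -- the ratio is a square
  have h1 : IsSquare (a * S.sj j a' * (a' * S.sj j' a)) := by
    have e1 : IsSquare (a * S.sj j' a) := by
      rw [sq_mul S.two ha (hσ j' ha), S.sq_sj]
    have e2 : IsSquare (a' * S.sj j a') := by
      rw [sq_mul S.two ha' (hσ j ha'), S.sq_sj]
    have e3 := e1.mul e2
    have e4 : a * S.sj j a' * (a' * S.sj j' a) = a * S.sj j' a * (a' * S.sj j a') := by ring
    rw [e4]
    exact e3
  obtain ⟨r, hr⟩ := h1
  have hden : a' * S.sj j' a ≠ 0 := mul_ne_zero ha' (hσ j' ha)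
  have hnum : a * S.sj j a' ≠ 0 := mul_ne_zero ha (hσ j ha')
  have hr0 : r ≠ 0 := by
    rintro rfl
    rw [mul_zero] at hr
    exact mul_ne_zero hnum hden hr
  have hb : r / (a' * S.sj j' a) ≠ 0 := div_ne_zero hr0 hden
  have h2 : c * c' = S.sq T (r / (a' * S.sj j' a)) hb * (c' * c) := by
    apply S.ext_XX T
    · change (c : Equiv.Perm (OnePoint F)) ((c' : Equiv.Perm (OnePoint F)) ∞) =
        (S.sq T _ hb : Equiv.Perm (OnePoint F)) ((c' : Equiv.Perm (OnePoint F))
          ((c : Equiv.Perm (OnePoint F)) ∞))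
      rw [hc0'.1, hc0.1, hc0'.1]
      exact (S.cc_infty T _ _ _ _ _ _).symm
    · intro x
      change (c : Equiv.Perm (OnePoint F)) ((c' : Equiv.Perm (OnePoint F)) x) =
        (S.sq T _ hb : Equiv.Perm (OnePoint F)) ((c' : Equiv.Perm (OnePoint F))
          ((c : Equiv.Perm (OnePoint F)) x))
      rw [hf' x, hf, hf x, hf']
      have e0 : (S.sq T (r / (a' * S.sj j' a)) hb : Equiv.Perm (OnePoint F))
        ((a' * S.sj j' (a * S.sj j x) : F) : OnePoint F) =
        (((r / (a' * S.sj j' a)) * (r / (a' * S.sj j' a)) *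
          S.sj false (a' * S.sj j' (a * S.sj j x)) : F) : OnePoint F) := S.cc_coe T _ _ _ _ _ _ _
      rw [e0]
      congr 1
      have e1 : S.sj false (a' * S.sj j' (a * S.sj j x)) = a' * S.sj j' (a * S.sj j x) := rfl
      have e2 : S.sj j (S.sj j' x) = S.sj j' (S.sj j x) := by cases j <;> cases j' <;> rfl
      rw [e1, map_mul, map_mul, e2]
      have e3 : r / (a' * S.sj j' a) * (r / (a' * S.sj j' a)) =
          a * S.sj j a' / (a' * S.sj j' a) := by
        rw [div_mul_div_comm, ← hr, mul_div_mul_right _ _ hden]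
      rw [e3]
      have hs1 : S.sj j' a ≠ 0 := hσ j' ha
      field_simp
  have h3 : c * c' * c⁻¹ * c'⁻¹ = S.sq T (r / (a' * S.sj j' a)) hb := by
    rw [h2]
    group
  rw [h3]
  exact hsq _ _

/-- the linear elements of `C` -/
def linC : Subgroup (S.CC T) where
  carrier := {c | ∀ x : F, (((c : S.XX T)) : Equiv.Perm (OnePoint F)) (x : OnePoint F) =
    ((toF ((((c : S.XX T)) : Equiv.Perm (OnePoint F)) ((1 : F) : OnePoint F)) * x : F) : OnePoint F)}
  mul_mem' := by
    intro c d hc hd x
    change ((c : S.XX T) : Equiv.Perm (OnePoint F)) (((d : S.XX T) : Equiv.Perm (OnePoint F)) x) =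
      ((toF (((c : S.XX T) : Equiv.Perm (OnePoint F)) (((d : S.XX T) : Equiv.Perm (OnePoint F))
        ((1 : F) : OnePoint F))) * x : F) : OnePoint F)
    have e1 : ∀ y : F, ((c : S.XX T) : Equiv.Perm (OnePoint F))
        (((d : S.XX T) : Equiv.Perm (OnePoint F)) (y : OnePoint F)) =
        ((toF (((c : S.XX T) : Equiv.Perm (OnePoint F)) ((1 : F) : OnePoint F)) *
          (toF (((d : S.XX T) : Equiv.Perm (OnePoint F)) ((1 : F) : OnePoint F)) * y) : F) :
            OnePoint F) := by
      intro y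
      rw [hd y]
      exact hc _
    rw [e1 x, e1 1, toF_coe]
    congr 1
    ring
  one_mem' := by
    intro x
    change (x : OnePoint F) = ((toF ((1 : F) : OnePoint F) * x : F) : OnePoint F)
    rw [toF_coe, one_mul]
  inv_mem' := by
    intro c hc x
    obtain ⟨a, j, t, ha, -, -, hf⟩ := S.form T c.2
    set a1 := toF (((c : S.XX T) : Equiv.Perm (OnePoint F)) ((1 : F) : OnePoint F)) with ha1
    have ha1' : a1 = a := by
      rw [ha1, hf 1, toF_coe, map_one, mul_one]
    have h1 : ∀ y : F, ((c : S.XX T) : Equiv.Perm (OnePoint F))⁻¹ (y : OnePoint F) =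
        ((a⁻¹ * y : F) : OnePoint F) := by
      intro y
      rw [Equiv.Perm.inv_eq_iff_eq, hc, ← ha1, ha1']
      congr 1
      field_simp
    change ((c : S.XX T) : Equiv.Perm (OnePoint F))⁻¹ (x : OnePoint F) =
      ((toF (((c : S.XX T) : Equiv.Perm (OnePoint F))⁻¹ ((1 : F) : OnePoint F)) * x : F) : OnePoint F)
    rw [h1, h1, toF_coe, mul_one]

lemma mem_linC {c : S.CC T} : c ∈ S.linC T ↔ ∀ x : F,
    (((c : S.XX T)) : Equiv.Perm (OnePoint F)) (x : OnePoint F) =
    ((toF ((((c : S.XX T)) : Equiv.Perm (OnePoint F)) ((1 : F) : OnePoint F)) * x : F) : OnePoint F) :=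
  Iff.rfl

lemma linC_comm (c d : S.linC T) : c * d = d * c := by
  apply Subtype.ext
  apply Subtype.ext
  apply S.ext_XX T
  · change (((c : S.CC T) : S.XX T) : Equiv.Perm (OnePoint F))
      ((((d : S.CC T) : S.XX T) : Equiv.Perm (OnePoint F)) ∞) =
      (((d : S.CC T) : S.XX T) : Equiv.Perm (OnePoint F))
      ((((c : S.CC T) : S.XX T) : Equiv.Perm (OnePoint F)) ∞)
    rw [(d : S.CC T).2.1, (c : S.CC T).2.1, (d : S.CC T).2.1]
  · intro x
    change (((c : S.CC T) : S.XX T) : Equiv.Perm (OnePoint F))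
      ((((d : S.CC T) : S.XX T) : Equiv.Perm (OnePoint F)) x) =
      (((d : S.CC T) : S.XX T) : Equiv.Perm (OnePoint F))
      ((((c : S.CC T) : S.XX T) : Equiv.Perm (OnePoint F)) x)
    have hc := (S.mem_linC T).mp c.2
    have hd := (S.mem_linC T).mp d.2
    rw [hd x, hc (_ * x), hc x, hd (_ * x)]
    congr 1
    ring

/-- the linear elements have index at most two -/
lemma card_linC : Nat.card (S.CC T) ≤ 2 * Nat.card (S.linC T) := by
  by_cases hall : ∀ c : S.CC T, c ∈ S.linC T
  · have : S.linC T = ⊤ := by rw [eq_top_iff]; intro c _; exact hall c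
    rw [this, Subgroup.card_top]
    omega
  · push Not at hall
    obtain ⟨c0, hc0⟩ := hall
    -- the product of a nonlinear element and the inverse of `c0` is linear
    have key : ∀ c : S.CC T, c ∉ S.linC T → c * c0⁻¹ ∈ S.linC T := by
      intro c hc
      obtain ⟨a, j, t, ha, -, -, hf⟩ := S.form T c.2
      obtain ⟨a0, j0, t0, ha0, -, -, hf0⟩ := S.form T c0.2
      have hj : j = true := by
        cases j with
        | true => rfl
        | false =>
          exfalso
          apply hc
          rw [S.mem_linC]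
          intro x
          rw [hf x, hf 1, toF_coe]
          simp [sj]
      have hj0 : j0 = true := by
        cases j0 with
        | true => rfl
        | false =>
          exfalso
          apply hc0
          rw [S.mem_linC]
          intro x
          rw [hf0 x, hf0 1, toF_coe]
          simp [sj]
      subst hj
      subst hj0
      have hss : ∀ x, S.sj true (S.sj true x) = x := S.ss
      have h1 : ∀ y : F, ((c0 : S.XX T) : Equiv.Perm (OnePoint F))⁻¹ (y : OnePoint F) =
          ((S.sj true (a0⁻¹ * y) : F) : OnePoint F) := by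
        intro y
        rw [Equiv.Perm.inv_eq_iff_eq, hf0, hss]
        congr 1
        field_simp
      have h2 : ∀ y : F, (((c * c0⁻¹ : S.CC T) : S.XX T) : Equiv.Perm (OnePoint F)) (y : OnePoint F) =
          ((a * (a0⁻¹ * y) : F) : OnePoint F) := by
        intro y
        change ((c : S.XX T) : Equiv.Perm (OnePoint F))
          (((c0 : S.XX T) : Equiv.Perm (OnePoint F))⁻¹ (y : OnePoint F)) = _
        rw [h1, hf, hss]
      rw [S.mem_linC]
      intro x
      rw [h2 x, h2 1, toF_coe]
      congr 1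
      ring
    have h1 : 2 * Nat.card (S.linC T) = Nat.card (S.linC T × Bool) := by
      rw [Nat.card_prod]
      simp [mul_comm]
    rw [h1]
    refine Nat.card_le_card_of_injective
      (fun c => if h : c ∈ S.linC T then (⟨c, h⟩, false) else (⟨c * c0⁻¹, key c h⟩, true)) ?_
    intro c d hcd
    simp only at hcd
    by_cases hc : c ∈ S.linC T <;> by_cases hd : d ∈ S.linC T
    · rw [dif_pos hc, dif_pos hd] at hcd
      exact congrArg Subtype.val (congrArg Prod.fst hcd)
    · rw [dif_pos hc, dif_neg hd] at hcd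
      exact absurd (congrArg Prod.snd hcd) (by simp)
    · rw [dif_neg hc, dif_pos hd] at hcd
      exact absurd (congrArg Prod.snd hcd) (by simp)
    · rw [dif_neg hc, dif_neg hd] at hcd
      have := congrArg Subtype.val (congrArg Prod.fst hcd)
      exact mul_right_cancel this

instance : Fintype (S.CC T) := Fintype.ofFinite _

/-- degrees of irreducible characters of `C` -/
lemma degC {mu : S.CC T → ℂ} (h : IsIrrChar mu) : mu 1 = 1 ∨ mu 1 = 2 := by
  obtain ⟨n, h1, h2⟩ := deg_le_index (S.linC T) (S.linC_comm T) h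
  have h3 := S.card_linC T
  have h4 : 0 < Nat.card (S.linC T) := Nat.card_pos
  have h5 : n ≤ 2 := by
    have : n * Nat.card (S.linC T) ≤ 2 * Nat.card (S.linC T) := h2.trans h3
    exact Nat.le_of_mul_le_mul_right this h4
  have h6 : n ≠ 0 := by
    rintro rfl
    exact Pool.Agent.Y63.AWC.one_ne h (by rw [h1]; simp)
  have h7 : n = 1 ∨ n = 2 := by omega
  rcases h7 with rfl | rfl
  · left; rw [h1]; simp
  · right; rw [h1]; simp

/-- degrees when all elements are linear -/
lemma degC_one (hall : ∀ c : S.CC T, c ∈ S.linC T) {mu : S.CC T → ℂ} (h : IsIrrChar mu) :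
    mu 1 = 1 := by
  obtain ⟨n, h1, h2⟩ := deg_le_index (S.linC T) (S.linC_comm T) h
  have h3 : S.linC T = ⊤ := by rw [eq_top_iff]; intro c _; exact hall c
  rw [h3, Subgroup.card_top] at h2
  have h4 : 0 < Nat.card (S.CC T) := Nat.card_pos
  have h5 : n ≤ 1 := by
    have : n * Nat.card (S.CC T) ≤ 1 * Nat.card (S.CC T) := by rw [one_mul]; exact h2
    exact Nat.le_of_mul_le_mul_right this h4
  have h6 : n ≠ 0 := by
    rintro rfl
    exact Pool.Agent.Y63.AWC.one_ne h (by rw [h1]; simp)
  have h7 : n = 1 := by omega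
  rw [h1, h7]
  simp

end Inv

end Pool.Agent.X256.HC
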