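import Pool.Agent.X256.HC.PGL

/-!
# The BN data of the groups of semilinear fractional transformations
-/

open scoped BigOperators Classical
open Matrix OnePoint

noncomputable section

namespace Pool.Agent.X256.HC

variable {F : Type} [Field F] [Fintype F]

namespace Inv

variable (S : Inv F) (T : Ty)

/-- the group as a type -/
abbrev XX : Type := ↥(S.Xt T)

instance : Fintype (OnePoint F) := inferInstanceAs (Fintype (Option F))

instance : Fintype (S.XX T) := Fintype.ofFinite _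

lemma ok_of_sq {g : GL (Fin 2) F} (h : IsSquare (dt g)) : ok T g false :=
  ⟨false, T.zero, by simp [h]⟩

/-- translations -/
def uu (b : F) : S.XX T := ⟨gl (mkg 1 b 0 1 (by simp)), mkg 1 b 0 1 (by simp), false,
  ok_of_sq T (by rw [dt_mk]; simp), by simp [frj]⟩

/-- the inversion `x ↦ -1/x` -/
def ww : S.XX T := ⟨gl (mkg 0 1 (-1) 0 (by simp)), mkg 0 1 (-1) 0 (by simp), false,
  ok_of_sq T (by rw [dt_mk]; simp), by simp [frj]⟩

lemma uu_infty (b : F) : (S.uu T b : Equiv.Perm (OnePoint F)) ∞ = ∞ := by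
  change gl _ ∞ = ∞
  rw [gl_infty, mk10, if_pos rfl]

lemma uu_coe (b x : F) : (S.uu T b : Equiv.Perm (OnePoint F)) x = ((x + b : F) : OnePoint F) := by
  change gl _ (x : OnePoint F) = _
  rw [gl_coe, mk10, mk11, mk00, mk01, if_neg (by simp)]
  simp

lemma ww_infty : (S.ww T : Equiv.Perm (OnePoint F)) ∞ = ((0 : F) : OnePoint F) := by
  change gl _ ∞ = _
  rw [gl_infty, mk10, if_neg (by simp), mk00]
  simp

lemma ww_zero : (S.ww T : Equiv.Perm (OnePoint F)) ((0 : F) : OnePoint F) = ∞ := by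
  change gl _ ((0 : F) : OnePoint F) = _
  rw [gl_coe, mk10, mk11, if_pos (by simp)]

lemma ww_coe {x : F} (hx : x ≠ 0) :
    (S.ww T : Equiv.Perm (OnePoint F)) (x : OnePoint F) = ((-x⁻¹ : F) : OnePoint F) := by
  change gl _ (x : OnePoint F) = _
  rw [gl_coe, mk10, mk11, mk00, mk01, if_neg (by simpa using hx)]
  congr 1
  rw [zero_mul, zero_add, add_zero, neg_one_mul, one_div, inv_neg]

lemma ext_perm {p q : Equiv.Perm (OnePoint F)} (h1 : p ∞ = q ∞)
    (h2 : ∀ x : F, p (x : OnePoint F) = q x) : p = q := by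
  ext y
  cases y with
  | infty => exact h1
  | coe x => exact h2 x

lemma ext_XX {p q : S.XX T} (h1 : (p : Equiv.Perm (OnePoint F)) ∞ = (q : Equiv.Perm (OnePoint F)) ∞)
    (h2 : ∀ x : F, (p : Equiv.Perm (OnePoint F)) (x : OnePoint F) =
      (q : Equiv.Perm (OnePoint F)) x) : p = q :=
  Subtype.ext (ext_perm h1 h2)

/-- the stabiliser of the two points -/
def CC : Subgroup (S.XX T) where
  carrier := {x | (x : Equiv.Perm (OnePoint F)) ∞ = ∞ ∧
    (x : Equiv.Perm (OnePoint F)) ((0 : F) : OnePoint F) = ((0 : F) : OnePoint F)}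
  mul_mem' := by
    rintro a b ⟨h1, h2⟩ ⟨h3, h4⟩
    constructor
    · change (a : Equiv.Perm (OnePoint F)) ((b : Equiv.Perm (OnePoint F)) ∞) = ∞
      rw [h3, h1]
    · change (a : Equiv.Perm (OnePoint F)) ((b : Equiv.Perm (OnePoint F)) ((0 : F) : OnePoint F)) = _
      rw [h4, h2]
  one_mem' := ⟨rfl, rfl⟩
  inv_mem' := by
    rintro a ⟨h1, h2⟩
    constructor
    · change (a : Equiv.Perm (OnePoint F))⁻¹ ∞ = ∞
      rw [Equiv.Perm.inv_eq_iff_eq]
      exact h1.symm
    · change (a : Equiv.Perm (OnePoint F))⁻¹ ((0 : F) : OnePoint F) = _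
      rw [Equiv.Perm.inv_eq_iff_eq]
      exact h2.symm

lemma mem_CC {x : S.XX T} : x ∈ S.CC T ↔ (x : Equiv.Perm (OnePoint F)) ∞ = ∞ ∧
    (x : Equiv.Perm (OnePoint F)) ((0 : F) : OnePoint F) = ((0 : F) : OnePoint F) := Iff.rfl

/-- the form of the elements of the stabiliser -/
lemma form {x : S.XX T} (hx : x ∈ S.CC T) : ∃ (a : F) (j t : Bool), a ≠ 0 ∧ T.T t j ∧
    (IsSquare a ↔ t = false) ∧
    ∀ b : F, (x : Equiv.Perm (OnePoint F)) (b : OnePoint F) = ((a * S.sj j b : F) : OnePoint F) := by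
  obtain ⟨h1, h2⟩ := hx
  obtain ⟨g, j, ⟨t, ht, hsq⟩, hg⟩ := x.2
  have e1 : ∀ y, (x : Equiv.Perm (OnePoint F)) y = gl g (S.frj j y) := fun y => by rw [hg]; rfl
  rw [e1, S.frj_infty, gl_infty] at h1
  have h10 : g 1 0 = 0 := by
    by_contra h
    rw [if_neg h] at h1
    exact OnePoint.coe_ne_infty _ h1
  have hdt := dt_ne g
  rw [dt_eq, h10, mul_zero, sub_zero] at hdt
  have h00 : g 0 0 ≠ 0 := left_ne_zero_of_mul hdt
  have h11 : g 1 1 ≠ 0 := right_ne_zero_of_mul hdt
  rw [e1, S.frj_coe, map_zero, gl_coe, h10, zero_mul, zero_add, if_neg h11, mul_zero, zero_add,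
    OnePoint.coe_eq_coe, div_eq_zero_iff] at h2
  have h01 : g 0 1 = 0 := by
    rcases h2 with h | h
    · exact h
    · exact absurd h h11
  refine ⟨g 0 0 / g 1 1, j, t, div_ne_zero h00 h11, ht, ?_, ?_⟩
  · rw [← hsq, dt_eq, h10, mul_zero, sub_zero]
    have : g 0 0 * g 1 1 = (g 0 0 / g 1 1) * (g 1 1 * g 1 1) := by field_simp
    rw [this, sq_mul S.two (div_ne_zero h00 h11) (mul_ne_zero h11 h11)]
    have h3 : IsSquare (g 1 1 * g 1 1) := ⟨g 1 1, rfl⟩
    simp [h3]
  · intro b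
    rw [e1, S.frj_coe, gl_coe, h10, zero_mul, zero_add, if_neg h11, h01, add_zero,
      OnePoint.coe_eq_coe]
    field_simp

/-- the finite part of a point -/
def toF (x : OnePoint F) : F := OnePoint.elim x 0 id

lemma toF_coe (x : F) : toF (x : OnePoint F) = x := rfl

/-- elements of `C` with prescribed image of one -/
def cc (a : F) (ha : a ≠ 0) (j t : Bool) (h : T.T t j) (hs : IsSquare a ↔ t = false) : S.XX T :=
  ⟨gl (mkg a 0 0 1 (by simpa using ha)) * S.frj j, mkg a 0 0 1 (by simpa using ha), j,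
    ⟨t, h, by rw [dt_mk]; simpa using hs⟩, rfl⟩

lemma cc_infty (a : F) (ha : a ≠ 0) (j t : Bool) (h : T.T t j) (hs : IsSquare a ↔ t = false) :
    (S.cc T a ha j t h hs : Equiv.Perm (OnePoint F)) ∞ = ∞ := by
  change gl _ (S.frj j ∞) = _
  rw [S.frj_infty, gl_infty, mk10, if_pos rfl]

lemma cc_coe (a : F) (ha : a ≠ 0) (j t : Bool) (h : T.T t j) (hs : IsSquare a ↔ t = false)
    (b : F) : (S.cc T a ha j t h hs : Equiv.Perm (OnePoint F)) (b : OnePoint F) =
      ((a * S.sj j b : F) : OnePoint F) := by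
  change gl _ (S.frj j (b : OnePoint F)) = _
  rw [S.frj_coe, gl_coe, mk10, mk11, mk00, mk01, if_neg (by simp)]
  simp

lemma cc_mem (a : F) (ha : a ≠ 0) (j t : Bool) (h : T.T t j) (hs : IsSquare a ↔ t = false) :
    S.cc T a ha j t h hs ∈ S.CC T := by
  refine ⟨S.cc_infty T a ha j t h hs, ?_⟩
  rw [S.cc_coe, map_zero, mul_zero]

/-- transitivity condition on the type -/
def Tr (T : Ty) : Prop := ∀ t, ∃ j, T.T t j

/-- the BN data -/
def bn (hT : Tr T) : BN F (S.XX T) where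
  u := S.uu T
  u_add := by
    intro a b
    apply S.ext_XX T
    · change _ = (S.uu T a : Equiv.Perm (OnePoint F)) ((S.uu T b : Equiv.Perm (OnePoint F)) ∞)
      rw [S.uu_infty, S.uu_infty, S.uu_infty]
    · intro x
      change _ = (S.uu T a : Equiv.Perm (OnePoint F)) ((S.uu T b : Equiv.Perm (OnePoint F)) x)
      rw [S.uu_coe, S.uu_coe, S.uu_coe]
      congr 1
      ring
  C := S.CC T
  al := fun c b => toF (((c : S.XX T) : Equiv.Perm (OnePoint F)) (b : OnePoint F))
  al_spec := by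
    intro c b
    obtain ⟨a, j, t, ha, -, -, hform⟩ := S.form T c.2
    rw [mul_inv_eq_iff_eq_mul]
    have hal : toF (((c : S.XX T) : Equiv.Perm (OnePoint F)) (b : OnePoint F)) = a * S.sj j b := by
      rw [hform b]; rfl
    apply S.ext_XX T
    · change ((c : S.XX T) : Equiv.Perm (OnePoint F)) ((S.uu T b : Equiv.Perm (OnePoint F)) ∞) =
        (S.uu T _ : Equiv.Perm (OnePoint F)) (((c : S.XX T) : Equiv.Perm (OnePoint F)) ∞)
      rw [S.uu_infty, c.2.1, S.uu_infty]
    · intro x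
      change ((c : S.XX T) : Equiv.Perm (OnePoint F)) ((S.uu T b : Equiv.Perm (OnePoint F)) x) =
        (S.uu T _ : Equiv.Perm (OnePoint F)) (((c : S.XX T) : Equiv.Perm (OnePoint F)) x)
      rw [S.uu_coe, hform, hform x, S.uu_coe, hal, map_add]
      congr 1
      ring
  w := S.ww T
  w_sq := by
    apply S.ext_XX T
    · change (S.ww T : Equiv.Perm (OnePoint F)) ((S.ww T : Equiv.Perm (OnePoint F)) ∞) = ∞
      rw [S.ww_infty, S.ww_zero]
    · intro x
      change (S.ww T : Equiv.Perm (OnePoint F)) ((S.ww T : Equiv.Perm (OnePoint F)) x) = x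
      by_cases hx : x = 0
      · subst hx
        rw [S.ww_zero, S.ww_infty]
      · rw [S.ww_coe T hx, S.ww_coe T (by simpa using hx)]
        congr 1
        field_simp
  w_conj := by
    rintro c ⟨h1, h2⟩
    constructor
    · change (S.ww T : Equiv.Perm (OnePoint F)) ((c : Equiv.Perm (OnePoint F))
        ((S.ww T : Equiv.Perm (OnePoint F)) ∞)) = ∞
      rw [S.ww_infty, h2, S.ww_zero]
    · change (S.ww T : Equiv.Perm (OnePoint F)) ((c : Equiv.Perm (OnePoint F))
        ((S.ww T : Equiv.Perm (OnePoint F)) ((0 : F) : OnePoint F))) = _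
      rw [S.ww_zero, h1, S.ww_infty]
  cover := by
    have hB : ∀ x : S.XX T, (x : Equiv.Perm (OnePoint F)) ∞ = ∞ →
        ∃ b, ∃ c ∈ S.CC T, x = S.uu T b * c := by
      intro x hx
      set y := (x : Equiv.Perm (OnePoint F)) ((0 : F) : OnePoint F) with hy
      have hy' : y ≠ ∞ := by
        intro h
        rw [← hx, hy] at h
        exact OnePoint.coe_ne_infty _ ((x : Equiv.Perm (OnePoint F)).injective h)
      obtain ⟨b, hb⟩ := OnePoint.ne_infty_iff_exists.mp hy'
      refine ⟨b, (S.uu T b)⁻¹ * x, ⟨?_, ?_⟩, by group⟩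
      · change (S.uu T b : Equiv.Perm (OnePoint F))⁻¹ ((x : Equiv.Perm (OnePoint F)) ∞) = ∞
        rw [Equiv.Perm.inv_eq_iff_eq, hx, S.uu_infty]
      · change (S.uu T b : Equiv.Perm (OnePoint F))⁻¹ ((x : Equiv.Perm (OnePoint F)) _) = _
        rw [Equiv.Perm.inv_eq_iff_eq, ← hy, S.uu_coe, zero_add, hb]
    intro x
    by_cases hx : (x : Equiv.Perm (OnePoint F)) ∞ = ∞
    · left
      exact hB x hx
    · right
      obtain ⟨a, ha⟩ := OnePoint.ne_infty_iff_exists.mp hx
      have h1 : (((S.ww T)⁻¹ * ((S.uu T a)⁻¹ * x) : S.XX T) : Equiv.Perm (OnePoint F)) ∞ = ∞ := by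
        change (S.ww T : Equiv.Perm (OnePoint F))⁻¹ ((S.uu T a : Equiv.Perm (OnePoint F))⁻¹
          ((x : Equiv.Perm (OnePoint F)) ∞)) = ∞
        rw [Equiv.Perm.inv_eq_iff_eq, Equiv.Perm.inv_eq_iff_eq, S.ww_infty, S.uu_coe, zero_add, ha]
      obtain ⟨b, c, hc, h2⟩ := hB _ h1
      refine ⟨a, b, c, hc, ?_⟩
      rw [← h2]
      group
  inter := by
    rintro b c ⟨h1, h2⟩ ⟨b', c', ⟨h3, h4⟩, h5⟩
    by_contra hb
    have h6 := congrArg (fun p : S.XX T => (p : Equiv.Perm (OnePoint F)) ∞) h5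
    change (S.ww T : Equiv.Perm (OnePoint F)) ((S.uu T b : Equiv.Perm (OnePoint F))
      ((c : Equiv.Perm (OnePoint F)) ((S.ww T : Equiv.Perm (OnePoint F)) ∞))) =
      (S.uu T b' : Equiv.Perm (OnePoint F)) ((c' : Equiv.Perm (OnePoint F)) ∞) at h6
    rw [S.ww_infty, h2, S.uu_coe, zero_add, h3, S.uu_infty, S.ww_coe T hb] at h6
    exact OnePoint.coe_ne_infty _ h6
  disj := by
    rintro b ⟨h1, h2⟩
    rw [S.uu_coe, zero_add, OnePoint.coe_eq_coe] at h2
    exact h2
  trans := by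
    intro b hb
    obtain ⟨t, ht⟩ : ∃ t : Bool, IsSquare b ↔ t = false := by
      by_cases h : IsSquare b
      · exact ⟨false, by simp [h]⟩
      · exact ⟨true, by simp [h]⟩
    obtain ⟨j, hj⟩ := hT t
    refine ⟨⟨S.cc T b hb j t hj ht, S.cc_mem T b hb j t hj ht⟩, ?_⟩
    change toF ((S.cc T b hb j t hj ht : Equiv.Perm (OnePoint F)) ((1 : F) : OnePoint F)) = b
    rw [S.cc_coe, map_one, mul_one]
    rfl

end Inv

end Pool.Agent.X256.HC
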